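import Pool.Agent.F3.GE.Defs
import Pool.Agent.F2.L.MSel

/-!
# Project F3 (MP_6a0350_co), row GE1: selection of placements in `P r` (copy of `F2/L/BSel.lean`
and `F2/L/MSel.lean`, helper91)
-/

set_option autoImplicit false
set_option linter.unusedSectionVars false

namespace F3.GE

open Finset NW F1 F2
open Pool.Agent.F2 (HH GG Spread HH_zero HH_succ)

section BSel

variable {V : Type} [Fintype V] [DecidableEq V] {c : ℕ}

theorem gs_uniq {P : Tri V → Finset (Fin (c + 2) → V)} (hrt : ∀ r, ∀ h ∈ P r, rt c h = r.1)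
    {r r' : Tri V} {h : Fin (c + 2) → V} (h1 : h ∈ P r) (h2 : h ∈ P r') : r = r' :=
  Subtype.ext ((hrt r h h1).symm.trans (hrt r' h h2))

variable (P : Tri V → Finset (Fin (c + 2) → V)) (RT : Finset (Tri V))

/-- the pairs of a set of placements -/
def gsP (W : Finset (Fin (c + 2) → V)) : Finset ({r // r ∈ RT} × (Fin (c + 2) → V)) :=
  univ.filter (fun p => p.2 ∈ W ∧ p.2 ∈ P p.1.1)

/-- all members have a root -/
def gsF (W : Finset (Fin (c + 2) → V)) : Prop := ∀ h ∈ W, ∃ r ∈ RT, h ∈ P r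

theorem mem_gsP {W : Finset (Fin (c + 2) → V)} {p : {r // r ∈ RT} × (Fin (c + 2) → V)} :
    p ∈ gsP P RT W ↔ p.2 ∈ W ∧ p.2 ∈ P p.1.1 := by
  unfold gsP
  rw [mem_filter]
  exact ⟨fun h => h.2, fun h => ⟨mem_univ _, h⟩⟩

theorem gs_yP_of (hrt : ∀ r, ∀ h ∈ P r, rt c h = r.1) {r : Tri V} (hr : r ∈ RT)
    {h : Fin (c + 2) → V} (h1 : h ∈ P r) :
    yG c P RT h = 1 / ((P r).card : ℝ) := by
  unfold yG
  have h2 : RT.filter (fun r => h ∈ P r) = {r} := by
    ext r'
    rw [mem_filter, mem_singleton]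
    constructor
    · rintro ⟨_, h3⟩
      exact gs_uniq hrt h3 h1
    · rintro rfl
      exact ⟨hr, h1⟩
  rw [h2, sum_singleton]

theorem gs_yP_zero {h : Fin (c + 2) → V} (h1 : ¬ ∃ r ∈ RT, h ∈ P r) :
    yG c P RT h = 0 := by
  unfold yG
  refine sum_eq_zero fun r hr => ?_
  rw [mem_filter] at hr
  exact absurd ⟨r, hr.1, hr.2⟩ h1

theorem gs_yP_nonneg (h : Fin (c + 2) → V) : 0 ≤ yG c P RT h := by
  unfold yG
  exact sum_nonneg fun r _ => by positivity

theorem gs_inj (hrt : ∀ r, ∀ h ∈ P r, rt c h = r.1) (W : Finset (Fin (c + 2) → V)) :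
    Set.InjOn Prod.snd (gsP P RT W : Set ({r // r ∈ RT} × (Fin (c + 2) → V))) := by
  intro p hp q hq h1
  rw [mem_coe, mem_gsP] at hp hq
  refine Prod.ext (Subtype.ext ?_) h1
  refine gs_uniq hrt hp.2 ?_
  rw [h1]
  exact hq.2

theorem gs_card (hrt : ∀ r, ∀ h ∈ P r, rt c h = r.1) (W : Finset (Fin (c + 2) → V)) : (gsP P RT W).card ≤ W.card :=
  card_le_card_of_injOn Prod.snd (fun p hp => ((mem_gsP P RT).1 hp).1) (gs_inj P RT hrt W)

theorem gs_image {W : Finset (Fin (c + 2) → V)} (hW : gsF P RT W) :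
    (gsP P RT W).image Prod.snd = W := by
  ext h
  rw [mem_image]
  constructor
  · rintro ⟨p, hp, rfl⟩
    exact ((mem_gsP P RT).1 hp).1
  · intro h1
    obtain ⟨r, hr, h2⟩ := hW h h1
    exact ⟨(⟨r, hr⟩, h), (mem_gsP P RT).2 ⟨h1, h2⟩, rfl⟩

/-- the weight of a pair -/
noncomputable def gsW (p : {r // r ∈ RT} × (Fin (c + 2) → V)) : ℝ :=
  if p.2 ∈ P p.1.1 then (1 : ℝ) / (P p.1.1).card else 0

theorem gs_prod (hrt : ∀ r, ∀ h ∈ P r, rt c h = r.1) {W : Finset (Fin (c + 2) → V)}
    (hW : gsF P RT W) :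
    ∏ p ∈ gsP P RT W, gsW P RT p = ∏ h ∈ W, yG c P RT h := by
  conv_rhs => rw [← gs_image P RT hW]
  rw [prod_image fun p hp q hq h => gs_inj P RT hrt W hp hq h]
  refine prod_congr rfl fun p hp => ?_
  have h1 := ((mem_gsP P RT).1 hp).2
  unfold gsW
  rw [if_pos h1, gs_yP_of P RT hrt p.1.2 h1]

theorem gs_prod_zero {W : Finset (Fin (c + 2) → V)} (hW : ¬ gsF P RT W) :
    ∏ h ∈ W, yG c P RT h = 0 := by
  unfold gsF at hW
  push Not at hW
  obtain ⟨h, h1, h2⟩ := hW
  refine prod_eq_zero h1 (gs_yP_zero P RT ?_)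
  rintro ⟨r, hr, h3⟩
  exact h2 r hr h3

end BSel

open Classical in
/-- row GE1 -/
theorem bselectG (hsel : SelectStatement) : BSelectG := by
  intro L c V _ _ RT P 𝔅 I _ b U hL hrt hP h𝔅 hU hb hloc hsum
  have key := hsel L {r // r ∈ RT} (Fin (c + 2) → V) (fun i => P i.1)
    ((𝔅.filter (fun W => gsF P RT W)).image (gsP P RT))
    ((univ.filter (fun i : I => gsF P RT (U i))).image (fun i => gsP P RT (U i)))
    (fun U' => ∑ i ∈ (univ.filter (fun i : I => gsF P RT (U i))).filter
      (fun i => gsP P RT (U i) = U'), b i)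
    hL (fun i => hP i.1 i.2) ?_ ?_ (fun U' => sum_nonneg fun i _ => hb i) ?_ ?_
  · obtain ⟨h, h1, h2, h3⟩ := key
    have hne : ∀ r : Tri V, r.1.Nonempty := fun r => card_pos.1 (by rw [r.2]; norm_num)
    set hh : Tri V → (Fin (c + 2) → V) := fun r =>
      if hr : r ∈ RT then h ⟨r, hr⟩ else fun _ => (hne r).choose with hhdef
    have hhr : ∀ i : {r // r ∈ RT}, hh i.1 = h i := by
      intro i
      rw [hhdef]
      simp only [i.2, dif_pos]
    -- a chosen placement belongs to its root
    have him : ∀ p : {r // r ∈ RT} × (Fin (c + 2) → V), p.2 ∈ P p.1.1 →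
        p.2 ∈ RT.image hh → h p.1 = p.2 := by
      intro p hp h4
      rw [mem_image] at h4
      obtain ⟨r, hr, h5⟩ := h4
      have h6 := hhr ⟨r, hr⟩
      have h7 : r = p.1.1 := by
        refine gs_uniq hrt (h := p.2) ?_ hp
        rw [← h5]
        change hh r ∈ _
        rw [h6]
        exact h1 ⟨r, hr⟩
      have h8 : (⟨r, hr⟩ : {r // r ∈ RT}) = p.1 := Subtype.ext h7
      rw [← h8, ← h6]
      exact h5
    have hfull : ∀ W : Finset (Fin (c + 2) → V), (∀ h' ∈ W, h' ∈ RT.image hh) → gsF P RT W := by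
      intro W hW h' h4
      obtain ⟨r, hr, h5⟩ := mem_image.1 (hW h' h4)
      refine ⟨r, hr, ?_⟩
      rw [← h5, hhr ⟨r, hr⟩]
      exact h1 ⟨r, hr⟩
    refine ⟨hh, ?_, ?_, ?_⟩
    · intro r hr
      rw [hhr ⟨r, hr⟩]
      exact h1 ⟨r, hr⟩
    · intro W hW
      by_contra hcon
      push Not at hcon
      have h4 := hfull W hcon
      obtain ⟨p, hp, h5⟩ := h2 (gsP P RT W) (mem_image_of_mem _ (mem_filter.2 ⟨hW, h4⟩))
      rw [mem_gsP] at hp
      exact h5 (him p hp.2 (hcon _ hp.1))
    · refine lt_of_le_of_lt ?_ h3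
      have e1 : ∀ i : I, ∏ h' ∈ U i, rz c RT hh h' =
          if ∀ h' ∈ U i, h' ∈ RT.image hh then 1 else 0 := by
        intro i
        split_ifs with h4
        · refine prod_eq_one fun h' h5 => ?_
          unfold rz
          rw [if_pos (h4 h' h5)]
        · push Not at h4
          obtain ⟨h', h5, h6⟩ := h4
          refine prod_eq_zero h5 ?_
          unfold rz
          rw [if_neg h6]
      simp only [e1, mul_ite, mul_one, mul_zero]
      rw [← sum_filter]
      rw [sum_filter]
      have e2 : ∑ U' ∈ (univ.filter (fun i : I => gsF P RT (U i))).image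
            (fun i => gsP P RT (U i)),
          (if ∀ p ∈ U', h p.1 = p.2 then
            ∑ i ∈ (univ.filter (fun i : I => gsF P RT (U i))).filter
              (fun i => gsP P RT (U i) = U'), b i else 0) =
          ∑ i ∈ univ.filter (fun i : I => gsF P RT (U i)),
            (if ∀ p ∈ gsP P RT (U i), h p.1 = p.2 then b i else 0) := by
        rw [← sum_fiberwise_of_maps_to (s := univ.filter (fun i : I => gsF P RT (U i)))
          (t := (univ.filter (fun i : I => gsF P RT (U i))).image (fun i => gsP P RT (U i)))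
          (g := fun i => gsP P RT (U i)) (fun i hi => mem_image_of_mem _ hi)]
        refine sum_congr rfl fun U' _ => ?_
        split_ifs with h4
        · refine sum_congr rfl fun i hi => ?_
          rw [mem_filter] at hi
          rw [hi.2, if_pos h4]
        · symm
          refine sum_eq_zero fun i hi => ?_
          rw [mem_filter] at hi
          rw [hi.2, if_neg h4]
      rw [sum_filter, e2]
      rw [sum_filter]
      refine sum_le_sum fun i _ => ?_
      by_cases h4 : ∀ h' ∈ U i, h' ∈ RT.image hh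
      · rw [if_pos h4, if_pos (hfull _ h4), if_pos]
        intro p hp
        rw [mem_gsP] at hp
        exact him p hp.2 (h4 _ hp.1)
      · rw [if_neg h4]
        split_ifs
        · exact hb i
        · exact le_rfl
        · exact le_rfl
  · intro U' hU'
    rw [mem_image] at hU'
    obtain ⟨W, hW, rfl⟩ := hU'
    rw [mem_filter] at hW
    refine ⟨(gs_card P RT hrt W).trans (h𝔅 W hW.1).1, ?_⟩
    rw [← image_nonempty (f := Prod.snd), gs_image P RT hW.2]
    exact (h𝔅 W hW.1).2
  · intro U' hU'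
    rw [mem_image] at hU'
    obtain ⟨i, _, rfl⟩ := hU'
    exact (gs_card P RT hrt (U i)).trans (hU i)
  · rintro ⟨r, hr⟩
    refine le_trans ?_ (hloc r hr)
    have hinj : Set.InjOn (gsP P RT) ((𝔅.filter (fun W => gsF P RT W) :
        Finset (Finset (Fin (c + 2) → V))) : Set (Finset (Fin (c + 2) → V))) := by
      intro W hW W' hW' h4
      rw [mem_coe, mem_filter] at hW hW'
      rw [← gs_image P RT hW.2, ← gs_image P RT hW'.2, h4]
    rw [sum_filter, sum_image fun W hW W' hW' h4 => hinj hW hW' h4, sum_filter, sum_filter]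
    refine sum_le_sum fun W hW => ?_
    by_cases h4 : gsF P RT W
    · rw [if_pos h4]
      have h5 := gs_prod P RT hrt h4
      unfold gsW at h5
      rw [h5]
      have h6 : 0 ≤ ∏ h ∈ W, yG c P RT h := prod_nonneg fun h _ => gs_yP_nonneg P RT h
      by_cases h7 : ∃ a, ((⟨r, hr⟩ : {r // r ∈ RT}), a) ∈ gsP P RT W
      · rw [if_pos h7, if_pos]
        obtain ⟨a, ha⟩ := h7
        rw [mem_gsP] at ha
        exact ⟨a, ha.1, hrt _ _ ha.2⟩
      · rw [if_neg h7]
        split_ifs
        · exact h6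
        · exact le_rfl
    · rw [if_neg h4]
      split_ifs
      · exact prod_nonneg fun h _ => gs_yP_nonneg P RT h
      · exact le_rfl
  · refine lt_of_le_of_lt ?_ hsum
    have e2 : ∑ U' ∈ (univ.filter (fun i : I => gsF P RT (U i))).image
          (fun i => gsP P RT (U i)),
        (∑ i ∈ (univ.filter (fun i : I => gsF P RT (U i))).filter
            (fun i => gsP P RT (U i) = U'), b i) * ∏ p ∈ U', gsW P RT p =
        ∑ i ∈ univ.filter (fun i : I => gsF P RT (U i)),
          b i * ∏ p ∈ gsP P RT (U i), gsW P RT p := by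
      rw [← sum_fiberwise_of_maps_to (s := univ.filter (fun i : I => gsF P RT (U i)))
        (t := (univ.filter (fun i : I => gsF P RT (U i))).image (fun i => gsP P RT (U i)))
        (g := fun i => gsP P RT (U i)) (fun i hi => mem_image_of_mem _ hi)]
      refine sum_congr rfl fun U' _ => ?_
      rw [sum_mul]
      refine sum_congr rfl fun i hi => ?_
      rw [mem_filter] at hi
      rw [hi.2]
    unfold gsW at e2
    refine (le_of_eq e2).trans ?_
    rw [sum_filter]
    refine sum_le_sum fun i _ => ?_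
    by_cases h4 : gsF P RT (U i)
    · rw [if_pos h4]
      have h5 := gs_prod P RT hrt h4
      unfold gsW at h5
      rw [h5]
    · rw [if_neg h4]
      exact mul_nonneg (hb i) (prod_nonneg fun h _ => gs_yP_nonneg P RT h)

/-- row GE1, second part -/
theorem mselectG (h : BSelectG) : MSelectG := by
  classical
  intro L c V _ _ RT P 𝔅 ϱ _ yτ e a k FF hL hrt hP h𝔅 hFF hyτ he ha hbad hsum
  have hexp := fun i : ϱ => msel_expand (γ := Fin (c + 2) → V) (e i) (yτ i) (he i) (hyτ i)
    (FF i) (L / k i) (k i) ∅ (fun hk U hU => (Nat.le_div_iff_mul_le (Nat.pos_of_ne_zero hk)).2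
      (by rw [mul_comm]; exact hFF i U hU))
  choose q hq0 hqc hq using hexp
  have hqL : ∀ i W, q i W ≠ 0 → W.card ≤ L := by
    intro i W hW
    have h1 := hqc i W hW
    have h2 := Nat.mul_div_le L (k i)
    rw [Finset.card_empty, zero_add] at h1
    exact h1.trans h2
  have key : ∀ yb : (Fin (c + 2) → V) → ℝ,
      ∑ p : ϱ × Finset (Fin (c + 2) → V), (a p.1 * q p.1 p.2) *
        ∏ x ∈ (if p.2.card ≤ L then p.2 else ∅), yb x =
      ∑ i, a i * GG (e i) (yA c (yτ i) yb) (FF i) (k i) := by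
    intro yb
    rw [Fintype.sum_prod_type]
    refine Finset.sum_congr rfl fun i _ => ?_
    have h1 : GG (e i) (yA c (yτ i) yb) (FF i) (k i) =
        HH (e i) (Sum.elim (yτ i) yb) (FF i) (k i) ∅ := rfl
    rw [h1, hq i yb, Finset.mul_sum]
    refine Finset.sum_congr rfl fun W _ => ?_
    by_cases hW : q i W = 0
    · simp only [hW, mul_zero, zero_mul]
    · simp only [if_pos (hqL i W hW)]
      ring
  obtain ⟨hh, h1, h2, h3⟩ := h L c V RT P 𝔅 (ϱ × Finset (Fin (c + 2) → V))
    (fun p => a p.1 * q p.1 p.2) (fun p => if p.2.card ≤ L then p.2 else ∅) hL hrt hP h𝔅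
    (fun p => by
      show (if p.2.card ≤ L then p.2 else ∅).card ≤ L
      split_ifs with hc
      · exact hc
      · simp) (fun p => mul_nonneg (ha _) (hq0 _ _)) hbad (by
      rw [key]
      exact hsum)
  refine ⟨hh, h1, h2, ?_⟩
  rw [key] at h3
  exact h3

end F3.GE
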