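import Pool.Agent.F3.GE.Defs

/-!
# Project F3, block GE: the boosters exist (assembly)
-/

set_option autoImplicit false

namespace F3.GE

open Finset NW F1 F2
open Pool.Agent.F2 (HH GG Spread)

/-- `BoostGStatement` -/
theorem boostG (hsel : SelGStatement) (hcl : CleanStatement) (hM : ConsMG)
    (hY : ConsYG) (hT : ConsTG) : BoostGStatement := by
  intro J c C B K hJ hc hce hJc hB1 hK
  obtain ⟨K₂, hK₂, hY'⟩ := hY J K hK
  refine ⟨K₂, hK₂, fun k hk => ?_⟩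
  obtain ⟨θ₀, hθ₀, hs⟩ := hsel J c C B K hJ hc hce hJc hB1 hK k hk
  refine ⟨θ₀, hθ₀, fun θ hθ hθ' => ?_⟩
  obtain ⟨n₁, k₂, hk₂, hs'⟩ := hs θ hθ hθ'
  refine ⟨max 1 n₁, ?_⟩
  intro V _ _ E' A X RT VV P s s₁ hB'
  have hB : GHyp c n₁ C s s₁ B θ E' A X RT VV P :=
    { hn := (le_max_right _ _).trans hB'.hn
      s_le := hB'.s_le
      s_ge := hB'.s_ge
      s₁_le := hB'.s₁_le
      s₁_ge := hB'.s₁_ge
      nl := hB'.nl
      dA := hB'.dA
      dX := hB'.dX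
      root := hB'.root
      vert := hB'.vert
      pair := hB'.pair
      P_sub := hB'.P_sub
      P_card := hB'.P_card
      vt := hB'.vt }
  obtain ⟨hh, hS⟩ := hs' V E' A X RT VV P s s₁ hB
  have hmem : ∀ r ∈ RT, hh r ∈ Pl c E' r := fun r hr => hB.P_sub r hr (hS.mem r hr)
  have hdis : ∀ r ∈ RT, Disjoint (NW.edg r.1) E' := fun r hr =>
    Finset.disjoint_of_subset_left (hB.root r hr)
      (Finset.disjoint_union_left.2 ⟨hB.dA.symm, hB.dX.symm⟩)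
  obtain ⟨h1, h2⟩ := hcl c J hc hce hJc V E' RT hh hmem hdis hS.bad
  obtain ⟨m1, m2, m3, m4⟩ := hM c J k k₂ C s s₁ (max 1 n₁) B K θ hc hce hJc hK hk₂ V E' A X RT
    VV P hh (le_max_left _ _) hB' hS
  obtain ⟨y1, y2⟩ := hY' c k k₂ C s s₁ (max 1 n₁) B θ hc hce hJc hk₂ V E' A X RT VV P hh
    (le_max_left _ _) hB' hS
  obtain ⟨t1, t2, t3⟩ := hT c J k k₂ C s s₁ (max 1 n₁) B K θ hc hce hJc hK hk₂ V E' A X RT VV P
    hh (le_max_left _ _) hB' hS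
  exact ⟨hh, ⟨hS.mem, h1, h2, t1, t2, t3, y1, y2, m1, m2, m3, m4⟩⟩

end F3.GE
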