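import Pool.Agent.F3.GE.Defs
import Pool.Agent.F2.L.ConsM

/-!
# Project F3, block GE, row GE5a: the moments `mA`, `mA'`, `mB`, `mE`
-/

set_option autoImplicit false
set_option linter.unusedSectionVars false

namespace F3.GE

open Finset NW F1 F2
open Pool.Agent.F2 (HH GG Spread)

theorem gem_lift {V : Type} [Fintype V] [DecidableEq V] {c J : ℕ} (hl : F2.LiftStatement)
    (hc : F2.CleanStatement) {k k₂ C s s₁ n₀ : ℕ} {B K θ : ℝ}
    (h6 : 6 ≤ c) (h2 : Even c) (hJ : J < c) {E' A X : Finset (Sym2 V)} {RT VV : Finset (Tri V)}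
    {P : Tri V → Finset (Fin (c + 2) → V)}
    {hh : Tri V → (Fin (c + 2) → V)} (hB : GHyp c n₀ C s s₁ B θ E' A X RT VV P)
    (hS : SelG c J k k₂ s K θ E' RT VV P hh) : F2.CmLift c RT hh := by
  have hr : ∀ r ∈ RT, Disjoint (NW.edg r.1) E' := fun r hr =>
    Finset.disjoint_of_subset_left (hB.root r hr)
      (Finset.disjoint_union_left.2 ⟨hB.dA.symm, hB.dX.symm⟩)
  have hm : ∀ r ∈ RT, hh r ∈ Pl c E' r := fun r hr => hB.P_sub r hr (hS.mem r hr)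
  exact hl c h6 h2 V E' RT hh hm hr (hc c J h6 h2 hJ V E' RT hh hm hr hS.bad).1

/-- row GE5a -/
theorem consMG (hg : F2.GGLiftStatement) (hl : F2.LiftStatement) (hc : F2.CleanStatement) :
    ConsMG := by
  intro c J k k₂ C s s₁ n₀ B K θ h6 h2 hJ hK hk₂ V _ _ E' A X RT VV P hh hn₀ hB hS
  have hn : 1 ≤ Fintype.card V := hn₀.trans hB.hn
  have hL := gem_lift hl hc h6 h2 hJ hB hS
  refine ⟨fun T T' hTT => ?_, fun T T' hTT => ?_, fun T e he heT => ?_, fun T T' hTT => ?_⟩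
  · refine (cm_gg hg hn hK ?_).trans (hS.gA T T' hTT)
    intro U hU
    obtain ⟨W, hW, rfl⟩ := Finset.mem_image.1 hU
    obtain ⟨hW1, hT, hT'⟩ := Finset.mem_filter.1 hW
    obtain ⟨D, hD, hcD, hDW⟩ := cm_conf hW1
    obtain ⟨h3, h4, h5⟩ := cm_one hL hcD hDW hT
    refine ⟨_, ?_, h4, h5⟩
    classical
    unfold LA
    refine Finset.mem_filter.2 ⟨Finset.mem_univ _, D, hD, (cm_notMem hDW hT).1, (cm_notMem hDW hT').1, h3,
      (h4 T').2 (Finset.mem_erase.2 ⟨hTT.symm, hT'⟩)⟩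
  · refine (cm_gg hg hn hK ?_).trans (hS.gA' T T' hTT)
    intro U hU
    obtain ⟨W, hW, rfl⟩ := Finset.mem_image.1 hU
    obtain ⟨hW1, hT, hT', _⟩ := Finset.mem_filter.1 hW
    obtain ⟨D, hD, hcD, hDW⟩ := cm_conf hW1
    obtain ⟨h3, h4, h5⟩ := cm_two hL hcD hDW hT hT'
    refine ⟨_, ?_, h4, h5⟩
    classical
    unfold LA'
    refine Finset.mem_filter.2 ⟨Finset.mem_univ _, D, hD, (cm_notMem hDW hT).1, (cm_notMem hDW hT').1, h3⟩
  · refine (cm_gg hg hn hK ?_).trans (hS.gB T e heT)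
    intro U hU
    obtain ⟨W, hW, rfl⟩ := Finset.mem_image.1 hU
    obtain ⟨hW1, hT, T', hT', heT'⟩ := Finset.mem_filter.1 hW
    obtain ⟨D, hD, hcD, hDW⟩ := cm_conf hW1
    obtain ⟨h3, h4, h5⟩ := cm_one hL hcD hDW hT
    refine ⟨_, ?_, h4, h5⟩
    classical
    unfold LB
    refine Finset.mem_filter.2 ⟨Finset.mem_univ _, D, hD, (cm_notMem hDW hT).1,
      ⟨T', (cm_notMem hDW (Finset.mem_of_mem_erase hT')).1, (Finset.mem_inter.1 heT').1⟩, h3⟩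
  · refine (cm_gg hg hn hK ?_).trans (hS.gE T T')
    intro U hU
    obtain ⟨p, hp, rfl⟩ := Finset.mem_image.1 hU
    obtain ⟨hp1, hT, hT', hn1, hn2, _, _, Ts, hTs⟩ := Finset.mem_filter.1 hp
    obtain ⟨hW₁, hW₂⟩ := Finset.mem_product.1 hp1
    obtain ⟨hTs₁, hTs₂⟩ := Finset.mem_inter.1 hTs
    obtain ⟨D₁, hD₁, hcD₁, hDW₁⟩ := cm_conf hW₁
    obtain ⟨D₂, hD₂, hcD₂, hDW₂⟩ := cm_conf hW₂
    obtain ⟨h3, h4, h5⟩ := cm_one hL hcD₁ hDW₁ hT
    obtain ⟨g3, g4, g5⟩ := cm_one hL hcD₂ hDW₂ hT'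
    have e1 : T' ∉ D₁ := fun h => hn1 (by
      rw [← hDW₁]
      exact Finset.mem_sdiff.2 ⟨h, (cm_notMem hDW₂ hT').2⟩)
    have e2 : T ∉ D₂ := fun h => hn2 (by
      rw [← hDW₂]
      exact Finset.mem_sdiff.2 ⟨h, (cm_notMem hDW₁ hT).2⟩)
    refine ⟨lft c RT hh D₁ {T} ∪ lft c RT hh D₂ {T'}, ?_, fun a => ?_, fun b hb => ?_⟩
    · classical
      unfold F2.LE
      refine Finset.mem_filter.2 ⟨Finset.mem_univ _, D₁, hD₁, D₂, hD₂, Ts, _, _, (cm_notMem hDW₁ hT).1,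
        (cm_notMem hDW₂ hT').1, e1, e2, h3, g3, (h4 Ts).2 ?_, (g4 Ts).2 ?_, rfl⟩
      · exact Finset.mem_erase.2 ⟨fun h => hn2 (h ▸ hTs₂), hTs₁⟩
      · exact Finset.mem_erase.2 ⟨fun h => hn1 (h ▸ hTs₁), hTs₂⟩
    · rw [Finset.mem_union, Finset.mem_union, h4 a, g4 a]
    · rcases Finset.mem_union.1 hb with h | h
      · exact h5 b h
      · exact g5 b h

end F3.GE
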