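import Pool.Agent.F3.GE.Defs
import Pool.Agent.F2.L.ConsT

/-!
# Project F3 (MP_6a0350_co), row GE5c: degrees and thin configurations
-/

set_option autoImplicit false
set_option linter.unusedSectionVars false

namespace F3.GE

open Finset NW F1 F2
open Pool.Agent.F2 (HH GG Spread crude_le)

theorem consTG (hl : F2.LiftStatement) (hc : F2.CleanStatement) : ConsTG := by
  intro c J k k₂ C s s₁ n₀ B K θ hc6 hev hJ hK hk V _ _ E' A X RT VV P hh hn₀ hB hS
  have hmem : ∀ r ∈ RT, hh r ∈ Pl c E' r := fun r hr => hB.P_sub r hr (hS.mem r hr)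
  have hroot : ∀ r ∈ RT, Disjoint (NW.edg r.1) E' := by
    intro r hr
    refine disjoint_left.2 fun e he he' => ?_
    rcases mem_union.1 (hB.root r hr he) with h | h
    · exact disjoint_left.1 hB.dA he' h
    · exact disjoint_left.1 hB.dX he' h
  obtain ⟨hdis, -⟩ := hc c J hc6 hev hJ V E' RT hh hmem hroot hS.bad
  have hn1 : 1 ≤ Fintype.card V := hn₀.trans hB.hn
  have hn : (1 : ℝ) ≤ (Fintype.card V : ℝ) := by exact_mod_cast hn1
  have hn0 : (0 : ℝ) < (Fintype.card V : ℝ) := by linarith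
  have hpow : (Fintype.card V : ℝ) ^ (1 - θ / 2) =
      (Fintype.card V : ℝ) * (Fintype.card V : ℝ) ^ (-(θ / 2)) := by
    rw [sub_eq_add_neg, Real.rpow_add hn0, Real.rpow_one]
  have hp0 : 0 ≤ (Fintype.card V : ℝ) ^ (-(θ / 2)) := Real.rpow_nonneg hn0.le _
  have hconf : ∀ (E : Finset (Sym2 V)) (T : Tri V), {T} ∈ (syT c J RT hh E X).conf →
      ∃ D ∈ (triSys V J).conf, Cons c RT hh D ∧ D \ allB c RT hh = {T} := by
    intro E T h
    have h1 : {T} ∈ rconf c J RT hh (triR E ∪ triV E X) := h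
    unfold rconf at h1
    simp only [mem_filter, mem_image] at h1
    obtain ⟨⟨D, ⟨h3, h4⟩, h2⟩, -⟩ := h1
    exact ⟨D, h3, h4, h2⟩
  refine ⟨fun v => ?_, fun e => ?_, fun e he => ?_⟩
  · have h1 := ct_deg RT hh v
    set Rv := RT.filter (fun r => v ∈ univ.image (hh r)) with hRv
    have hinj : Set.InjOn (fun r : Tri V => ({Sum.inr (hh r)} : Finset (Atom V c)))
        (Rv : Set (Tri V)) := by
      intro r hr r' hr' heq
      have h2 : (Sum.inr (hh r) : Atom V c) = Sum.inr (hh r') := singleton_injective heq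
      have h3 : hh r = hh r' := Sum.inr_injective h2
      have h4 := (mem_filter.1 (hmem r (mem_filter.1 (mem_coe.1 hr)).1)).2.2.1
      have h5 := (mem_filter.1 (hmem r' (mem_filter.1 (mem_coe.1 hr')).1)).2.2.1
      exact Subtype.ext (by rw [← h4, ← h5, h3])
    have hsum : ∑ U ∈ Rv.image (fun r : Tri V => ({Sum.inr (hh r)} : Finset (Atom V c))),
        ∏ a ∈ U, yA c (fun _ => 0) (rz c RT hh) a = (Rv.card : ℝ) := by
      rw [sum_image hinj]
      have h2 : ∀ r ∈ Rv, ∏ a ∈ ({Sum.inr (hh r)} : Finset (Atom V c)),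
          yA c (fun _ => 0) (rz c RT hh) a = 1 := by
        intro r hr
        rw [prod_singleton]
        show rz c RT hh (hh r) = 1
        unfold rz
        rw [if_pos (mem_image_of_mem hh (mem_filter.1 hr).1)]
      rw [sum_congr rfl h2, sum_const, nsmul_eq_mul, mul_one]
    have hc2 : (0 : ℝ) < (c : ℝ) + 2 := by positivity
    have h2 : (Rv.card : ℝ) ≤ (Fintype.card V : ℝ) ^ (1 - θ / 2) / (c + 2) := by
      rw [← hsum]
      refine crude_le (by omega) (by positivity) zero_le_one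
        (ct_yA_nonneg RT hh le_rfl) (ct_yA_le RT hh zero_le_one) ?_ ?_ (hS.gD v)
      · intro U hU
        obtain ⟨r, hr, rfl⟩ := mem_image.1 hU
        unfold LD
        exact mem_image.2 ⟨hh r, mem_filter.2 ⟨mem_univ _, (mem_filter.1 hr).2⟩, rfl⟩
      · intro U hU
        obtain ⟨r, hr, rfl⟩ := mem_image.1 hU
        exact ⟨Sum.inr (hh r), mem_singleton_self _, ct_yA_le RT hh zero_le_one _⟩
    rw [le_div_iff₀ hc2] at h2
    have h3 : (NW.deg (bEs c RT hh) v : ℝ) ≤ (Rv.card : ℝ) * (c + 2) := by exact_mod_cast h1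
    linarith
  · by_cases he : e ∈ E'
    · have h1 := ct_count hl (k₂ := k₂) hc6 hev E' RT hh hmem hroot hdis e univ
        ((triR (E' \ bEs c RT hh)).filter (fun T => e ∈ NW.edg T.1 ∧
          {T} ∈ (syT c J RT hh (E' \ bEs c RT hh) X).conf))
        (u := 1 / (Fintype.card V : ℝ)) (r := (Fintype.card V : ℝ) ^ (-(θ / 2)))
        (by positivity) (by rw [div_le_one hn0]; exact hn) hp0 hk (hS.gR e he)
        (fun T hT => ⟨mem_univ _, (mem_filter.1 hT).2.1, hconf _ T (mem_filter.1 hT).2.2⟩)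
      rw [hpow]
      rw [mul_one_div, div_le_iff₀ hn0] at h1
      linarith
    · have h1 : (triR (E' \ bEs c RT hh)).filter (fun T => e ∈ NW.edg T.1 ∧
          {T} ∈ (syT c J RT hh (E' \ bEs c RT hh) X).conf) = ∅ := by
        refine filter_eq_empty_iff.2 fun T hT h2 => he ?_
        exact (mem_sdiff.1 ((mem_filter.1 hT).2 h2.1)).1
      rw [h1]
      simp only [card_empty, Nat.cast_zero]
      exact Real.rpow_nonneg hn0.le _
  · have he' : e ∈ E' := (mem_sdiff.1 he).1
    have hs0 : (0 : ℝ) ≤ (s : ℝ) ^ 2 / (Fintype.card V : ℝ) := by positivity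
    have hs1 : (s : ℝ) ^ 2 / (Fintype.card V : ℝ) ≤ 1 := by
      have h2 := hS.u_le
      rw [div_le_one hn0] at h2 ⊢
      linarith
    have h1 := ct_count hl (k₂ := k₂) hc6 hev E' RT hh hmem hroot hdis e VV
      (VV.filter (fun T => T ∈ triV (E' \ bEs c RT hh) X ∧ e ∈ NW.edg T.1 ∧
        {T} ∈ (syT c J RT hh (E' \ bEs c RT hh) X).conf))
      (u := (s : ℝ) ^ 2 / (Fintype.card V : ℝ)) (r := (Fintype.card V : ℝ) ^ (-(θ / 2)))
      hs0 hs1 hp0 hk (hS.gV e he')
      (fun T hT => ⟨(mem_filter.1 hT).1, (mem_filter.1 hT).2.2.1,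
        hconf _ T (mem_filter.1 hT).2.2.2⟩)
    rw [hpow]
    rw [mul_div_assoc', div_le_iff₀ hn0] at h1
    linarith

end F3.GE
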