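import Pool.Agent.F3.GE.Defs
import Pool.Agent.F2.L.ConsY

/-!
# Project F3, block GE, row GE5b: the consequences `hY` and `hF` of `SelG`
-/

set_option autoImplicit false
set_option linter.unusedSectionVars false

namespace F3.GE

open Finset NW F1 F2
open Pool.Agent.F2 (HH GG Spread)

open F2.ConsY in
theorem consYG (hl : F2.LiftStatement) (hc : F2.CleanStatement) (hs : F2.TriSumStatement) :
    ConsYG := by
  classical
  intro J K hK
  obtain ⟨K₂, hK₂, hts⟩ := hs J K hK
  refine ⟨K₂ + 1, by linarith, ?_⟩
  intro c k k₂ C s s₁ n₀ B θ hc6 hce hJc hk₂ V _ _ E' A X RT VV P hh hn₀ hB hS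
  -- basic facts
  have hn1 : 1 ≤ Fintype.card V := hn₀.trans hB.hn
  have hn0 : (0 : ℝ) < Fintype.card V := by exact_mod_cast hn1
  have hroot : ∀ r ∈ RT, Disjoint (NW.edg r.1) E' := by
    intro r hr
    refine Finset.disjoint_left.2 fun e he hE => ?_
    rcases Finset.mem_union.1 (hB.root r hr he) with h | h
    · exact Finset.disjoint_left.1 hB.dA hE h
    · exact Finset.disjoint_left.1 hB.dX hE h
  have hmem : ∀ r ∈ RT, hh r ∈ Pl c E' r := fun r hr => hB.P_sub r hr (hS.mem r hr)
  obtain ⟨hdisj, hclean⟩ := hc c J hc6 hce hJc V E' RT hh hmem hroot hS.bad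
  have hlift := hl c hc6 hce V E' RT hh hmem hroot hdisj
  have hrz0 : ∀ h, 0 ≤ rz c RT hh h := by
    intro h
    unfold rz
    split_ifs <;> norm_num
  have hrz1 : ∀ h, rz c RT hh h ≤ 1 := by
    intro h
    unfold rz
    split_ifs <;> norm_num
  have hu := hS.u_le
  have hu' : 2 * K / (Fintype.card V : ℝ) ≤ 1 := by
    refine le_trans ?_ hu
    gcongr
    have : (0 : ℝ) ≤ (s : ℝ) ^ 2 := by positivity
    linarith
  have hconf : ∀ U ∈ (syT c J RT hh (E' \ bEs c RT hh) X).conf,
      ∃ D ∈ (triSys V J).conf, Cons c RT hh D ∧ U = D \ allB c RT hh ∧ U.Nonempty := by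
    intro U hU
    have hU' : U ∈ rconf c J RT hh (triR (E' \ bEs c RT hh) ∪ triV (E' \ bEs c RT hh) X) := hU
    unfold rconf at hU'
    rw [Finset.mem_filter, Finset.mem_image] at hU'
    obtain ⟨⟨D, hD, rfl⟩, hne, _⟩ := hU'
    rw [Finset.mem_filter] at hD
    exact ⟨D, hD.1, hD.2, rfl, hne⟩
  constructor
  · -- `hY`
    intro T hT
    have hTE : ¬ Disjoint (NW.edg T.1) E' := by
      rw [Finset.not_disjoint_iff]
      rcases Finset.mem_union.1 hT with h | h
      · have h1 := (Finset.mem_filter.1 h).2
        obtain ⟨e, he⟩ := edg_ne T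
        exact ⟨e, he, (Finset.mem_sdiff.1 (h1 he)).1⟩
      · have h1 := (Finset.mem_filter.1 h).2.1
        have h2 : (NW.edg T.1 ∩ (E' \ bEs c RT hh)).Nonempty := by
          rw [← Finset.card_pos]
          omega
        obtain ⟨e, he⟩ := h2
        rw [Finset.mem_inter, Finset.mem_sdiff] at he
        exact ⟨e, he.1, he.2.1⟩
    have hpos : 0 ≤ 2 * K / (Fintype.card V : ℝ) := by positivity
    rw [← Finset.sum_filter_add_sum_filter_not _ (fun U => U ∈ (triSys V J).conf)]
    refine add_le_add ?_ ?_
    · refine le_trans ?_ (hts V T hn1)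
      refine Finset.sum_le_sum_of_subset_of_nonneg ?_ fun U _ _ => pow_nonneg hpos _
      intro U hU
      rw [Finset.mem_filter, Finset.mem_filter] at hU
      exact Finset.mem_filter.2 ⟨hU.2, hU.1.2.1⟩
    · have hG := hS.gY T hTE
      refine sum_lift (γ := Fin (c + 2) → V) (2 * K / Fintype.card V)
        (yA c (fun _ => 2 * K / Fintype.card V) (rz c RT hh))
        (fun U => (2 * K / Fintype.card V) ^ (U.card - 1)) (fun U => U.erase T) _ (LY c J T) k₂ 1
        (by omega) zero_le_one hpos ?_ ?_ ?_ ?_ ?_ ?_ ?_ ?_
      · rintro (a | a)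
        · exact hpos
        · exact hrz0 a
      · rintro (a | a)
        · exact hu'
        · exact hrz1 a
      · intro U hU U' hU' h
        rw [Finset.mem_filter, Finset.mem_filter] at hU hU'
        have h1 : insert T (U.erase T) = insert T (U'.erase T) := by
          rw [h]
        rwa [Finset.insert_erase hU.1.2.1, Finset.insert_erase hU'.1.2.1] at h1
      · intro U hU
        rw [Finset.mem_filter, Finset.mem_filter] at hU
        have h1 := hU.1.2.1
        have h2 := hU.1.2.2.1
        rw [Finset.nonempty_iff_ne_empty]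
        intro h3
        rw [Finset.erase_eq_empty_iff] at h3
        rcases h3 with h3 | h3
        · rw [h3] at h1
          exact absurd h1 (Finset.notMem_empty T)
        · exact h2 h3
      · intro a
        exact le_rfl
      · intro U hU
        rw [Finset.mem_filter, Finset.mem_filter] at hU
        have h1 : ∀ a ∈ U.erase T, yA c (fun _ => 2 * K / Fintype.card V) (rz c RT hh)
            (Sum.inl a) = 2 * K / Fintype.card V := fun a _ => rfl
        rw [Finset.prod_congr rfl h1, Finset.prod_const, Finset.card_erase_of_mem hU.1.2.1]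
      · intro U hU
        rw [Finset.mem_filter, Finset.mem_filter] at hU
        obtain ⟨⟨hU1, hU2, hU3, hU4⟩, hU5⟩ := hU
        obtain ⟨D, hD, hD2, hD3, hD4⟩ := hconf U hU1
        have hTD : T ∈ D \ allB c RT hh := hD3 ▸ hU2
        rw [Finset.mem_sdiff] at hTD
        obtain ⟨l1, l2, l3⟩ := hlift D {T} hD2 (Finset.singleton_subset_iff.2 hTD.1)
          (Finset.disjoint_singleton_left.2 hTD.2)
        have l2' : ∀ a, Sum.inl a ∈ lft c RT hh D {T} ↔ a ∈ U.erase T := by
          intro a
          have h1 : a ∈ U ↔ a ∈ D ∧ a ∉ allB c RT hh := by rw [hD3, Finset.mem_sdiff]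
          rw [l2 a, Finset.mem_sdiff, Finset.mem_sdiff, Finset.mem_singleton, Finset.mem_erase, h1]
          constructor
          · rintro ⟨⟨h2, h3⟩, h4⟩
            exact ⟨h3, h2, h4⟩
          · rintro ⟨h3, h2, h4⟩
            exact ⟨⟨h2, h3⟩, h4⟩
        refine ⟨lft c RT hh D {T}, ?_, l2', ?_⟩
        · unfold LY
          rw [Finset.mem_filter]
          refine ⟨Finset.mem_univ _, ⟨D, hD, hTD.1, l1⟩, ?_, ?_⟩
          · have h1 : ∃ T' ∈ D, T' ∈ allB c RT hh := by
              by_contra hcon
              push Not at hcon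
              apply hU5
              have h2 : D \ allB c RT hh = D := by
                rw [Finset.sdiff_eq_self_iff_disjoint, Finset.disjoint_left]
                exact hcon
              rw [hD3, h2]
              exact hD
            obtain ⟨T', hT', hT'2⟩ := h1
            unfold allB at hT'2
            rw [Finset.mem_biUnion] at hT'2
            obtain ⟨r, hr, hr2⟩ := hT'2
            refine ⟨hh r, ?_⟩
            unfold lft
            rw [Finset.mem_union]
            right
            rw [Finset.mem_image]
            refine ⟨r, ?_, rfl⟩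
            rw [Finset.mem_filter]
            exact ⟨hr, T', Finset.mem_inter.2 ⟨hr2, hT'⟩⟩
          · have h1 : (U.erase T).Nonempty := by
              rw [Finset.nonempty_iff_ne_empty]
              intro h3
              rw [Finset.erase_eq_empty_iff] at h3
              rcases h3 with h3 | h3
              · rw [h3] at hU2
                exact absurd hU2 (Finset.notMem_empty T)
              · exact hU3 h3
            obtain ⟨T', hT'⟩ := h1
            exact ⟨T', (l2' T').2 hT'⟩
        · intro b hb
          exact l3 b hb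
      · rw [one_pow]
        exact hG
  · -- `hF`
    intro e he
    have hG := hS.gF e
    have hpos : 0 ≤ (2 * K + (s : ℝ) ^ 2) / (Fintype.card V : ℝ) := by positivity
    refine sum_lift (γ := Fin (c + 2) → V) 1
        (yA c (fun _ => (2 * K + s ^ 2) / Fintype.card V) (rz c RT hh))
        (fun U => ∏ T ∈ U, (syT c J RT hh (E' \ bEs c RT hh) X).y0 (fun _ => K / Fintype.card V)
          (s ^ 2 / Fintype.card V) T) (fun U => U) _ (LF c J e) k₂
        ((Fintype.card V : ℝ) ^ (3 * J * θ))
        (by omega) (by positivity) zero_le_one ?_ ?_ ?_ ?_ ?_ ?_ ?_ hG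
    · rintro (a | a)
      · exact hpos
      · exact hrz0 a
    · rintro (a | a)
      · exact hu
      · exact hrz1 a
    · intro U _ U' _ h
      exact h
    · intro U hU
      unfold Sy.fF at hU
      rw [Finset.mem_filter] at hU
      obtain ⟨D, _, _, _, hD4⟩ := hconf U hU.1
      exact hD4
    · intro a
      exact hu
    · intro U hU
      refine Finset.prod_le_prod ?_ ?_
      · intro a _
        unfold Sy.y0
        split_ifs <;> positivity
      · intro a _
        show Sy.y0 _ _ _ a ≤ (2 * K + (s : ℝ) ^ 2) / (Fintype.card V : ℝ)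
        unfold Sy.y0
        split_ifs
        · rw [← mul_div_assoc]
          gcongr
          have : (0 : ℝ) ≤ (s : ℝ) ^ 2 := by positivity
          linarith
        · gcongr
          linarith
        · exact hpos
    · intro U hU
      unfold Sy.fF at hU
      rw [Finset.mem_filter] at hU
      obtain ⟨hU1, _, o, ho, heo⟩ := hU
      obtain ⟨D, hD, hD2, hD3, hD4⟩ := hconf U hU1
      obtain ⟨l1, l2, l3⟩ := hlift D ∅ hD2 (Finset.empty_subset _)
        (Finset.disjoint_empty_left _)
      rw [Finset.sdiff_empty] at l1 l2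
      refine ⟨lft c RT hh D ∅, ?_, ?_, ?_⟩
      · unfold LF
        rw [Finset.mem_filter]
        refine ⟨Finset.mem_univ _, D, hD, ⟨o, ?_, ?_⟩, l1⟩
        · have h1 := (Finset.mem_inter.1 ho).1
          rw [hD3, Finset.mem_sdiff] at h1
          exact h1.1
        · have h1 : e ∈ NW.edg o.1 ∩ (E' \ bEs c RT hh) := heo
          exact (Finset.mem_inter.1 h1).1
      · intro a
        rw [l2, hD3]
      · intro b hb
        exact l3 b hb

end F3.GE
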