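import Pool.Agent.F3.GE.Defs
import Pool.Agent.F2.Z.Dec

/-!
# Project F3 (MP_6a0350_co), block GE, row GE8: the final statement
-/

set_option autoImplicit false
set_option linter.unusedSectionVars false

namespace F3.GE

open Finset NW F1 F2
open Pool.Agent.F2 (HH GG Spread)

/-- the part of `F2.Abs` in use -/
structure AbsW {V : Type} [Fintype V] [DecidableEq V] (E A X : Finset (Sym2 V))
    (RT : Finset (Tri V)) : Prop where
  X_sub : X ⊆ E
  A_sub : A ⊆ E \ X
  root : ∀ r ∈ RT, NW.edg r.1 ⊆ A ∪ X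

/-- as `F2.DecStatement` -/
theorem fg_dec (ht : TemplateStatement) :
    ∀ (c J : ℕ), 6 ≤ c → Even c → ∀ (V : Type) [Fintype V] [DecidableEq V]
    (E A X : Finset (Sym2 V)) (RT : Finset (Tri V)) (hh : Tri V → (Fin (c + 2) → V))
    (M 𝒯 : Finset (Tri V)) (ch : Sym2 V → Tri V), NW.NL E → AbsW E A X RT →
    Boo c J E A X RT hh → Cov c J (Er c E A X RT hh) X RT hh M ch → 𝒯 ⊆ RT →
    (∀ T ∈ 𝒯, ∀ T' ∈ 𝒯, T ≠ T' → Disjoint (NW.edg T.1) (NW.edg T'.1)) →
    𝒯.biUnion (fun T => NW.edg T.1) = A ∪ Lr (Er c E A X RT hh) X M ch →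
    (∀ T ∈ finT c (Er c E A X RT hh) RT hh 𝒯 M ch,
      ∀ T' ∈ finT c (Er c E A X RT hh) RT hh 𝒯 M ch, T ≠ T' →
        Disjoint (NW.edg T.1) (NW.edg T'.1)) ∧
    (finT c (Er c E A X RT hh) RT hh 𝒯 M ch).biUnion (fun T => NW.edg T.1) = E := by
  intro c J hc hce V _ _ E A X RT hh M 𝒯 ch hE hA hB hC h𝒯 hdis hun
  set E₂ := Er c E A X RT hh with hE₂
  have hpl : ∀ r ∈ RT, Function.Injective (hh r) ∧ rt c (hh r) = r.1 ∧
      bE c (hh r) ⊆ E \ (X ∪ A) := fun r hr => (mem_filter.1 (hB.mem r hr)).2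
  have hbf : ∀ r ∈ RT, BoostFacts c (hh r) := fun r hr => ht c hc hce V (hh r) (hpl r hr).1
  have hbEs : bEs c RT hh ⊆ E \ (X ∪ A) := biUnion_subset.2 fun r hr => (hpl r hr).2.2
  have hbE : ∀ r ∈ RT, bE c (hh r) ⊆ bEs c RT hh := fun r hr =>
    subset_biUnion_of_mem (fun r => bE c (hh r)) hr
  have hON : ∀ r ∈ RT, zdE (ON c (hh r)) = NW.edg r.1 ∪ bE c (hh r) := by
    intro r hr
    have h1 := (hbf r hr).edgON
    rw [(hpl r hr).2.1] at h1
    exact h1
  have hOFF : ∀ r, zdE (OFF c (hh r)) = bE c (hh r) := fun r => rfl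
  -- the zones
  set Cv : Finset (Sym2 V) := M.biUnion (fun T => NW.edg T.1) with hCv
  set Us : Finset (Sym2 V) := (Lo E₂ M).biUnion (fun e => NW.edg (ch e).1 \ E₂) with hUs
  have hCvE : Cv ⊆ E₂ := biUnion_subset.2 fun T hT => (mem_filter.1 (hC.M_sub hT)).2
  have hLoE : Lo E₂ M ⊆ E₂ := sdiff_subset
  have hUsX : Us ⊆ X := biUnion_subset.2 fun e he =>
    (mem_filter.1 (hC.ch_mem e he).1).2.2
  have hLrX : Lr E₂ X M ch ⊆ X := sdiff_subset
  have hAX : Disjoint A X := by
    rw [disjoint_left]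
    intro e he hx
    exact (mem_sdiff.1 (hA.A_sub he)).2 hx
  have hXA : ∀ e, e ∈ E₂ → e ∉ X ∪ A := fun e he =>
    (mem_sdiff.1 (mem_sdiff.1 he).1).2
  have hE2b : Disjoint E₂ (bEs c RT hh) := sdiff_disjoint
  -- first family
  have p1 : zdPD M := hC.M_disj
  have e1 : zdE M = Cv := rfl
  -- second family
  have hch : ∀ e ∈ Lo E₂ M, NW.edg (ch e).1 = {e} ∪ (NW.edg (ch e).1 \ E₂) := by
    intro e he
    rw [← (hC.ch_mem e he).2]
    ext x
    simp only [mem_union, mem_inter, mem_sdiff]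
    tauto
  have p2 : zdPD ((Lo E₂ M).image ch) := by
    intro T hT T' hT' hne
    obtain ⟨e, he, rfl⟩ := mem_image.1 hT
    obtain ⟨e', he', rfl⟩ := mem_image.1 hT'
    have hee : e ≠ e' := fun h => hne (by rw [h])
    rw [hch e he, hch e' he']
    refine disjoint_union_left.2 ⟨disjoint_union_right.2 ⟨?_, ?_⟩,
      disjoint_union_right.2 ⟨?_, hC.ch_disj e he e' he' hee⟩⟩
    · exact disjoint_singleton.2 hee
    · rw [disjoint_singleton_left]
      exact fun h => (mem_sdiff.1 h).2 (hLoE he)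
    · rw [disjoint_singleton_right]
      exact fun h => (mem_sdiff.1 h).2 (hLoE he')
  have e2 : zdE ((Lo E₂ M).image ch) = Lo E₂ M ∪ Us := by
    ext x
    simp only [zdE, mem_biUnion, mem_image, mem_union, hUs]
    constructor
    · rintro ⟨T, ⟨e, he, rfl⟩, hx⟩
      rw [hch e he] at hx
      rcases mem_union.1 hx with h | h
      · rw [mem_singleton] at h
        exact Or.inl (h ▸ he)
      · exact Or.inr ⟨e, he, h⟩
    · rintro (h | ⟨e, he, h⟩)
      · refine ⟨ch x, ⟨x, h, rfl⟩, ?_⟩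
        rw [hch x h]
        exact mem_union_left _ (mem_singleton_self x)
      · exact ⟨ch e, ⟨e, he, rfl⟩, (mem_sdiff.1 h).1⟩
  -- third family
  have hr𝒯 : ∀ r ∈ 𝒯, NW.edg r.1 ⊆ A ∪ X := fun r hr => hA.root r (h𝒯 hr)
  have hdAXb : ∀ r ∈ RT, Disjoint (A ∪ X) (bE c (hh r)) := by
    intro r hr
    rw [disjoint_right]
    intro e he h
    exact (mem_sdiff.1 ((hpl r hr).2.2 he)).2 (by rwa [union_comm])
  have p3 : zdPD (𝒯.biUnion (fun r => ON c (hh r))) := by
    refine zd_biUnion _ _ (fun r hr => (hbf r (h𝒯 hr)).packON) fun r hr r' hr' hne => ?_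
    rw [hON r (h𝒯 hr), hON r' (h𝒯 hr')]
    refine disjoint_union_left.2 ⟨disjoint_union_right.2 ⟨hdis r hr r' hr' hne, ?_⟩,
      disjoint_union_right.2 ⟨?_, hB.disj r (h𝒯 hr) r' (h𝒯 hr') hne⟩⟩
    · exact disjoint_of_subset_left (hr𝒯 r hr) (hdAXb r' (h𝒯 hr'))
    · exact (disjoint_of_subset_left (hr𝒯 r' hr') (hdAXb r (h𝒯 hr))).symm
  have e3 : zdE (𝒯.biUnion (fun r => ON c (hh r))) =
      (A ∪ Lr E₂ X M ch) ∪ 𝒯.biUnion (fun r => bE c (hh r)) := by
    rw [zdE_biUnion, ← hun]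
    ext x
    simp only [mem_biUnion, mem_union]
    constructor
    · rintro ⟨r, hr, hx⟩
      rw [hON r (h𝒯 hr)] at hx
      rcases mem_union.1 hx with h | h
      · exact Or.inl ⟨r, hr, h⟩
      · exact Or.inr ⟨r, hr, h⟩
    · rintro (⟨r, hr, h⟩ | ⟨r, hr, h⟩)
      · exact ⟨r, hr, by rw [hON r (h𝒯 hr)]; exact mem_union_left _ h⟩
      · exact ⟨r, hr, by rw [hON r (h𝒯 hr)]; exact mem_union_right _ h⟩
  -- fourth family
  have p4 : zdPD ((RT \ 𝒯).biUnion (fun r => OFF c (hh r))) := by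
    refine zd_biUnion _ _ (fun r hr => (hbf r (mem_sdiff.1 hr).1).packOFF)
      fun r hr r' hr' hne => ?_
    exact hB.disj r (mem_sdiff.1 hr).1 r' (mem_sdiff.1 hr').1 hne
  have e4 : zdE ((RT \ 𝒯).biUnion (fun r => OFF c (hh r))) =
      (RT \ 𝒯).biUnion (fun r => bE c (hh r)) := by
    rw [zdE_biUnion]
    rfl
  have hb3 : 𝒯.biUnion (fun r => bE c (hh r)) ⊆ bEs c RT hh :=
    biUnion_subset.2 fun r hr => hbE r (h𝒯 hr)
  have hb4 : (RT \ 𝒯).biUnion (fun r => bE c (hh r)) ⊆ bEs c RT hh :=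
    biUnion_subset.2 fun r hr => hbE r (mem_sdiff.1 hr).1
  have hbAX : ∀ e ∈ bEs c RT hh, e ∉ X ∪ A := fun e he => (mem_sdiff.1 (hbEs he)).2
  have hb34 : Disjoint (𝒯.biUnion (fun r => bE c (hh r)))
      ((RT \ 𝒯).biUnion (fun r => bE c (hh r))) := by
    rw [disjoint_left]
    intro e he he'
    obtain ⟨r, hr, h⟩ := mem_biUnion.1 he
    obtain ⟨r', hr', h'⟩ := mem_biUnion.1 he'
    have hne : r ≠ r' := fun h => (mem_sdiff.1 hr').2 (h ▸ hr)
    exact disjoint_left.1 (hB.disj r (h𝒯 hr) r' (mem_sdiff.1 hr').1 hne) h h'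
  have hfin : finT c E₂ RT hh 𝒯 M ch = (M ∪ (Lo E₂ M).image ch) ∪
      (𝒯.biUnion (fun r => ON c (hh r)) ∪ (RT \ 𝒯).biUnion (fun r => OFF c (hh r))) := rfl
  have hUL : Disjoint Us (Lr E₂ X M ch) := disjoint_sdiff
  refine ⟨?_, ?_⟩
  · rw [hfin]
    refine zd_union (zd_union p1 p2 ?_) (zd_union p3 p4 ?_) ?_
    · rw [e1, e2]
      refine disjoint_union_right.2 ⟨disjoint_sdiff, ?_⟩
      rw [disjoint_left]
      intro e he he'
      exact hXA e (hCvE he) (mem_union_left _ (hUsX he'))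
    · rw [e3, e4]
      refine disjoint_union_left.2 ⟨?_, hb34⟩
      rw [disjoint_left]
      intro e he he'
      refine hbAX e (hb4 he') ?_
      rcases mem_union.1 he with h | h
      · exact mem_union_right _ h
      · exact mem_union_left _ (hLrX h)
    · rw [zdE_union, zdE_union, e1, e2, e3, e4, disjoint_left]
      intro e he he'
      have k1 : e ∈ E₂ ∨ e ∈ Us := by
        rcases mem_union.1 he with h | h
        · exact Or.inl (hCvE h)
        · rcases mem_union.1 h with h | h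
          · exact Or.inl (hLoE h)
          · exact Or.inr h
      have k2 : e ∈ A ∨ e ∈ Lr E₂ X M ch ∨ e ∈ bEs c RT hh := by
        rcases mem_union.1 he' with h | h
        · rcases mem_union.1 h with h | h
          · rcases mem_union.1 h with h | h
            · exact Or.inl h
            · exact Or.inr (Or.inl h)
          · exact Or.inr (Or.inr (hb3 h))
        · exact Or.inr (Or.inr (hb4 h))
      rcases k1 with k1 | k1
      · rcases k2 with k2 | k2 | k2
        · exact hXA e k1 (mem_union_right _ k2)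
        · exact hXA e k1 (mem_union_left _ (hLrX k2))
        · exact disjoint_left.1 hE2b k1 k2
      · rcases k2 with k2 | k2 | k2
        · exact disjoint_left.1 hAX k2 (hUsX k1)
        · exact disjoint_left.1 hUL k1 k2
        · exact hbAX e k2 (mem_union_left _ (hUsX k1))
  · change zdE (finT c E₂ RT hh 𝒯 M ch) = E
    rw [hfin, zdE_union, zdE_union, zdE_union, e1, e2, e3, e4]
    have hAE : A ⊆ E := hA.A_sub.trans sdiff_subset
    ext e
    simp only [mem_union]
    constructor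
    · rintro ((h | h | h) | (((h | h) | h) | h))
      · exact (mem_sdiff.1 (mem_sdiff.1 (hCvE h)).1).1
      · exact (mem_sdiff.1 (mem_sdiff.1 (hLoE h)).1).1
      · exact hA.X_sub (hUsX h)
      · exact hAE h
      · exact hA.X_sub (hLrX h)
      · exact (mem_sdiff.1 (hbEs (hb3 h))).1
      · exact (mem_sdiff.1 (hbEs (hb4 h))).1
    · intro he
      by_cases hx : e ∈ X
      · by_cases hu : e ∈ Us
        · exact Or.inl (Or.inr (Or.inr hu))
        · exact Or.inr (Or.inl (Or.inl (Or.inr (mem_sdiff.2 ⟨hx, hu⟩))))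
      · by_cases ha : e ∈ A
        · exact Or.inr (Or.inl (Or.inl (Or.inl ha)))
        · by_cases hb : e ∈ bEs c RT hh
          · obtain ⟨r, hr, hre⟩ := mem_biUnion.1 hb
            by_cases hr' : r ∈ 𝒯
            · exact Or.inr (Or.inl (Or.inr (mem_biUnion.2 ⟨r, hr', hre⟩)))
            · exact Or.inr (Or.inr (mem_biUnion.2 ⟨r, mem_sdiff.2 ⟨hr, hr'⟩, hre⟩))
          · have h2 : e ∈ E₂ := mem_sdiff.2 ⟨mem_sdiff.2 ⟨he, fun h => by
              rcases mem_union.1 h with h | h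
              · exact hx h
              · exact ha h⟩, hb⟩
            by_cases hcv : e ∈ Cv
            · exact Or.inl (Or.inl hcv)
            · exact Or.inl (Or.inr (Or.inl (mem_sdiff.2 ⟨h2, hcv⟩)))

/-- as `F2.FreeStatement` -/
theorem fg_free (ht : TemplateStatement) :
    ∀ (c J : ℕ), 6 ≤ c → Even c → ∀ (V : Type) [Fintype V] [DecidableEq V]
    (E A X : Finset (Sym2 V)) (RT : Finset (Tri V)) (hh : Tri V → (Fin (c + 2) → V))
    (M 𝒯 : Finset (Tri V)) (ch : Sym2 V → Tri V), NW.NL E → AbsW E A X RT →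
    Boo c J E A X RT hh → Cov c J (Er c E A X RT hh) X RT hh M ch → 𝒯 ⊆ RT →
    (∀ T ∈ finT c (Er c E A X RT hh) RT hh 𝒯 M ch,
      ∀ T' ∈ finT c (Er c E A X RT hh) RT hh 𝒯 M ch, T ≠ T' →
        Disjoint (NW.edg T.1) (NW.edg T'.1)) →
    ∀ D ∈ (triSys V J).conf, ¬ D ⊆ finT c (Er c E A X RT hh) RT hh 𝒯 M ch := by
  classical
  intro c J hc6 hce V _ _ E A X RT hh M 𝒯 ch hE hA hB hC hsub hdis D hD hDF
  have hfacts : ∀ r ∈ RT, BoostFacts c (hh r) := fun r hr => by
    have h1 := hB.mem r hr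
    unfold Pl at h1
    exact ht c hc6 hce V (hh r) (mem_filter.mp h1).2.1
  have hON : ∀ r ∈ 𝒯, ∀ T ∈ ON c (hh r), T ∈ finT c (Er c E A X RT hh) RT hh 𝒯 M ch := by
    intro r hr T hT
    unfold finT
    exact mem_union_right _ (mem_union_left _ (mem_biUnion.mpr ⟨r, hr, hT⟩))
  have hOFF : ∀ r ∈ RT, r ∉ 𝒯 → ∀ T ∈ OFF c (hh r),
      T ∈ finT c (Er c E A X RT hh) RT hh 𝒯 M ch := by
    intro r hr hr' T hT
    unfold finT
    exact mem_union_right _ (mem_union_right _
      (mem_biUnion.mpr ⟨r, mem_sdiff.mpr ⟨hr, hr'⟩, hT⟩))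
  have hsame : ∀ T ∈ finT c (Er c E A X RT hh) RT hh 𝒯 M ch,
      ∀ T' ∈ finT c (Er c E A X RT hh) RT hh 𝒯 M ch, ∀ e, e ∈ NW.edg T.1 → e ∈ NW.edg T'.1 →
        T = T' := by
    intro T hT T' hT' e he he'
    by_contra hne
    exact disjoint_left.mp (hdis T hT T' hT' hne) he he'
  -- the configuration is consistent
  have hcons : Cons c RT hh D := by
    intro r hr
    have hf := hfacts r hr
    by_cases hr' : r ∈ 𝒯
    · left
      intro T hT
      rw [mem_inter] at hT
      obtain ⟨e, he, heb⟩ := hf.face_bE T hT.2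
      have h1 : e ∈ (ON c (hh r)).biUnion (fun T => NW.edg T.1) := by
        rw [hf.edgON]
        exact mem_union_right _ heb
      obtain ⟨T', hT', he'⟩ := mem_biUnion.mp h1
      have h2 := hsame T (hDF hT.1) T' (hON r hr' T' hT') e he he'
      rw [h2]
      exact hT'
    · right
      intro T hT
      rw [mem_inter] at hT
      obtain ⟨e, he, heb⟩ := hf.face_bE T hT.2
      unfold bE at heb
      obtain ⟨T', hT', he'⟩ := mem_biUnion.mp heb
      have h2 := hsame T (hDF hT.1) T' (hOFF r hr hr' T' hT') e he he'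
      rw [h2]
      exact hT'
  have hclean := hB.clean D hD hcons
  -- the residual configuration
  have hU : D \ allB c RT hh ⊆ M ∪ (Lo (Er c E A X RT hh) M).image ch := by
    intro T hT
    rw [mem_sdiff] at hT
    have h1 := hDF hT.1
    unfold finT at h1
    rcases mem_union.mp h1 with h1 | h1
    · exact h1
    rcases mem_union.mp h1 with h1 | h1
    · exfalso
      obtain ⟨r, hr, hr'⟩ := mem_biUnion.mp h1
      apply hT.2
      unfold allB
      exact mem_biUnion.mpr ⟨r, hsub hr, mem_union_left _ hr'⟩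
    · exfalso
      obtain ⟨r, hr, hr'⟩ := mem_biUnion.mp h1
      apply hT.2
      unfold allB
      exact mem_biUnion.mpr ⟨r, (mem_sdiff.mp hr).1, mem_union_right _ hr'⟩
  have hUR : D \ allB c RT hh ⊆
      triR (Er c E A X RT hh) ∪ triV (Er c E A X RT hh) X := by
    intro T hT
    rcases mem_union.mp (hU hT) with h1 | h1
    · exact mem_union_left _ (hC.M_sub h1)
    · obtain ⟨e, he, rfl⟩ := mem_image.mp h1
      exact mem_union_right _ (hC.ch_mem e he).1
  refine hC.free (D \ allB c RT hh) ?_ hU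
  unfold rconf
  rw [mem_filter, mem_image]
  refine ⟨⟨D, mem_filter.mpr ⟨hD, hcons⟩, ?_⟩, ?_, hUR⟩
  · congr!
  · rw [nonempty_iff_ne_empty]
    intro h1
    exact hclean (sdiff_eq_empty_iff_subset.mp h1)

/-- the triangles outside the absorber, all boosters off -/
theorem fg_pack (ht : TemplateStatement) (c J : ℕ) (hc : 6 ≤ c) (hce : Even c) (V : Type)
    [Fintype V] [DecidableEq V] (E A X : Finset (Sym2 V)) (RT : Finset (Tri V))
    (hh : Tri V → (Fin (c + 2) → V)) (M : Finset (Tri V)) (ch : Sym2 V → Tri V)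
    (hA : AbsW E A X RT) (hB : Boo c J E A X RT hh)
    (hC : Cov c J (Er c E A X RT hh) X RT hh M ch) :
    zdPD ((M ∪ (Lo (Er c E A X RT hh) M).image ch) ∪ RT.biUnion (fun r => OFF c (hh r))) ∧
    zdE ((M ∪ (Lo (Er c E A X RT hh) M).image ch) ∪ RT.biUnion (fun r => OFF c (hh r))) =
      E \ (A ∪ Lr (Er c E A X RT hh) X M ch) ∧
    A ∪ Lr (Er c E A X RT hh) X M ch ⊆ E := by
  set E₂ := Er c E A X RT hh with hE₂
  have hpl : ∀ r ∈ RT, Function.Injective (hh r) ∧ rt c (hh r) = r.1 ∧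
      bE c (hh r) ⊆ E \ (X ∪ A) := fun r hr => (mem_filter.1 (hB.mem r hr)).2
  have hbf : ∀ r ∈ RT, BoostFacts c (hh r) := fun r hr => ht c hc hce V (hh r) (hpl r hr).1
  have hbEs : bEs c RT hh ⊆ E \ (X ∪ A) := biUnion_subset.2 fun r hr => (hpl r hr).2.2
  -- the zones
  set Cv : Finset (Sym2 V) := M.biUnion (fun T => NW.edg T.1) with hCv
  set Us : Finset (Sym2 V) := (Lo E₂ M).biUnion (fun e => NW.edg (ch e).1 \ E₂) with hUs
  have hCvE : Cv ⊆ E₂ := biUnion_subset.2 fun T hT => (mem_filter.1 (hC.M_sub hT)).2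
  have hLoE : Lo E₂ M ⊆ E₂ := sdiff_subset
  have hUsX : Us ⊆ X := biUnion_subset.2 fun e he =>
    (mem_filter.1 (hC.ch_mem e he).1).2.2
  have hLrX : Lr E₂ X M ch ⊆ X := sdiff_subset
  have hAX : Disjoint A X := by
    rw [disjoint_left]
    intro e he hx
    exact (mem_sdiff.1 (hA.A_sub he)).2 hx
  have hXA : ∀ e, e ∈ E₂ → e ∉ X ∪ A := fun e he =>
    (mem_sdiff.1 (mem_sdiff.1 he).1).2
  have hE2b : Disjoint E₂ (bEs c RT hh) := sdiff_disjoint
  have hAE : A ⊆ E := hA.A_sub.trans sdiff_subset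
  -- first family
  have p1 : zdPD M := hC.M_disj
  have e1 : zdE M = Cv := rfl
  -- second family
  have hch : ∀ e ∈ Lo E₂ M, NW.edg (ch e).1 = {e} ∪ (NW.edg (ch e).1 \ E₂) := by
    intro e he
    rw [← (hC.ch_mem e he).2]
    ext x
    simp only [mem_union, mem_inter, mem_sdiff]
    tauto
  have p2 : zdPD ((Lo E₂ M).image ch) := by
    intro T hT T' hT' hne
    obtain ⟨e, he, rfl⟩ := mem_image.1 hT
    obtain ⟨e', he', rfl⟩ := mem_image.1 hT'
    have hee : e ≠ e' := fun h => hne (by rw [h])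
    rw [hch e he, hch e' he']
    refine disjoint_union_left.2 ⟨disjoint_union_right.2 ⟨?_, ?_⟩,
      disjoint_union_right.2 ⟨?_, hC.ch_disj e he e' he' hee⟩⟩
    · exact disjoint_singleton.2 hee
    · rw [disjoint_singleton_left]
      exact fun h => (mem_sdiff.1 h).2 (hLoE he)
    · rw [disjoint_singleton_right]
      exact fun h => (mem_sdiff.1 h).2 (hLoE he')
  have e2 : zdE ((Lo E₂ M).image ch) = Lo E₂ M ∪ Us := by
    ext x
    simp only [zdE, mem_biUnion, mem_image, mem_union, hUs]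
    constructor
    · rintro ⟨T, ⟨e, he, rfl⟩, hx⟩
      rw [hch e he] at hx
      rcases mem_union.1 hx with h | h
      · rw [mem_singleton] at h
        exact Or.inl (h ▸ he)
      · exact Or.inr ⟨e, he, h⟩
    · rintro (h | ⟨e, he, h⟩)
      · refine ⟨ch x, ⟨x, h, rfl⟩, ?_⟩
        rw [hch x h]
        exact mem_union_left _ (mem_singleton_self x)
      · exact ⟨ch e, ⟨e, he, rfl⟩, (mem_sdiff.1 h).1⟩
  -- third family
  have p4 : zdPD (RT.biUnion (fun r => OFF c (hh r))) :=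
    zd_biUnion _ _ (fun r hr => (hbf r hr).packOFF) fun r hr r' hr' hne =>
      hB.disj r hr r' hr' hne
  have e4 : zdE (RT.biUnion (fun r => OFF c (hh r))) = bEs c RT hh := by
    rw [zdE_biUnion]
    rfl
  have hbAX : ∀ e ∈ bEs c RT hh, e ∉ X ∪ A := fun e he => (mem_sdiff.1 (hbEs he)).2
  refine ⟨zd_union (zd_union p1 p2 ?_) p4 ?_, ?_, union_subset hAE (hLrX.trans hA.X_sub)⟩
  · rw [e1, e2]
    refine disjoint_union_right.2 ⟨disjoint_sdiff, ?_⟩
    rw [disjoint_left]
    intro e he he'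
    exact hXA e (hCvE he) (mem_union_left _ (hUsX he'))
  · rw [zdE_union, e1, e2, e4, disjoint_left]
    intro e he he'
    rcases mem_union.1 he with h | h
    · exact disjoint_left.1 hE2b (hCvE h) he'
    · rcases mem_union.1 h with h | h
      · exact disjoint_left.1 hE2b (hLoE h) he'
      · exact hbAX e he' (mem_union_left _ (hUsX h))
  · rw [zdE_union, zdE_union, e1, e2, e4]
    ext e
    rw [mem_sdiff, mem_union, mem_union, mem_union, mem_union]
    constructor
    · rintro ((h | h | h) | h)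
      · refine ⟨(mem_sdiff.1 (mem_sdiff.1 (hCvE h)).1).1, fun h2 => ?_⟩
        rcases h2 with h2 | h2
        · exact hXA e (hCvE h) (mem_union_right _ h2)
        · exact hXA e (hCvE h) (mem_union_left _ (hLrX h2))
      · refine ⟨(mem_sdiff.1 (mem_sdiff.1 (hLoE h)).1).1, fun h2 => ?_⟩
        rcases h2 with h2 | h2
        · exact hXA e (hLoE h) (mem_union_right _ h2)
        · exact hXA e (hLoE h) (mem_union_left _ (hLrX h2))
      · refine ⟨hA.X_sub (hUsX h), fun h2 => ?_⟩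
        rcases h2 with h2 | h2
        · exact disjoint_left.1 hAX h2 (hUsX h)
        · exact (mem_sdiff.1 h2).2 h
      · refine ⟨(mem_sdiff.1 (hbEs h)).1, fun h2 => ?_⟩
        rcases h2 with h2 | h2
        · exact hbAX e h (mem_union_right _ h2)
        · exact hbAX e h (mem_union_left _ (hLrX h2))
    · rintro ⟨he, hn⟩
      by_cases hx : e ∈ X
      · by_cases hu : e ∈ Us
        · exact Or.inl (Or.inr (Or.inr hu))
        · exact absurd (Or.inr (mem_sdiff.2 ⟨hx, hu⟩)) hn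
      · by_cases ha : e ∈ A
        · exact absurd (Or.inl ha) hn
        · by_cases hb : e ∈ bEs c RT hh
          · exact Or.inr hb
          · have h2 : e ∈ E₂ := mem_sdiff.2 ⟨mem_sdiff.2 ⟨he, fun h => by
              rcases mem_union.1 h with h | h
              · exact hx h
              · exact ha h⟩, hb⟩
            by_cases hcv : e ∈ Cv
            · exact Or.inl (Or.inl hcv)
            · exact Or.inl (Or.inr (Or.inl (mem_sdiff.2 ⟨h2, hcv⟩)))

/-- row GE8 -/
theorem finG (ht : F2.TemplateStatement) (hg : F1.GirthStatement) : FinG := by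
  intro c J hc6 hce V _ _ al E A X RT hh M ch hE hX hAX hroot habs hB hOFF hC hM hch
  have hA : AbsW E A X RT := ⟨hX, hAX, hroot⟩
  obtain ⟨hp1, hp2, hp3⟩ := fg_pack ht c J hc6 hce V E A X RT hh M ch hA hB hC
  have hdec : DecA al (E \ (A ∪ Lr (Er c E A X RT hh) X M ch)) := by
    refine ⟨_, ?_, hp1, hp2⟩
    intro T hT
    rcases mem_union.1 hT with hT | hT
    · rcases mem_union.1 hT with hT | hT
      · exact hM T hT
      · obtain ⟨e, he, rfl⟩ := mem_image.1 hT
        exact hch e he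
    · obtain ⟨r, hr, hT⟩ := mem_biUnion.1 hT
      exact hOFF r hr T hT
  have hdiv : NW.Divis (A ∪ Lr (Er c E A X RT hh) X M ch) := by
    have h1 : NW.Dec (E \ (A ∪ Lr (Er c E A X RT hh) X M ch)) := by
      rw [← hp2]
      exact NW.Dec.biUnion _ (fun T : Tri V => NW.edg T.1) (fun T _ => NW.dec_edg T.2) hp1
    have h2 := hE.sdiff h1.divis sdiff_subset
    rwa [Finset.sdiff_sdiff_eq_self hp3] at h2
  obtain ⟨𝒯, hsub, hdis, huni⟩ := habs _ sdiff_subset hdiv hdec
  obtain ⟨hd1, hd2⟩ := fg_dec ht c J hc6 hce V E A X RT hh M 𝒯 ch hE.1 hA hB hC hsub hdis huni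
  have hfree := fg_free ht c J hc6 hce V E A X RT hh M 𝒯 ch hE.1 hA hB hC hsub hd1
  have hgir := hg V J (finT c (Er c E A X RT hh) RT hh 𝒯 M ch) hd1 hfree
  generalize finT c (Er c E A X RT hh) RT hh 𝒯 M ch = F at hd1 hd2 hgir
  refine ⟨F.image (fun T => T.1), ⟨?_, ?_⟩, ?_, ?_⟩
  · intro t ht
    obtain ⟨T, hT, rfl⟩ := mem_image.1 ht
    refine ⟨T.2, ?_⟩
    rw [← hd2]
    exact subset_biUnion_of_mem (fun T : Tri V => NW.edg T.1) hT
  · intro t ht t' ht' hne
    obtain ⟨T, hT, rfl⟩ := mem_image.1 ht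
    obtain ⟨T', hT', rfl⟩ := mem_image.1 ht'
    exact hd1 T hT T' hT' (fun h => hne (by rw [h]))
  · rw [image_biUnion]
    exact hd2
  · intro U hU1 hU2
    have h4 := hgir U hU1 hU2
    have h5 : ((F.image (fun T => T.1)).filter (fun t => t ⊆ U)).card =
        (F.filter (fun T => T.1 ⊆ U)).card := by
      rw [filter_image, card_image_of_injective _ (fun T T' h => Subtype.ext h)]
    rw [h5]
    exact h4

end F3.GE
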