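import Pool.Agent.F3.GE.Defs
import Pool.Agent.F2.Z.Good
import Pool.Agent.F2.Z.Hyp
import Pool.Agent.NW.NibbleOfLin

/-!
# Project F3, row GE6: the system of allowed triples is good; the hypotheses of the nibble
-/

set_option autoImplicit false
set_option linter.unusedSectionVars false

namespace F3.GE

open Finset NW F1 F2
open Pool.Agent.F2 (HH GG Spread)

section Mono

variable {V : Type} [Fintype V] [DecidableEq V]

theorem hyp_rconf_mono {c J : ℕ} {RT : Finset (Tri V)} {hh : Tri V → (Fin (c + 2) → V)}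
    {R R' : Finset (Tri V)} (h : R ⊆ R') : rconf c J RT hh R ⊆ rconf c J RT hh R' := by
  classical
  intro U hU
  unfold rconf at hU ⊢
  rw [mem_filter] at hU ⊢
  exact ⟨hU.1, hU.2.1, hU.2.2.trans h⟩

theorem hyp_disjRV {E X : Finset (Sym2 V)} {T : Tri V} (h : T ∈ triR E) (h' : T ∈ triV E X) :
    False := by
  have h1 : NW.edg T.1 ⊆ E := (mem_filter.1 h).2
  have h2 : (NW.edg T.1 ∩ E).card = 1 := (mem_filter.1 h').2.1
  rw [inter_eq_left.2 h1, NW.card_edg_three T.2] at h2
  omega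

/-- row GE6, first part -/
theorem syG_good (c J : ℕ) (V : Type) [Fintype V] [DecidableEq V] (RT : Finset (Tri V))
    (hh : Tri V → (Fin (c + 2) → V)) (E X : Finset (Sym2 V)) (RR VV : Finset (Tri V))
    (hR : RR ⊆ triR E) (hV : VV ⊆ triV E X) : (syG c J RT hh E RR VV).Good J := by
  classical
  have hconf : ∀ U ∈ (syG c J RT hh E RR VV).conf, U.Nonempty ∧ U ⊆ RR ∪ VV ∧
      ∃ D ∈ (triSys V J).conf, U ⊆ D := by
    intro U hU
    change U ∈ rconf c J RT hh (RR ∪ VV) at hU
    unfold rconf at hU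
    rw [mem_filter, mem_image] at hU
    obtain ⟨⟨D, hD, rfl⟩, h1, h2⟩ := hU
    rw [mem_filter] at hD
    exact ⟨h1, h2, D, hD.1, sdiff_subset⟩
  refine ⟨?_, ?_, ?_, ?_, ?_, ?_, ?_, ?_⟩
  · intro T hT
    have h1 : NW.edg T.1 ⊆ E := (mem_filter.1 (hR hT)).2
    change (NW.edg T.1 ∩ E).card = 3
    rw [inter_eq_left.2 h1]
    exact NW.card_edg_three T.2
  · intro T hT
    exact (mem_filter.1 (hV hT)).2.1
  · rw [disjoint_left]
    intro T hT hT'
    exact hyp_disjRV (hR hT) (hV hT')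
  · intro T _ T' _ hne
    have h1 : ((syG c J RT hh E RR VV).ed T ∩ (syG c J RT hh E RR VV).ed T') ⊆
        NW.edg T.1 ∩ NW.edg T'.1 :=
      inter_subset_inter inter_subset_left inter_subset_left
    exact (card_le_card h1).trans (NW.edg_lin T.2 T'.2 (fun h' => hne (Subtype.ext h')))
  · intro U hU
    exact (hconf U hU).2.1
  · intro U hU
    exact (hconf U hU).1
  · intro U hU
    obtain ⟨-, -, D, hD, hUD⟩ := hconf U hU
    exact (card_le_card hUD).trans (TriGood.conf_iff.1 hD).2.1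
  · intro U hU T hT T' hT' hne
    obtain ⟨-, -, D, hD, hUD⟩ := hconf U hU
    have h1 := (TriGood.conf_iff.1 hD).2.2.1 T (hUD hT) T' (hUD hT') hne
    exact h1.mono inter_subset_left inter_subset_left

variable {c J : ℕ} {RT : Finset (Tri V)} {hh : Tri V → (Fin (c + 2) → V)}
  {E X : Finset (Sym2 V)} {RR VV : Finset (Tri V)}

theorem hyp_conf_sub (hR : RR ⊆ triR E) (hV : VV ⊆ triV E X) :
    (syG c J RT hh E RR VV).conf ⊆ (syT c J RT hh E X).conf :=
  hyp_rconf_mono (union_subset_union hR hV)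

theorem hyp_y0_mono (hR : RR ⊆ triR E) (hV : VV ⊆ triV E X) {X0 X1 : Tri V → ℝ}
    (h0 : ∀ T, 0 ≤ X0 T) (h : ∀ T, X0 T ≤ X1 T) {ν : ℝ} (hν : 0 ≤ ν) (T : Tri V) :
    (syG c J RT hh E RR VV).y0 X0 ν T ≤ (syT c J RT hh E X).y0 X1 ν T := by
  unfold Sy.y0
  change (if T ∈ RR then 2 * X0 T else if T ∈ VV then ν else 0) ≤
    (if T ∈ triR E then 2 * X1 T else if T ∈ triV E X then ν else 0)
  have h1 := h0 T
  have h2 := h T
  by_cases hr : T ∈ RR
  · rw [if_pos hr, if_pos (hR hr)]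
    linarith
  · rw [if_neg hr]
    by_cases hv : T ∈ VV
    · rw [if_pos hv, if_neg (fun h' => hyp_disjRV h' (hV hv)), if_pos (hV hv)]
    · rw [if_neg hv]
      split_ifs
      · linarith
      · exact hν
      · exact le_rfl

theorem hyp_y0_nonneg' {X0 : Tri V → ℝ} (h0 : ∀ T, 0 ≤ X0 T) {ν : ℝ} (hν : 0 ≤ ν) (T : Tri V) :
    0 ≤ (syG c J RT hh E RR VV).y0 X0 ν T := by
  unfold Sy.y0
  split_ifs
  · linarith [h0 T]
  · exact hν
  · exact le_rfl

theorem hyp_fA (hR : RR ⊆ triR E) (hV : VV ⊆ triV E X) (T T' : Tri V) :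
    (syG c J RT hh E RR VV).fA T T' ⊆ (syT c J RT hh E X).fA T T' := by
  classical
  unfold Sy.fA
  exact image_subset_image (filter_subset_filter _ (hyp_conf_sub hR hV))

theorem hyp_fA' (hR : RR ⊆ triR E) (hV : VV ⊆ triV E X) (T T' : Tri V) :
    (syG c J RT hh E RR VV).fA' T T' ⊆ (syT c J RT hh E X).fA' T T' := by
  classical
  unfold Sy.fA'
  exact image_subset_image (filter_subset_filter _ (hyp_conf_sub hR hV))

theorem hyp_fB (hR : RR ⊆ triR E) (hV : VV ⊆ triV E X) (T : Tri V) (e : Sym2 V) :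
    (syG c J RT hh E RR VV).fB T e ⊆ (syT c J RT hh E X).fB T e := by
  classical
  unfold Sy.fB
  exact image_subset_image (filter_subset_filter _ (hyp_conf_sub hR hV))

theorem hyp_fE (hR : RR ⊆ triR E) (hV : VV ⊆ triV E X) (T T' : Tri V) :
    (syG c J RT hh E RR VV).fE T T' ⊆ (syT c J RT hh E X).fE T T' := by
  classical
  unfold Sy.fE
  refine image_subset_image ?_
  intro p hp
  rw [mem_filter, mem_product] at hp ⊢
  obtain ⟨⟨h1, h2⟩, h3, h4, h5, h6, h7, h8, h9⟩ := hp
  exact ⟨⟨hyp_conf_sub hR hV h1, hyp_conf_sub hR hV h2⟩, h3, h4, h5, h6, h7.trans hR,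
    h8.trans hR, h9⟩

theorem hyp_fF (hR : RR ⊆ triR E) (hV : VV ⊆ triV E X) (e : Sym2 V) :
    (syG c J RT hh E RR VV).fF e ⊆ (syT c J RT hh E X).fF e := by
  classical
  unfold Sy.fF
  intro U hU
  rw [mem_filter] at hU ⊢
  obtain ⟨h1, h2, o, ho, ho'⟩ := hU
  have h3 : U ∩ VV ⊆ U ∩ triV E X := inter_subset_inter_left hV
  exact ⟨hyp_conf_sub hR hV h1, h2.trans (card_le_card h3), o, h3 ho, ho'⟩

end Mono

private theorem hyp_card_tri (V : Type) [Fintype V] [DecidableEq V] :
    (Fintype.card (Tri V) : ℝ) ≤ (Fintype.card V : ℝ) ^ 3 := by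
  have h1 : Fintype.card (Tri V) = (Fintype.card V).choose 3 := by
    rw [Fintype.card_subtype]
    have h2 : (univ.filter (fun t : Finset V => t.card = 3)) = (univ : Finset V).powersetCard 3 := by
      ext t
      simp [Finset.mem_powersetCard]
    rw [h2, Finset.card_powersetCard, Finset.card_univ]
  rw [h1]
  exact_mod_cast Nat.choose_le_pow _ _

/-- row GE6 -/
theorem hypG : HypG := by
  classical
  intro c J k s K K₂ K' θ ω hK hKK hK₂ hs V _ _ E' X RT RR VV P hh w hn hB hNL hdis hdeg hVV hRR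
    hhi hlo hw0 hw1 hwne hwsum hν hJθ hθ8
  set E₂ := E' \ bEs c RT hh with hE₂
  set VV' := vvA VV E₂ X with hVV'
  have hV' : VV' ⊆ triV E₂ X := inter_subset_right
  set S := syG c J RT hh E₂ RR VV' with hS
  set n : ℝ := (Fintype.card V : ℝ) with hndef
  have hn1 : (1 : ℝ) ≤ n := by rw [hndef]; exact_mod_cast hn
  have hn0 : 0 < n := lt_of_lt_of_le one_pos hn1
  have hs1 : (1 : ℝ) ≤ s := by exact_mod_cast hs
  have hs0 : (0 : ℝ) < s := lt_of_lt_of_le one_pos hs1
  set ν : ℝ := (s : ℝ) ^ 2 / n with hνdef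
  have hν0 : 0 < ν := by positivity
  have hNL₂ : NW.NL E₂ := fun e he => hNL e (Finset.mem_sdiff.1 he).1
  have hgood : S.Good J := syG_good c J V RT hh E₂ X RR VV' hRR hV'
  have hSR : S.R = RR := rfl
  have hSV : S.Vt = VV' := rfl
  have hSed : ∀ T : Tri V, S.ed T = NW.edg T.1 ∩ E₂ := fun _ => rfl
  have hconf : S.conf ⊆ (syT c J RT hh E₂ X).conf := hyp_conf_sub hRR hV'
  have hR : ∀ T ∈ RR, NW.edg T.1 ⊆ E₂ := fun T hT => (Finset.mem_filter.1 (hRR hT)).2
  have hwy : ∀ T, S.y0 w ν T ≤ (syT c J RT hh E₂ X).y0 (fun _ => K / n) ν T :=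
    hyp_y0_mono hRR hV' hw0 hw1 hν0.le
  have hwy0 : ∀ T, 0 ≤ S.y0 w ν T := hyp_y0_nonneg' hw0 hν0.le
  have hGG : ∀ (UU UU' : Finset (Finset (Tri V))), UU ⊆ UU' →
      GG (n ^ (-(19 / 20) : ℝ)) (S.y0 w ν) UU k ≤
      GG (n ^ (-(19 / 20) : ℝ)) ((syT c J RT hh E₂ X).y0 (fun _ => K / n) ν) UU' k :=
    fun UU UU' h => Pool.Agent.F2.GG_mono (Real.rpow_nonneg hn0.le _) le_rfl hwy0 hwy h k
  -- virtual triples through an edge of `E₂`
  have hfil2 : ∀ e ∈ E₂, VV'.filter (fun T => e ∈ NW.edg T.1) =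
      VV.filter (fun T => e ∈ NW.edg T.1) := by
    intro e he
    ext T
    rw [mem_filter, mem_filter]
    constructor
    · rintro ⟨h1, h2⟩
      exact ⟨(mem_inter.1 h1).1, h2⟩
    · rintro ⟨h1, h2⟩
      refine ⟨mem_inter.2 ⟨h1, ?_⟩, h2⟩
      obtain ⟨h3, h4⟩ := (mem_filter.1 (hVV h1)).2
      have heE : e ∈ E' := (mem_sdiff.1 he).1
      obtain ⟨f, hf⟩ := card_eq_one.1 h3
      have hef : e = f := by
        have : e ∈ NW.edg T.1 ∩ E' := mem_inter.2 ⟨h2, heE⟩
        rw [hf] at this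
        exact mem_singleton.1 this
      subst hef
      have h5 : NW.edg T.1 ∩ E₂ = {e} := by
        ext g
        rw [mem_inter, mem_singleton]
        constructor
        · rintro ⟨hg, hgE⟩
          have : g ∈ NW.edg T.1 ∩ E' := mem_inter.2 ⟨hg, (mem_sdiff.1 hgE).1⟩
          rw [hf] at this
          exact mem_singleton.1 this
        · rintro rfl
          exact ⟨h2, he⟩
      refine mem_filter.2 ⟨mem_univ _, ?_, ?_⟩
      · rw [h5]
        exact card_singleton e
      · intro g hg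
        obtain ⟨hg1, hg2⟩ := mem_sdiff.1 hg
        refine h4 (mem_sdiff.2 ⟨hg1, fun hg3 => hg2 ?_⟩)
        have : g ∈ NW.edg T.1 ∩ E' := mem_inter.2 ⟨hg1, hg3⟩
        rw [hf] at this
        rw [mem_singleton.1 this]
        exact he
  have hfil : ∀ e, S.Vt.filter (fun T => e ∈ S.ed T) ⊆ VV.filter (fun T => e ∈ NW.edg T.1) := by
    intro e T hT
    obtain ⟨h1, h2⟩ := mem_filter.1 hT
    rw [hSed] at h2
    exact mem_filter.2 ⟨(mem_inter.1 h1).1, (mem_inter.1 h2).1⟩
  refine ⟨fun T => if T ∈ VV' ∧ {T} ∉ S.conf then ν else 0, ?_⟩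
  refine
    { good := hgood
      E_lo := ?_
      E_hi := ?_
      cτ := hyp_card_tri V
      cσ := le_rfl
      ν_pos := hν0
      ν_le := hν
      X_nonneg := hw0
      X_le := fun T => (hw1 T).trans (div_le_div_of_nonneg_right hKK hn0.le)
      X_ne := ?_
      X_one := ?_
      x_nonneg := ?_
      x_le := ?_
      x_ne := ?_
      x_lo := ?_
      V_hi := ?_
      Q_sub := fun v => Finset.filter_subset _ _
      Q_card := ?_
      hY := ?_
      hF := ?_
      mA := ?_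
      mA' := ?_
      mB := ?_
      mE := ?_ }
  · -- E_lo
    have h1 := NW.sum_deg hNL₂
    have h2 : (∑ v : V, n) ≤ ∑ v : V, 2 * (NW.deg E₂ v : ℝ) :=
      Finset.sum_le_sum fun v _ => by rw [hndef]; exact_mod_cast hdeg v
    rw [← Finset.mul_sum, Finset.sum_const, Finset.card_univ, nsmul_eq_mul] at h2
    have h3 : (∑ v : V, (NW.deg E₂ v : ℝ)) = 2 * (E₂.card : ℝ) := by exact_mod_cast h1
    rw [h3] at h2
    have h4 : n * n ≤ 2 * (2 * (E₂.card : ℝ)) := h2
    nlinarith
  · -- E_hi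
    have h1 := NW.card_le_sq hNL₂
    have h2 : (2 : ℝ) * (E₂.card : ℝ) ≤ n * n := by rw [hndef]; exact_mod_cast h1
    have h3 : (0 : ℝ) ≤ (E₂.card : ℝ) := Nat.cast_nonneg _
    nlinarith
  · -- X_ne
    intro T hT
    obtain ⟨h1, h2⟩ := hwne T hT
    exact ⟨h1, Finset.inter_subset_right, fun h3 => h2 (hconf h3)⟩
  · -- X_one
    intro e he
    rw [← hwsum e he]
    refine Finset.sum_subset_zero_on_sdiff ?_ ?_ (fun _ _ => rfl)
    · intro T hT
      have h1 := (Finset.mem_filter.1 hT).2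
      rw [hSed] at h1
      exact Finset.mem_filter.2 ⟨Finset.mem_univ _, (Finset.mem_inter.1 h1).1⟩
    · intro T hT
      obtain ⟨h1, h2⟩ := Finset.mem_sdiff.1 hT
      by_contra h3
      obtain ⟨h4, -⟩ := hwne T h3
      refine h2 (Finset.mem_filter.2 ⟨h4, ?_⟩)
      rw [hSed]
      exact Finset.mem_inter.2 ⟨(Finset.mem_filter.1 h1).2, he⟩
  · intro T
    split_ifs
    · exact hν0.le
    · exact le_rfl
  · intro T
    split_ifs
    · exact le_rfl
    · exact hν0.le
  · intro T hT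
    split_ifs at hT with h
    · exact h
    · exact absurd rfl hT
  · -- x_lo
    intro e he
    have hfil3 : S.Vt.filter (fun T => e ∈ S.ed T) = VV'.filter (fun T => e ∈ NW.edg T.1) := by
      ext T
      rw [Finset.mem_filter, Finset.mem_filter, hSV, hSed, Finset.mem_inter]
      tauto
    rw [hfil3]
    set A := VV'.filter (fun T => e ∈ NW.edg T.1) with hA
    have hsum : ∑ T ∈ A, (if T ∈ VV' ∧ {T} ∉ S.conf then ν else 0) =
        ((A.filter (fun T => {T} ∉ S.conf)).card : ℝ) * ν := by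
      rw [← nsmul_eq_mul, ← Finset.sum_const]
      conv_rhs => rw [Finset.sum_filter]
      refine Finset.sum_congr rfl fun T hT => ?_
      have h1 : T ∈ VV' := (Finset.mem_filter.1 hT).1
      simp only [h1, true_and]
    rw [hsum]
    have hsplit : (A.filter (fun T => {T} ∈ S.conf)).card +
        (A.filter (fun T => {T} ∉ S.conf)).card = A.card :=
      Finset.card_filter_add_card_filter_not _
    have hsplit' : ((A.filter (fun T => {T} ∈ S.conf)).card : ℝ) +
        ((A.filter (fun T => {T} ∉ S.conf)).card : ℝ) = (A.card : ℝ) := by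
      exact_mod_cast hsplit
    have hlo' : n ≤ 4 * (s : ℝ) ^ 2 * (A.card : ℝ) := by
      have h1 := hlo e (Finset.mem_sdiff.1 he).1
      unfold dT at h1
      rw [← hfil2 e he] at h1
      rw [hndef]
      exact_mod_cast h1
    have hth : ((A.filter (fun T => {T} ∈ S.conf)).card : ℝ) * (s : ℝ) ^ 2 ≤
        n ^ (1 - θ / 2) := by
      have h1 := hB.thV e he
      have h2 : A.filter (fun T => {T} ∈ S.conf) ⊆
          VV.filter (fun T => T ∈ triV E₂ X ∧ e ∈ NW.edg T.1 ∧
            {T} ∈ (syT c J RT hh E₂ X).conf) := by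
        intro T hT
        obtain ⟨h3, h4⟩ := mem_filter.1 hT
        obtain ⟨h5, h6⟩ := mem_filter.1 h3
        exact mem_filter.2 ⟨(mem_inter.1 h5).1, (mem_inter.1 h5).2, h6, hconf h4⟩
      have h3 : ((A.filter (fun T => {T} ∈ S.conf)).card : ℝ) ≤
          ((VV.filter (fun T => T ∈ triV E₂ X ∧ e ∈ NW.edg T.1 ∧
            {T} ∈ (syT c J RT hh E₂ X).conf)).card : ℝ) := by
        exact_mod_cast card_le_card h2
      exact (mul_le_mul_of_nonneg_right h3 (by positivity)).trans h1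
    have hpow : n ^ (1 - θ / 2) = n * n ^ (-(θ / 2)) := by
      rw [sub_eq_add_neg, Real.rpow_add hn0, Real.rpow_one]
    have hth2 : ((A.filter (fun T => {T} ∈ S.conf)).card : ℝ) * (s : ℝ) ^ 2 ≤ n * (1 / 8) := by
      rw [hpow] at hth
      exact hth.trans (mul_le_mul_of_nonneg_left hθ8 hn0.le)
    rw [hνdef, mul_div_assoc', le_div_iff₀ hn0]
    nlinarith
  · -- V_hi
    intro e
    by_cases he : e ∈ E₂
    · have heE : e ∈ E' := (Finset.mem_sdiff.1 he).1
      have h1 : ((S.Vt.filter (fun T => e ∈ S.ed T)).card : ℝ) ≤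
          ((VV.filter (fun T => e ∈ NW.edg T.1)).card : ℝ) := by
        exact_mod_cast Finset.card_le_card (hfil e)
      have h2 : ((VV.filter (fun T => e ∈ NW.edg T.1)).card : ℝ) * (s : ℝ) ^ 2 ≤ 4 * n := by
        rw [hndef]
        exact_mod_cast hhi e heE
      rw [hνdef, mul_div_assoc', div_le_iff₀ hn0]
      exact (mul_le_mul_of_nonneg_right h1 (by positivity)).trans h2
    · have h1 : S.Vt.filter (fun T => e ∈ S.ed T) = ∅ := by
        rw [Finset.filter_eq_empty_iff]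
        intro T _ h2
        rw [hSed] at h2
        exact he (Finset.mem_inter.1 h2).2
      rw [h1, Finset.card_empty, Nat.cast_zero, zero_mul]
      norm_num
  · -- Q_card
    intro v
    have h1 : (E₂.filter (fun e => v ∈ e)).card = NW.deg E₂ v := NW.card_star E₂ v
    have h2 := NW.deg_le_cardV E₂ v
    show (((E₂.filter (fun e => v ∈ e)).card : ℕ) : ℝ) ≤ n
    rw [h1, hndef]
    exact_mod_cast h2
  · -- hY
    intro T hT
    have hT' : T ∈ triR E₂ ∪ triV E₂ X := union_subset_union hRR hV' hT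
    refine le_trans ?_ ((hB.hY T hT').trans hK₂)
    have hpos : (0 : ℝ) ≤ 2 * K / n := by positivity
    calc _ ≤ ∑ U ∈ S.conf.filter (fun U => T ∈ U ∧ U ≠ {T} ∧ U.erase T ⊆ S.R),
          (2 * K / n) ^ (U.card - 1) := by
          refine Finset.sum_le_sum fun U hU => ?_
          have h1 : T ∈ U := (Finset.mem_filter.1 hU).2.1
          rw [← Finset.card_erase_of_mem h1, ← Finset.prod_const]
          refine Finset.prod_le_prod (fun T' _ => ?_) (fun T' _ => ?_)
          · linarith [hw0 T']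
          · rw [mul_div_assoc]
            linarith [hw1 T']
      _ ≤ _ := by
          refine Finset.sum_le_sum_of_subset_of_nonneg ?_ (fun _ _ _ => pow_nonneg hpos _)
          intro U hU
          obtain ⟨h1, h2, h3, h4⟩ := mem_filter.1 hU
          exact mem_filter.2 ⟨hconf h1, h2, h3, h4.trans hRR⟩
  · -- hF
    intro e he
    refine le_trans ?_ ((hB.hF e he).trans hJθ)
    calc _ ≤ ∑ U ∈ S.fF e, ∏ T ∈ U, (syT c J RT hh E₂ X).y0 (fun _ => K / n) ν T :=
          Finset.sum_le_sum fun U _ =>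
            Finset.prod_le_prod (fun T _ => hwy0 T) (fun T _ => hwy T)
      _ ≤ _ := Finset.sum_le_sum_of_subset_of_nonneg (hyp_fF hRR hV' e) (fun U _ _ =>
          Finset.prod_nonneg fun T _ => (hwy0 T).trans (hwy T))
  · intro T T' h
    exact (hGG _ _ (hyp_fA hRR hV' T T')).trans (hB.mA T T' h)
  · intro T T' h
    exact (hGG _ _ (hyp_fA' hRR hV' T T')).trans (hB.mA' T T' h)
  · intro T hT e he h
    refine (hGG _ _ (hyp_fB hRR hV' T e)).trans (hB.mB T e he fun h1 => h ?_)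
    rw [hSed]
    exact Finset.mem_inter.2 ⟨h1, he⟩
  · intro T hT T' hT' h
    exact (hGG _ _ (hyp_fE hRR hV' T T')).trans (hB.mE T T' h)

end F3.GE
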