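import Pool.Agent.F3.GE.Defs

/-!
# Project F3 (MP_6a0350_co), block GE, row GE3: the numbers

Copy of `F2.num` with the two parameters `s` (rows of the reserve) and `s₁` (sparsity of the
roots, `n ^ (3 θ / 4) ≤ s₁`).
-/

set_option autoImplicit false

open Finset NW F1 F2

namespace F3.GE

private theorem ge3_pow {N : ℝ} (hN : 1 ≤ N) (a : ℝ) (k : ℕ) : (N ^ a) ^ k = N ^ (a * k) :=
  (Real.rpow_mul_natCast (by linarith) a k).symm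

private theorem ge3_le {N : ℝ} (hN : 1 ≤ N) {a b : ℝ} (h : a ≤ b) : N ^ a ≤ N ^ b :=
  Real.rpow_le_rpow_of_exponent_le hN h

/-- Constants times a negative power are small. -/
private theorem ge3_fin {N C₂ D a : ℝ} (hN : 1 ≤ N) (hC : 1 ≤ C₂) (hD : 0 ≤ D) (ha : a ≤ -1)
    (h : D * C₂ ≤ N) : D * N ^ a ≤ 1 / C₂ := by
  have h1 : N ^ a ≤ N ^ (-1 : ℝ) := ge3_le hN ha
  rw [Real.rpow_neg_one] at h1
  have hN0 : 0 < N := by linarith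
  have hC0 : 0 < C₂ := by linarith
  calc D * N ^ a ≤ D * N⁻¹ := mul_le_mul_of_nonneg_left h1 hD
    _ ≤ 1 / C₂ := by
      rw [← div_eq_mul_inv, div_le_div_iff₀ hN0 hC0]
      linarith

private theorem ge3_tend {θ : ℝ} (hθ : 0 < θ) (M : ℝ) : ∃ n₀ : ℕ, ∀ n : ℕ, n₀ ≤ n →
    M ≤ (n : ℝ) ^ θ := by
  have h := (tendsto_rpow_atTop hθ).comp tendsto_natCast_atTop_atTop
  have h2 := (h.eventually_ge_atTop M)
  obtain ⟨n₀, hn⟩ := Filter.eventually_atTop.1 h2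
  exact ⟨n₀, fun n hn' => hn n hn'⟩

section lines

variable {N S R C₂ θ : ℝ} {J k k₂ : ℕ}

private theorem ge3_sq (hS0 : 0 ≤ S) (hS : S ≤ N ^ θ) (hN : 1 ≤ N) (j : ℕ) :
    (S ^ 2) ^ j ≤ N ^ (2 * j * θ) := by
  have h1 : (S ^ 2) ^ j ≤ ((N ^ θ) ^ 2) ^ j := by gcongr
  refine h1.trans (le_of_eq ?_)
  rw [← pow_mul, ge3_pow hN]
  congr 1
  push_cast
  ring

private theorem ge3_A (hN : 1 ≤ N) (hS0 : 0 ≤ S) (hS : S ≤ N ^ θ) (hC : 1 ≤ C₂)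
    (hk : 1000 ≤ k) (hJ : 4 * J * θ ≤ 1 / 50) (hbig : (2 * C₂) ^ k * C₂ ≤ N) :
    N ^ 6 * N ^ ((9 / 10) * k : ℝ) *
      (C₂ * (S ^ 2) ^ (2 * J) / N + C₂ * N ^ (-(19 / 20) : ℝ)) ^ k ≤ 1 / C₂ := by
  have hN0 : 0 < N := by linarith
  have h1 : (S ^ 2) ^ (2 * J) / N ≤ N ^ (-(19 / 20) : ℝ) := by
    have h2 := ge3_sq hS0 hS hN (2 * J)
    have h3 : (S ^ 2) ^ (2 * J) ≤ N ^ (1 / 20 : ℝ) := by
      refine h2.trans (ge3_le hN ?_)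
      push_cast
      linarith
    rw [div_le_iff₀ hN0]
    refine h3.trans (le_of_eq ?_)
    nth_rw 3 [← Real.rpow_one N]
    rw [← Real.rpow_add hN0]
    norm_num
  have h4 : C₂ * (S ^ 2) ^ (2 * J) / N + C₂ * N ^ (-(19 / 20) : ℝ) ≤
      (2 * C₂) * N ^ (-(19 / 20) : ℝ) := by
    rw [mul_div_assoc]
    nlinarith
  have h5 : 0 ≤ C₂ * (S ^ 2) ^ (2 * J) / N + C₂ * N ^ (-(19 / 20) : ℝ) := by positivity
  have h6 := pow_le_pow_left₀ h5 h4 k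
  calc N ^ 6 * N ^ ((9 / 10) * k : ℝ) *
      (C₂ * (S ^ 2) ^ (2 * J) / N + C₂ * N ^ (-(19 / 20) : ℝ)) ^ k
      ≤ N ^ 6 * N ^ ((9 / 10) * k : ℝ) * ((2 * C₂) * N ^ (-(19 / 20) : ℝ)) ^ k := by gcongr
    _ = (2 * C₂) ^ k * N ^ (6 + (9 / 10) * k + -(19 / 20) * k : ℝ) := by
      rw [mul_pow, ge3_pow hN, Real.rpow_add hN0, Real.rpow_add hN0]
      have : N ^ (6 : ℝ) = N ^ 6 := by exact_mod_cast Real.rpow_natCast N 6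
      rw [this]
      ring
    _ ≤ 1 / C₂ := by
      refine ge3_fin hN hC (by positivity) ?_ hbig
      have : (1000 : ℝ) ≤ k := by exact_mod_cast hk
      linarith

private theorem ge3_F (hN : 1 ≤ N) (hS0 : 0 ≤ S) (hS : S ≤ N ^ θ) (hC : 1 ≤ C₂) (hθ : 0 < θ)
    (hJ1 : 1 ≤ J) (hk₂ : 12 ≤ θ * k₂) (hbig : (2 * C₂) ^ k₂ * C₂ ≤ N) :
    N ^ 2 * ((N ^ (3 * J * θ))⁻¹) ^ k₂ * (C₂ * (S ^ 2) ^ J + C₂) ^ k₂ ≤ 1 / C₂ := by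
  have hN0 : 0 < N := by linarith
  have h2 := ge3_sq hS0 hS hN J
  have h3 : (1 : ℝ) ≤ N ^ (2 * J * θ) := Real.one_le_rpow hN (by positivity)
  have h4 : C₂ * (S ^ 2) ^ J + C₂ ≤ (2 * C₂) * N ^ (2 * J * θ) := by nlinarith
  have h5 : 0 ≤ C₂ * (S ^ 2) ^ J + C₂ := by positivity
  have h6 := pow_le_pow_left₀ h5 h4 k₂
  calc N ^ 2 * ((N ^ (3 * J * θ))⁻¹) ^ k₂ * (C₂ * (S ^ 2) ^ J + C₂) ^ k₂
      ≤ N ^ 2 * ((N ^ (3 * J * θ))⁻¹) ^ k₂ * ((2 * C₂) * N ^ (2 * J * θ)) ^ k₂ := by gcongr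
    _ = (2 * C₂) ^ k₂ * N ^ (2 + -(3 * J * θ) * k₂ + (2 * J * θ) * k₂ : ℝ) := by
      rw [mul_pow, ge3_pow hN, Real.rpow_add hN0, Real.rpow_add hN0, ← Real.rpow_neg hN0.le,
        ge3_pow hN]
      have : N ^ (2 : ℝ) = N ^ 2 := by exact_mod_cast Real.rpow_natCast N 2
      rw [this]
      ring
    _ ≤ 1 / C₂ := by
      refine ge3_fin hN hC (by positivity) ?_ hbig
      have h7 : (1 : ℝ) ≤ J := by exact_mod_cast hJ1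
      nlinarith

private theorem ge3_Y (hN : 1 ≤ N) (hSi : 1 / R ≤ N ^ (-(3 / 4 * θ))) (hR0 : 0 < R)
    (hC : 1 ≤ C₂) (hθ1 : θ ≤ 1) (hk₂ : 24 ≤ θ * k₂) (hbig : (3 * C₂) ^ k₂ * C₂ ≤ N) :
    N ^ 3 * (C₂ * (1 / R + 1 / N : ℝ) + C₂ * (1 / N : ℝ)) ^ k₂ ≤ 1 / C₂ := by
  have hN0 : 0 < N := by linarith
  have h1 : 1 / N ≤ N ^ (-(3 / 4 * θ)) := by
    rw [one_div, ← Real.rpow_neg_one]
    exact ge3_le hN (by linarith)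
  have h4 : C₂ * (1 / R + 1 / N : ℝ) + C₂ * (1 / N : ℝ) ≤ (3 * C₂) * N ^ (-(3 / 4 * θ)) := by
    nlinarith
  have h5 : 0 ≤ C₂ * (1 / R + 1 / N : ℝ) + C₂ * (1 / N : ℝ) := by positivity
  have h6 := pow_le_pow_left₀ h5 h4 k₂
  calc N ^ 3 * (C₂ * (1 / R + 1 / N : ℝ) + C₂ * (1 / N : ℝ)) ^ k₂
      ≤ N ^ 3 * ((3 * C₂) * N ^ (-(3 / 4 * θ))) ^ k₂ := by gcongr
    _ = (3 * C₂) ^ k₂ * N ^ (3 + -(3 / 4 * θ) * k₂ : ℝ) := by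
      rw [mul_pow, ge3_pow hN, Real.rpow_add hN0]
      have : N ^ (3 : ℝ) = N ^ 3 := by exact_mod_cast Real.rpow_natCast N 3
      rw [this]
      ring
    _ ≤ 1 / C₂ := by
      refine ge3_fin hN hC (by positivity) ?_ hbig
      linarith

private theorem ge3_V (hN : 1 ≤ N) (hSi : 1 / R ≤ N ^ (-(3 / 4 * θ))) (hR0 : 0 < R)
    (hS0 : 0 < S) (hS : S ≤ N ^ θ)
    (hC : 1 ≤ C₂) (hθ1 : 3 * θ ≤ 1) (hθ : 0 < θ) (hk₂ : 24 ≤ θ * k₂)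
    (hbig : (4 * C₂) ^ k₂ * C₂ ≤ N) :
    N ^ 2 * ((N ^ (-(θ / 2)))⁻¹) ^ k₂ *
      (C₂ * (1 / R + 1 / N + S ^ 2 / N : ℝ) + C₂ * (S ^ 2 / N : ℝ)) ^ k₂ ≤ 1 / C₂ := by
  have hN0 : 0 < N := by linarith
  have h1 : 1 / N ≤ N ^ (-(3 / 4 * θ)) := by
    rw [one_div, ← Real.rpow_neg_one]
    exact ge3_le hN (by linarith)
  have h2 : S ^ 2 / N ≤ N ^ (-(3 / 4 * θ)) := by
    have h3 := ge3_sq hS0.le hS hN 1
    rw [pow_one] at h3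
    rw [div_le_iff₀ hN0]
    have h4 : N ^ (-(3 / 4 * θ)) * N = N ^ (-(3 / 4 * θ) + 1) := by
      rw [Real.rpow_add hN0, Real.rpow_one]
    rw [h4]
    refine h3.trans (ge3_le hN ?_)
    push_cast
    linarith
  have h4 : C₂ * (1 / R + 1 / N + S ^ 2 / N : ℝ) + C₂ * (S ^ 2 / N : ℝ) ≤
      (4 * C₂) * N ^ (-(3 / 4 * θ)) := by nlinarith
  have h5 : 0 ≤ C₂ * (1 / R + 1 / N + S ^ 2 / N : ℝ) + C₂ * (S ^ 2 / N : ℝ) := by positivity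
  have h6 := pow_le_pow_left₀ h5 h4 k₂
  calc N ^ 2 * ((N ^ (-(θ / 2)))⁻¹) ^ k₂ *
      (C₂ * (1 / R + 1 / N + S ^ 2 / N : ℝ) + C₂ * (S ^ 2 / N : ℝ)) ^ k₂
      ≤ N ^ 2 * ((N ^ (-(θ / 2)))⁻¹) ^ k₂ * ((4 * C₂) * N ^ (-(3 / 4 * θ))) ^ k₂ := by gcongr
    _ = (4 * C₂) ^ k₂ * N ^ (2 + (θ / 2) * k₂ + -(3 / 4 * θ) * k₂ : ℝ) := by
      rw [mul_pow, ge3_pow hN, Real.rpow_add hN0, Real.rpow_add hN0, ← Real.rpow_neg hN0.le,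
        ge3_pow hN, neg_neg]
      have : N ^ (2 : ℝ) = N ^ 2 := by exact_mod_cast Real.rpow_natCast N 2
      rw [this]
      ring
    _ ≤ 1 / C₂ := by
      refine ge3_fin hN hC (by positivity) ?_ hbig
      linarith

private theorem ge3_D (hN : 1 ≤ N) (hSi : 1 / R ≤ N ^ (-(3 / 4 * θ))) (hR0 : 0 < R)
    (hC : 1 ≤ C₂) (hθ1 : θ ≤ 1) (hk₂ : 24 ≤ θ * k₂)
    (hbig : (2 * C₂ ^ 2) ^ k₂ * C₂ ≤ N) :
    N * ((N ^ (1 - θ / 2) / C₂)⁻¹) ^ k₂ * (C₂ * (N / R : ℝ) + C₂) ^ k₂ ≤ 1 / C₂ := by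
  have hN0 : 0 < N := by linarith
  have hC0 : 0 < C₂ := by linarith
  have h1 : N / R ≤ N ^ (1 - 3 / 4 * θ) := by
    have h3 : N ^ (1 - 3 / 4 * θ) = N * N ^ (-(3 / 4 * θ)) := by
      rw [sub_eq_add_neg, Real.rpow_add hN0, Real.rpow_one]
    rw [h3, div_eq_mul_one_div]
    exact mul_le_mul_of_nonneg_left hSi hN0.le
  have h2 : (1 : ℝ) ≤ N ^ (1 - 3 / 4 * θ) := Real.one_le_rpow hN (by linarith)
  have h4 : C₂ * (N / R : ℝ) + C₂ ≤ (2 * C₂) * N ^ (1 - 3 / 4 * θ) := by nlinarith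
  have h5 : 0 ≤ C₂ * (N / R : ℝ) + C₂ := by positivity
  have h6 := pow_le_pow_left₀ h5 h4 k₂
  calc N * ((N ^ (1 - θ / 2) / C₂)⁻¹) ^ k₂ * (C₂ * (N / R : ℝ) + C₂) ^ k₂
      ≤ N * ((N ^ (1 - θ / 2) / C₂)⁻¹) ^ k₂ * ((2 * C₂) * N ^ (1 - 3 / 4 * θ)) ^ k₂ := by gcongr
    _ = (2 * C₂ ^ 2) ^ k₂ * N ^ (1 + -(1 - θ / 2) * k₂ + (1 - 3 / 4 * θ) * k₂ : ℝ) := by
      have e1 : (N ^ (1 - θ / 2) / C₂)⁻¹ = C₂ * N ^ (-(1 - θ / 2)) := by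
        rw [inv_div, Real.rpow_neg hN0.le, div_eq_mul_inv]
      rw [e1, mul_pow, mul_pow, mul_pow, ge3_pow hN, ge3_pow hN, Real.rpow_add hN0,
        Real.rpow_add hN0, Real.rpow_one]
      rw [mul_pow (2 : ℝ), ← pow_mul, mul_comm 2 k₂, pow_mul, sq (C₂ ^ k₂)]
      ring
    _ ≤ 1 / C₂ := by
      refine ge3_fin hN hC (by positivity) ?_ hbig
      linarith

end lines

/-- row GE3 -/
theorem numG : NumG := by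
  intro J k k₂ C₂ θ hJ hk hC hθ hJθ hk₂
  have hJ1 : (1 : ℝ) ≤ J := by exact_mod_cast hJ
  have hθs : θ ≤ 1 / 200 := by nlinarith
  have hk₂' : 24 ≤ θ * k₂ := by
    rw [div_le_iff₀ hθ] at hk₂
    linarith
  have hφ : 0 < 3 / 4 * θ := by linarith
  obtain ⟨n₁, h₁⟩ := ge3_tend hφ (3 * C₂ + 2)
  obtain ⟨n₂, h₂⟩ := ge3_tend (θ := 1) one_pos ((2 * C₂) ^ k * C₂ + (2 * C₂) ^ k₂ * C₂ +
    (3 * C₂) ^ k₂ * C₂ + (4 * C₂) ^ k₂ * C₂ + (2 * C₂ ^ 2) ^ k₂ * C₂ + 1)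
  refine ⟨max n₁ n₂, fun n hn s s₁ hs hs' hs1 hs1' => ?_⟩
  have hx := h₁ n (le_trans (le_max_left _ _) hn)
  have hb := h₂ n (le_trans (le_max_right _ _) hn)
  rw [Real.rpow_one] at hb
  have hC0 : 0 < C₂ := by linarith
  have p1 : 0 ≤ (2 * C₂) ^ k * C₂ := by positivity
  have p2 : 0 ≤ (2 * C₂) ^ k₂ * C₂ := by positivity
  have p3 : 0 ≤ (3 * C₂) ^ k₂ * C₂ := by positivity
  have p4 : 0 ≤ (4 * C₂) ^ k₂ * C₂ := by positivity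
  have p5 : 0 ≤ (2 * C₂ ^ 2) ^ k₂ * C₂ := by positivity
  have hN : (1 : ℝ) ≤ n := by linarith
  have hN0 : (0 : ℝ) < n := by linarith
  have hss : (s₁ : ℝ) ≤ s := by exact_mod_cast hs1
  have hR1 : (1 : ℝ) ≤ s₁ := by linarith
  have hR0 : (0 : ℝ) < s₁ := by linarith
  have hS1 : (1 : ℝ) ≤ s := by linarith
  have hS0 : (0 : ℝ) < s := by linarith
  have hxp : 0 < (n : ℝ) ^ (3 / 4 * θ) := by linarith
  have hinv : (n : ℝ) ^ (-(3 / 4 * θ)) = 1 / (n : ℝ) ^ (3 / 4 * θ) := by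
    rw [Real.rpow_neg hN0.le, one_div]
  have hSi : 1 / (s₁ : ℝ) ≤ (n : ℝ) ^ (-(3 / 4 * θ)) := by
    rw [hinv]
    exact one_div_le_one_div_of_le hxp hs1'
  have h1 : 1 / (n : ℝ) ≤ (n : ℝ) ^ (-(3 / 4 * θ)) := by
    rw [one_div, ← Real.rpow_neg_one]
    exact ge3_le hN (by linarith)
  have h2 : (s : ℝ) ^ 2 / n ≤ (n : ℝ) ^ (-(3 / 4 * θ)) := by
    have h3 := ge3_sq hS0.le hs hN 1
    rw [pow_one] at h3
    rw [div_le_iff₀ hN0]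
    have h4 : (n : ℝ) ^ (-(3 / 4 * θ)) * n = (n : ℝ) ^ (-(3 / 4 * θ) + 1) := by
      rw [Real.rpow_add hN0, Real.rpow_one]
    rw [h4]
    refine h3.trans (ge3_le hN ?_)
    push_cast
    linarith
  have h3 : 3 * C₂ * (n : ℝ) ^ (-(3 / 4 * θ)) ≤ 1 := by
    rw [hinv, mul_one_div, div_le_one hxp]
    linarith
  have h5 : 0 ≤ (n : ℝ) ^ (-(3 / 4 * θ)) := by positivity
  refine ⟨by exact_mod_cast hS1, by exact_mod_cast hR1, by exact_mod_cast hN, ?_, ?_, ?_, ?_, ?_,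
    ?_, ?_⟩
  · rw [mul_div_assoc]
    nlinarith
  · nlinarith
  · exact ge3_A hN hS0.le hs hC hk hJθ (by linarith)
  · exact ge3_F hN hS0.le hs hC hθ hJ (by linarith) (by linarith)
  · exact ge3_Y hN hSi hR0 hC (by linarith) hk₂' (by linarith)
  · exact ge3_V hN hSi hR0 hS0 hs hC (by linarith) hθ hk₂' (by linarith)
  · exact ge3_D hN hSi hR0 hC (by linarith) hk₂' (by linarith)

end F3.GE
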