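import Pool.Agent.F3.GE.Defs
import Pool.Agent.F2.L.Sel

/-!
# Project F3 (MP_6a0350_co), row GE4: the selection of the boosters (`SelGStatement`)

Copy of `F2/L/Sel.lean`.
-/

set_option autoImplicit false
set_option linter.unusedSectionVars false

namespace F3.GE

open Finset NW F1 F2
open Pool.Agent.F2 (HH GG Spread)
open F2.SelA

section F

variable {V : Type} [Fintype V] [DecidableEq V] {c J : ℕ}

variable (c J) in
/-- the families with their coefficients -/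
noncomputable def ge4_fam (k k₂ s : ℕ) (K θ : ℝ) (E' : Finset (Sym2 V)) (VV : Finset (Tri V)) :
    Idx V → Fam V c :=
  Sum.elim (fun p => ⟨fun _ => (2 * K + s ^ 2) / Fintype.card V,
    (Fintype.card V : ℝ) ^ (-(19 / 20) : ℝ),
    if p.1 ≠ p.2 then ((Fintype.card V : ℝ) ^ (-(9 / 10) * k : ℝ))⁻¹ else 0, k,
    LA c J p.1 p.2⟩) <|
  Sum.elim (fun p => ⟨fun _ => (2 * K + s ^ 2) / Fintype.card V,
    (Fintype.card V : ℝ) ^ (-(19 / 20) : ℝ),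
    if p.1 ≠ p.2 then ((Fintype.card V : ℝ) ^ (-(9 / 10) * k : ℝ))⁻¹ else 0, k,
    LA' c J p.1 p.2⟩) <|
  Sum.elim (fun p => ⟨fun _ => (2 * K + s ^ 2) / Fintype.card V,
    (Fintype.card V : ℝ) ^ (-(19 / 20) : ℝ),
    if p.2 ∉ NW.edg p.1.1 then ((Fintype.card V : ℝ) ^ (-(9 / 10) * k : ℝ))⁻¹ else 0, k,
    LB c J p.1 p.2⟩) <|
  Sum.elim (fun p => ⟨fun _ => (2 * K + s ^ 2) / Fintype.card V,
    (Fintype.card V : ℝ) ^ (-(19 / 20) : ℝ),
    ((Fintype.card V : ℝ) ^ (-(9 / 10) * k : ℝ))⁻¹, k, LE c J p.1 p.2⟩) <|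
  Sum.elim (fun e => ⟨fun _ => (2 * K + s ^ 2) / Fintype.card V, 1,
    (((Fintype.card V : ℝ) ^ (3 * J * θ)) ^ k₂)⁻¹, k₂, LF c J e⟩) <|
  Sum.elim (fun T => ⟨fun _ => 2 * K / Fintype.card V, 2 * K / Fintype.card V,
    if ¬ Disjoint (NW.edg T.1) E' then 1 else 0, k₂, LY c J T⟩) <|
  Sum.elim (fun e => ⟨fun _ => 1 / Fintype.card V, 1 / Fintype.card V,
    if e ∈ E' then (((Fintype.card V : ℝ) ^ (-(θ / 2))) ^ k₂)⁻¹ else 0, k₂,
    LT c J e univ⟩) <|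
  Sum.elim (fun e => ⟨fun _ => s ^ 2 / Fintype.card V, s ^ 2 / Fintype.card V,
    if e ∈ E' then (((Fintype.card V : ℝ) ^ (-(θ / 2))) ^ k₂)⁻¹ else 0, k₂,
    LT c J e VV⟩) <|
  (fun v => ⟨fun _ => 0, 1,
    (((Fintype.card V : ℝ) ^ (1 - θ / 2) / (c + 2)) ^ k₂)⁻¹, k₂, LD c v⟩)

/-- the conclusion from the selection -/
theorem ge4_concl {k k₂ s : ℕ} {K θ : ℝ} {E' : Finset (Sym2 V)} {RT VV : Finset (Tri V)}
    {P : Tri V → Finset (Fin (c + 2) → V)} {hh : Tri V → (Fin (c + 2) → V)}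
    (hn : 1 ≤ Fintype.card V)
    (hmem : ∀ r ∈ RT, hh r ∈ P r) (hbad : ∀ W ∈ bad V c J, ∃ h ∈ W, h ∉ RT.image hh)
    (hu : (2 * K + s ^ 2) / Fintype.card V ≤ 1)
    (hsum : ∑ i, (ge4_fam c J k k₂ s K θ E' VV i).a * GG (ge4_fam c J k k₂ s K θ E' VV i).e
      (yA c (ge4_fam c J k k₂ s K θ E' VV i).y (rz c RT hh)) (ge4_fam c J k k₂ s K θ E' VV i).F
        (ge4_fam c J k k₂ s K θ E' VV i).k < 1)
    (hok : ∀ i, (∀ T, 0 ≤ (ge4_fam c J k k₂ s K θ E' VV i).y T) ∧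
      0 ≤ (ge4_fam c J k k₂ s K θ E' VV i).e ∧ 0 ≤ (ge4_fam c J k k₂ s K θ E' VV i).a) :
    SelG c J k k₂ s K θ E' RT VV P hh := by
  have hn0 : (0 : ℝ) < Fintype.card V := by exact_mod_cast hn
  have hone : ∀ i, (ge4_fam c J k k₂ s K θ E' VV i).a * GG (ge4_fam c J k k₂ s K θ E' VV i).e
      (yA c (ge4_fam c J k k₂ s K θ E' VV i).y (rz c RT hh)) (ge4_fam c J k k₂ s K θ E' VV i).F
        (ge4_fam c J k k₂ s K θ E' VV i).k < 1 := by
    intro i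
    refine lt_of_le_of_lt ?_ hsum
    refine single_le_sum (f := fun i => (ge4_fam c J k k₂ s K θ E' VV i).a *
      GG (ge4_fam c J k k₂ s K θ E' VV i).e (yA c (ge4_fam c J k k₂ s K θ E' VV i).y (rz c RT hh))
        (ge4_fam c J k k₂ s K θ E' VV i).F (ge4_fam c J k k₂ s K θ E' VV i).k) ?_ (mem_univ i)
    intro j _
    obtain ⟨h1, h2, h3⟩ := hok j
    exact mul_nonneg h3 (Pool.Agent.F2.GG_nonneg h2 (yA_nonneg h1 (rz_nonneg RT hh)) _)
  have hc2 : (0 : ℝ) < (c : ℝ) + 2 := by positivity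
  refine ⟨hmem, hbad, hu, ?_, ?_, ?_, ?_, ?_, ?_, ?_, ?_, ?_⟩
  · intro T T' hne
    have h1 := hone (Sum.inl (T, T'))
    have h2 : (ge4_fam c J k k₂ s K θ E' VV (Sum.inl (T, T'))).a =
        ((Fintype.card V : ℝ) ^ (-(9 / 10) * k : ℝ))⁻¹ := if_pos hne
    rw [h2] at h1
    exact target (Real.rpow_pos_of_pos hn0 _) h1
  · intro T T' hne
    have h1 := hone (Sum.inr (Sum.inl (T, T')))
    have h2 : (ge4_fam c J k k₂ s K θ E' VV (Sum.inr (Sum.inl (T, T')))).a =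
        ((Fintype.card V : ℝ) ^ (-(9 / 10) * k : ℝ))⁻¹ := if_pos hne
    rw [h2] at h1
    exact target (Real.rpow_pos_of_pos hn0 _) h1
  · intro T e hne
    have h1 := hone (Sum.inr (Sum.inr (Sum.inl (T, e))))
    have h2 : (ge4_fam c J k k₂ s K θ E' VV (Sum.inr (Sum.inr (Sum.inl (T, e))))).a =
        ((Fintype.card V : ℝ) ^ (-(9 / 10) * k : ℝ))⁻¹ := if_pos hne
    rw [h2] at h1
    exact target (Real.rpow_pos_of_pos hn0 _) h1
  · intro T T'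
    have h1 := hone (Sum.inr (Sum.inr (Sum.inr (Sum.inl (T, T')))))
    exact target (Real.rpow_pos_of_pos hn0 _) h1
  · intro e
    have h1 := hone (Sum.inr (Sum.inr (Sum.inr (Sum.inr (Sum.inl e)))))
    exact target (pow_pos (Real.rpow_pos_of_pos hn0 _) _) h1
  · intro T hT
    have h1 := hone (Sum.inr (Sum.inr (Sum.inr (Sum.inr (Sum.inr (Sum.inl T))))))
    have h2 : (ge4_fam c J k k₂ s K θ E' VV
        (Sum.inr (Sum.inr (Sum.inr (Sum.inr (Sum.inr (Sum.inl T))))))).a = 1 := if_pos hT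
    rw [h2, one_mul] at h1
    exact le_of_lt h1
  · intro e he
    have h1 := hone (Sum.inr (Sum.inr (Sum.inr (Sum.inr (Sum.inr (Sum.inr (Sum.inl e)))))))
    have h2 : (ge4_fam c J k k₂ s K θ E' VV
        (Sum.inr (Sum.inr (Sum.inr (Sum.inr (Sum.inr (Sum.inr (Sum.inl e)))))))).a =
          (((Fintype.card V : ℝ) ^ (-(θ / 2))) ^ k₂)⁻¹ := if_pos he
    rw [h2] at h1
    exact target (pow_pos (Real.rpow_pos_of_pos hn0 _) _) h1
  · intro e he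
    have h1 := hone
      (Sum.inr (Sum.inr (Sum.inr (Sum.inr (Sum.inr (Sum.inr (Sum.inr (Sum.inl e))))))))
    have h2 : (ge4_fam c J k k₂ s K θ E' VV
        (Sum.inr (Sum.inr (Sum.inr (Sum.inr (Sum.inr (Sum.inr (Sum.inr (Sum.inl e))))))))).a =
          (((Fintype.card V : ℝ) ^ (-(θ / 2))) ^ k₂)⁻¹ := if_pos he
    rw [h2] at h1
    exact target (pow_pos (Real.rpow_pos_of_pos hn0 _) _) h1
  · intro v
    have h1 := hone
      (Sum.inr (Sum.inr (Sum.inr (Sum.inr (Sum.inr (Sum.inr (Sum.inr (Sum.inr v))))))))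
    exact target (pow_pos (div_pos (Real.rpow_pos_of_pos hn0 _) hc2) _) h1

theorem ge4_grpT {k L s s₁ n : ℕ} {CX B₁ C₂ u a t : ℝ} {yb : (Fin (c + 2) → V) → ℝ}
    {F : Finset (Finset (Atom V c))} (hCX : 1 ≤ CX) (hB₁ : 1 ≤ B₁)
    (h1 : CX * B₁ ^ J ≤ C₂) (h2 : 2 ^ (k * J) ≤ C₂) (hu : 0 ≤ u) (hu2 : u ≤ (s : ℝ) ^ 2 / n)
    (ha : 0 ≤ a) (ht : 0 ≤ t)
    (ha' : a ≤ t) (hyb : ∀ h, 0 ≤ yb h) (hJ : ∀ U ∈ F, U.card ≤ J)
    (hsp : a ≠ 0 → Spread (yA c (fun _ => u) yb) F (k * J)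
      (CX * B₁ ^ J * (1 / s₁ + 1 / n + u)))
    (hL : k * J ≤ L) :
    FamOK ⟨fun _ => u, u, a, k, F⟩ yb L
      (t * (C₂ * (1 / s₁ + 1 / n + (s : ℝ) ^ 2 / n : ℝ) + C₂ * ((s : ℝ) ^ 2 / n : ℝ)) ^ k) := by
  have hC₂ : 0 ≤ C₂ := le_trans (by positivity) h1
  refine fam_ok (η := CX * B₁ ^ J * (1 / s₁ + 1 / n + u))
    (M := C₂ * (1 / s₁ + 1 / n + (s : ℝ) ^ 2 / n : ℝ) + C₂ * ((s : ℝ) ^ 2 / n : ℝ))
    hu ha (by positivity) (fun _ => hu) hyb hJ ?_ (by positivity) ?_ hL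
  · intro h0
    exact ⟨hsp h0, mul_le_mul_of_nonneg_right ha' (by positivity)⟩
  · refine add_le_add ?_ ?_
    · exact mul_le_mul h1 (by linarith) (by positivity) hC₂
    · exact mul_le_mul h2 hu2 hu hC₂

end F

/-- the replacement of the placements outside the roots -/
theorem ge4_cut {V : Type} [Fintype V] [DecidableEq V] {c n₀ C s s₁ : ℕ} {B θ : ℝ}
    {E' A X : Finset (Sym2 V)} {RT VV : Finset (Tri V)} {P : Tri V → Finset (Fin (c + 2) → V)}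
    (h : GHyp c n₀ C s s₁ B θ E' A X RT VV P) :
    GHyp c n₀ C s s₁ B θ E' A X RT VV (fun r => if r ∈ RT then P r else ∅) :=
  ⟨h.hn, h.s_le, h.s_ge, h.s₁_le, h.s₁_ge, h.nl, h.dA, h.dX, h.root, h.vert, h.pair,
    fun r hr => by rw [if_pos hr]; exact h.P_sub r hr,
    fun r hr => by rw [if_pos hr]; exact h.P_card r hr, h.vt⟩

theorem selG (hm : MSelectG) (hA : F2.SpAStatement) (hB : F2.SpBStatement)
    (hE : F2.SpEStatement) (hY : F2.SpYStatement) (hT : F2.SpTStatement) (hD : F2.SpDStatement)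
    (hbad : F2.BadStatement) (hyp : YPG) (hnum : NumG) : SelGStatement := by
  intro J c C B₀ K hJ hc hev hJc hB₀ hK k hk
  have hJ0 : (0 : ℝ) < J := by
    have : 0 < J := by omega
    exact_mod_cast this
  refine ⟨1 / (200 * J), by positivity, ?_⟩
  intro θ hθ hθ'
  set k₂ : ℕ := max 1 ⌈24 / θ⌉₊ with hk₂
  have hk₂1 : 1 ≤ k₂ := le_max_left _ _
  have hk₂2 : 24 / θ ≤ (k₂ : ℝ) := by
    refine le_trans (Nat.le_ceil _) ?_
    exact_mod_cast le_max_right _ _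
  set L : ℕ := k * (2 * J) + k * J + k₂ * J + k₂ * 1 + J + 2 with hL
  have hL1 : 1 ≤ L := by omega
  obtain ⟨CA, hCA, fA⟩ := hA c J C (k * J) hc hev hJc
  obtain ⟨CB, hCB, fB⟩ := hB c J C (k * J) hc hev hJc
  obtain ⟨CE, hCE, fE⟩ := hE c J C (k * (2 * J)) hc hev hJc
  obtain ⟨CF, hCF, fF⟩ := hB c J C (k₂ * J) hc hev hJc
  obtain ⟨CY, hCY, fY⟩ := hY c J C (k₂ * J) hc hev hJc
  obtain ⟨CT, hCT, fT⟩ := hT c J C (k₂ * J) hc hev hJc
  obtain ⟨CD, hCD, fD⟩ := hD c C (k₂ * 1) hc hev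
  obtain ⟨Cb, hCb, fb⟩ := hbad c J C hc hev hJc hJ
  set B₁ : ℝ := 2 * K + 1 + B₀ with hB₁
  have hB₁1 : 1 ≤ B₁ := by rw [hB₁]; linarith
  have hp0 : 1 ≤ B₁ ^ J := one_le_pow₀ hB₁1
  have hp1 : B₁ ^ J ≤ B₁ ^ (2 * J) := pow_le_pow_right₀ hB₁1 (by omega)
  obtain ⟨C₂, k1, k2, k3, k4, k5, k6, k7, k8, k9, k10, k11, k12, k13, k14, k15⟩ :
      ∃ C₂ : ℝ, CA * B₁ ^ (2 * J) ≤ C₂ ∧ CB * B₁ ^ (2 * J) ≤ C₂ ∧ CE * B₁ ^ (2 * J) ≤ C₂ ∧
        CF * B₁ ^ J ≤ C₂ ∧ CY * B₁ ^ J ≤ C₂ ∧ CT * B₁ ^ J ≤ C₂ ∧ CD * B₁ ≤ C₂ ∧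
        2 ^ (k * J) ≤ C₂ ∧ 2 ^ (k * (2 * J)) ≤ C₂ ∧ 2 ^ (k₂ * J) ≤ C₂ ∧
        2 ^ (k₂ * J) * (2 * K) ≤ C₂ ∧ 2 ^ (k₂ * 1) ≤ C₂ ∧ 8 * L * (Cb * B₁ ^ J) ≤ C₂ ∧
        10 * 2 ^ L ≤ C₂ ∧ (c : ℝ) + 2 + (2 * K + 1) ≤ C₂ := by
    refine ⟨CA * B₁ ^ (2 * J) + CB * B₁ ^ (2 * J) + CE * B₁ ^ (2 * J) + CF * B₁ ^ J +
      CY * B₁ ^ J + CT * B₁ ^ J + CD * B₁ + 2 ^ (k * J) + 2 ^ (k * (2 * J)) + 2 ^ (k₂ * J) +
      2 ^ (k₂ * J) * (2 * K) + 2 ^ (k₂ * 1) + 8 * L * (Cb * B₁ ^ J) + 10 * 2 ^ L +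
      ((c : ℝ) + 2 + (2 * K + 1)), ?_⟩
    have a1 : 0 ≤ CA * B₁ ^ (2 * J) := by positivity
    have a2 : 0 ≤ CB * B₁ ^ (2 * J) := by positivity
    have a3 : 0 ≤ CE * B₁ ^ (2 * J) := by positivity
    have a4 : 0 ≤ CF * B₁ ^ J := by positivity
    have a5 : 0 ≤ CY * B₁ ^ J := by positivity
    have a6 : 0 ≤ CT * B₁ ^ J := by positivity
    have a7 : 0 ≤ CD * B₁ := by positivity
    have a8 : (0 : ℝ) ≤ 2 ^ (k * J) := by positivity
    have a9 : (0 : ℝ) ≤ 2 ^ (k * (2 * J)) := by positivity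
    have a10 : (0 : ℝ) ≤ 2 ^ (k₂ * J) := by positivity
    have a11 : (0 : ℝ) ≤ 2 ^ (k₂ * J) * (2 * K) := by positivity
    have a12 : (0 : ℝ) ≤ 2 ^ (k₂ * 1) := by positivity
    have a13 : (0 : ℝ) ≤ 8 * L * (Cb * B₁ ^ J) := by positivity
    have a14 : (0 : ℝ) ≤ 10 * 2 ^ L := by positivity
    have a15 : (0 : ℝ) ≤ (c : ℝ) + 2 + (2 * K + 1) := by positivity
    refine ⟨?_, ?_, ?_, ?_, ?_, ?_, ?_, ?_, ?_, ?_, ?_, ?_, ?_, ?_, ?_⟩ <;> linarith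
  have hC₂1 : 1 ≤ C₂ := by
    have : (0 : ℝ) ≤ c := Nat.cast_nonneg _
    linarith
  have hC₂0 : 0 < C₂ := by linarith
  have hθ'' : 4 * (J : ℝ) * θ ≤ 1 / 50 := by
    have h1 : 4 * (J : ℝ) * θ ≤ 4 * J * (1 / (200 * J)) :=
      mul_le_mul_of_nonneg_left hθ' (by positivity)
    have h2 : 4 * (J : ℝ) * (1 / (200 * J)) = 1 / 50 := by
      field_simp
      norm_num
    linarith
  obtain ⟨n₂, hN⟩ := hnum J k k₂ C₂ θ (by omega) hk hC₂1 hθ hθ'' hk₂2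
  refine ⟨max n₂ 3, k₂, hk₂1, ?_⟩
  intro V _ _ E' A X RT VV P₀ s s₁ hBH
  have hT₀ : Nonempty (Tri V) := by
    obtain ⟨t, _, ht⟩ := Finset.exists_subset_card_eq
      (s := (univ : Finset V)) (n := 3) (by
        rw [card_univ]
        exact (le_max_right _ _).trans hBH.hn)
    exact ⟨⟨t, ht⟩⟩
  obtain ⟨q1, q1', q2, q3, q4, q5, q6, q7, q8, q9⟩ := hN (Fintype.card V)
    (le_trans (le_max_left _ _) hBH.hn) s s₁ hBH.s_le hBH.s_ge hBH.s₁_le hBH.s₁_ge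
  have hBH1 := ge4_cut hBH
  set P : Tri V → Finset (Fin (c + 2) → V) := fun r => if r ∈ RT then P₀ r else ∅ with hPdef
  have hPin : ∀ r ∈ RT, P r = P₀ r := fun r hr => if_pos hr
  have hPout : ∀ r, r ∉ RT → P r = ∅ := fun r hr => if_neg hr
  obtain ⟨hne, hYB⟩ := hyp c C (max n₂ 3) B₀ hc hB₀
    (le_trans (by norm_num) (le_max_right n₂ 3)) V E' A X RT VV P s s₁ θ q1' hBH1 hPout
  have hrt : ∀ r, ∀ h ∈ P r, rt c h = r.1 := by
    intro r h hh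
    by_cases hr : r ∈ RT
    · rw [hPin r hr] at hh
      have h1 := hBH.P_sub r hr hh
      unfold Pl at h1
      exact (mem_filter.1 h1).2.2.1
    · rw [hPout r hr] at hh
      exact absurd hh (notMem_empty h)
  set yb := yG c P RT with hyb
  have hn0 : (0 : ℝ) < Fintype.card V := by exact_mod_cast q2
  have hn1 : (1 : ℝ) ≤ Fintype.card V := by exact_mod_cast q2
  have hs0 : (0 : ℝ) < s := by exact_mod_cast q1
  have hs1 : (1 : ℝ) ≤ s := by exact_mod_cast q1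
  have hs2 : (1 : ℝ) ≤ (s : ℝ) ^ 2 := one_le_pow₀ hs1
  have hY1 : YBound c C s₁ B₁ E' RT yb := ybound_mono hYB (by rw [hB₁]; linarith)
  have hYs : YBound c C s₁ (B₁ * (s : ℝ) ^ 2) E' RT yb := by
    refine ybound_mono hY1 ?_
    nlinarith
  have hynn := hYB.nonneg
  -- the numbers
  have hu0 : 0 ≤ (2 * K + (s : ℝ) ^ 2) / Fintype.card V := by positivity
  have huB : (2 * K + (s : ℝ) ^ 2) / Fintype.card V ≤ B₁ * (s : ℝ) ^ 2 / Fintype.card V := by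
    refine div_le_div_of_nonneg_right ?_ hn0.le
    rw [hB₁]
    nlinarith
  have hu1 : (2 * K + (s : ℝ) ^ 2) / Fintype.card V ≤ 1 := by
    refine le_trans ?_ q3
    refine div_le_div_of_nonneg_right ?_ hn0.le
    have : (0 : ℝ) ≤ c := Nat.cast_nonneg _
    nlinarith
  have hinv : ((Fintype.card V : ℝ) ^ (-(9 / 10) * k : ℝ))⁻¹ =
      (Fintype.card V : ℝ) ^ ((9 / 10) * k : ℝ) := by
    rw [← Real.rpow_neg hn0.le]
    congr 1
    ring
  have hinv0 : 0 ≤ (Fintype.card V : ℝ) ^ ((9 / 10) * k : ℝ) := (Real.rpow_pos_of_pos hn0 _).le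
  have hc0 : (0 : ℝ) ≤ c := Nat.cast_nonneg _
  set n : ℕ := Fintype.card V with hndef
  set mA : ℝ := (n : ℝ) ^ ((9 / 10) * k : ℝ) *
    (C₂ * ((s : ℝ) ^ 2) ^ (2 * J) / n + C₂ * (n : ℝ) ^ (-(19 / 20) : ℝ)) ^ k with hmA
  set mF : ℝ := (((n : ℝ) ^ (3 * J * θ))⁻¹) ^ k₂ * (C₂ * ((s : ℝ) ^ 2) ^ J + C₂) ^ k₂ with hmF
  set mY : ℝ := (C₂ * (1 / s₁ + 1 / n : ℝ) + C₂ * (1 / n : ℝ)) ^ k₂ with hmY
  set mT : ℝ := (((n : ℝ) ^ (-(θ / 2)))⁻¹) ^ k₂ *
    (C₂ * (1 / s₁ + 1 / n + (s : ℝ) ^ 2 / n : ℝ) + C₂ * ((s : ℝ) ^ 2 / n : ℝ)) ^ k₂ with hmT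
  set mD : ℝ := (((n : ℝ) ^ (1 - θ / 2) / C₂)⁻¹) ^ k₂ * (C₂ * (n / s₁ : ℝ) + C₂) ^ k₂ with hmD
  have hkJ : k * J ≤ L := by rw [hL]; omega
  have hk2J : k * (2 * J) ≤ L := by rw [hL]; omega
  have hkJ2 : k₂ * J ≤ L := by rw [hL]; omega
  have hk12 : k₂ * 1 ≤ L := by rw [hL]; omega
  have hok : ∀ i, FamOK (ge4_fam c J k k₂ s K θ E' VV i) yb L (mm V mA mF mY mT mD i) := by
    rintro (⟨T, T'⟩ | ⟨T, T'⟩ | ⟨T, e⟩ | ⟨T, T'⟩ | e | T | e | e | v)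
    · refine grp1 (J := J) (J₁ := J) (B₁ := B₁) (CX := CA) q2 q1 hCA hB₁1 k1 k8 hu0 ?_ ?_ hynn
        LA_card (by omega) ?_ hkJ
      · exact ite_nn (by rw [hinv]; exact hinv0)
      · exact ite_le' (by rw [hinv]) hinv0
      · intro h0
        have hTT : T ≠ T' := by
          intro e
          exact h0 (if_neg (fun h => h e))
        exact (fA V E' RT s₁ _ _ yb hYs hu0 huB T T' hTT).1
    · refine grp1 (J := J) (J₁ := J) (B₁ := B₁) (CX := CA) q2 q1 hCA hB₁1 k1 k8 hu0 ?_ ?_ hynn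
        LA'_card (by omega) ?_ hkJ
      · exact ite_nn (by rw [hinv]; exact hinv0)
      · exact ite_le' (by rw [hinv]) hinv0
      · intro h0
        have hTT : T ≠ T' := by
          intro e
          exact h0 (if_neg (fun h => h e))
        exact (fA V E' RT s₁ _ _ yb hYs hu0 huB T T' hTT).2
    · refine grp1 (J := J) (J₁ := J) (B₁ := B₁) (CX := CB) q2 q1 hCB hB₁1 k2 k8 hu0 ?_ ?_ hynn
        LB_card (by omega) ?_ hkJ
      · exact ite_nn (by rw [hinv]; exact hinv0)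
      · exact ite_le' (by rw [hinv]) hinv0
      · intro h0
        have hTT : e ∉ NW.edg T.1 := by
          intro h1
          exact h0 (if_neg (fun h => h h1))
        exact (fB V E' RT s₁ _ _ yb hYs hu0 huB T e).1 hTT
    · refine grp1 (J := J) (J₁ := 2 * J) (B₁ := B₁) (CX := CE) q2 q1 hCE hB₁1 k3 k9 hu0 ?_ ?_
        hynn LE_card le_rfl ?_ hk2J
      · rw [hinv]; exact hinv0
      · rw [hinv]
      · intro _
        exact fE V E' RT s₁ _ _ yb hYs hu0 huB T T'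
    · refine grpF (J := J) (B₁ := B₁) (CX := CF) hCF hB₁1 k4 k10 hu0 ?_ ?_ ?_ hynn
        LF_card ?_ hkJ2
      · exact inv_nonneg.2 (pow_nonneg (Real.rpow_pos_of_pos hn0 _).le _)
      · exact pow_nonneg (inv_nonneg.2 (Real.rpow_pos_of_pos hn0 _).le) _
      · rw [inv_pow]
      · intro _
        exact (fF V E' RT s₁ _ _ yb hYs hu0 huB (Classical.arbitrary _) e).2
    · refine grpY (J := J) (B₁ := B₁) (CX := CY) (κ := 2 * K) hCY hB₁1 k5 k11 (by positivity)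
        ?_ ?_ hynn LY_card ?_ hkJ2
      · exact ite_nn zero_le_one
      · exact ite_le' le_rfl zero_le_one
      · intro h0
        have hTT : ¬ Disjoint (NW.edg T.1) E' := by
          intro h1
          exact h0 (if_neg (fun h => h h1))
        refine fY V E' RT s₁ _ _ yb hY1 (by positivity) ?_ T hTT
        exact div_le_div_of_nonneg_right (by rw [hB₁]; linarith) hn0.le
    · refine ge4_grpT (J := J) (B₁ := B₁) (CX := CT) hCT hB₁1 k6 k10 (by positivity) ?_ ?_ ?_ ?_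
        hynn LT_card ?_ hkJ2
      · exact div_le_div_of_nonneg_right hs2 hn0.le
      · exact ite_nn (inv_nonneg.2 (pow_nonneg (Real.rpow_pos_of_pos hn0 _).le _))
      · exact pow_nonneg (inv_nonneg.2 (Real.rpow_pos_of_pos hn0 _).le) _
      · exact ite_le' (by rw [inv_pow])
          (pow_nonneg (inv_nonneg.2 (Real.rpow_pos_of_pos hn0 _).le) _)
      · intro h0
        have he : e ∈ E' := by
          by_contra h1
          exact h0 (if_neg h1)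
        refine fT V E' RT s₁ _ _ yb hY1 (by positivity) e univ he ?_
        have h1 : (((univ : Finset (Tri V)).filter (fun T => e ∈ NW.edg T.1)).card : ℝ) ≤ n := by
          exact_mod_cast thr e
        rw [mul_one_div, div_le_iff₀ hn0]
        linarith
    · refine ge4_grpT (J := J) (B₁ := B₁) (CX := CT) hCT hB₁1 k6 k10 (by positivity) ?_ ?_ ?_ ?_
        hynn LT_card ?_ hkJ2
      · exact le_rfl
      · exact ite_nn (inv_nonneg.2 (pow_nonneg (Real.rpow_pos_of_pos hn0 _).le _))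
      · exact pow_nonneg (inv_nonneg.2 (Real.rpow_pos_of_pos hn0 _).le) _
      · exact ite_le' (by rw [inv_pow])
          (pow_nonneg (inv_nonneg.2 (Real.rpow_pos_of_pos hn0 _).le) _)
      · intro h0
        have he : e ∈ E' := by
          by_contra h1
          exact h0 (if_neg h1)
        refine fT V E' RT s₁ _ _ yb hY1 (by positivity) e (VV) he ?_
        have h1 := hBH.vt e he
        have h2 : ((VV.filter (fun T => e ∈ NW.edg T.1)).card : ℝ) * (s : ℝ) ^ 2 ≤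
            4 * n := by exact_mod_cast h1
        rw [← mul_div_assoc, div_le_iff₀ hn0]
        exact h2
    · refine grpD (B₁ := B₁) (CX := CD) hCD hB₁1 k7 k12 ?_ ?_ ?_ hynn
        LD_card ?_ hk12
      · exact inv_nonneg.2 (pow_nonneg (div_nonneg (Real.rpow_pos_of_pos hn0 _).le
          (by positivity)) _)
      · exact pow_nonneg (inv_nonneg.2 (div_nonneg (Real.rpow_pos_of_pos hn0 _).le hC₂0.le)) _
      · rw [← inv_pow]
        refine pow_le_pow_left₀ (inv_nonneg.2 (div_nonneg (Real.rpow_pos_of_pos hn0 _).le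
          (by positivity))) ?_ _
        refine inv_anti₀ (div_pos (Real.rpow_pos_of_pos hn0 _) hC₂0) ?_
        refine div_le_div_of_nonneg_left (Real.rpow_pos_of_pos hn0 _).le (by positivity) ?_
        linarith
      · intro _
        exact fD V E' RT s₁ _ yb hY1 v
  have hmA0 : 0 ≤ mA := by
    have : 0 ≤ (n : ℝ) ^ (-(19 / 20) : ℝ) := (Real.rpow_pos_of_pos hn0 _).le
    rw [hmA]
    positivity
  have hmF0 : 0 ≤ mF := by
    have : 0 ≤ (n : ℝ) ^ (3 * J * θ) := (Real.rpow_pos_of_pos hn0 _).le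
    rw [hmF]
    positivity
  have hmY0 : 0 ≤ mY := by
    rw [hmY]
    positivity
  have hmT0 : 0 ≤ mT := by
    have : 0 ≤ (n : ℝ) ^ (-(θ / 2)) := (Real.rpow_pos_of_pos hn0 _).le
    rw [hmT]
    positivity
  have hsum := sum_mm (V := V) (q := 1 / C₂) q2 hmA0 hmF0 hmY0 hmT0
    (mD := mD) (by rw [hmA, ← mul_assoc]; exact q5) (by rw [hmF, ← mul_assoc]; exact q6) q7
    (by rw [hmT, ← mul_assoc]; exact q8) (by rw [hmD, ← mul_assoc]; exact q9)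
  have hlt : 9 * (1 / C₂) < 1 / 2 ^ L := by
    have h2L : (0 : ℝ) < 2 ^ L := by positivity
    rw [mul_one_div, div_lt_div_iff₀ hC₂0 h2L]
    linarith
  have hbsum : ∀ r ∈ RT, ∑ W ∈ (bad V c J).filter (fun W => ∃ h ∈ W, rt c h = r.1),
      ∏ h ∈ W, yb h ≤ 1 / (8 * L) := by
    intro r _
    refine le_trans (fb V E' RT s₁ B₁ yb hY1 r) ?_
    have hL0 : (0 : ℝ) < L := by exact_mod_cast hL1
    rw [le_div_iff₀ (by positivity)]
    calc Cb * B₁ ^ J * (1 / s₁ + 1 / n) * (8 * L) =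
        (8 * L * (Cb * B₁ ^ J)) * (1 / s₁ + 1 / n) := by ring
      _ ≤ C₂ * (1 / s₁ + 1 / n) := mul_le_mul_of_nonneg_right k13 (by positivity)
      _ ≤ 1 := q4
  obtain ⟨hh, m1, m2, m3⟩ := hm L c V RT P (bad V c J) (Idx V)
    (fun i => (ge4_fam c J k k₂ s K θ E' VV i).y) (fun i => (ge4_fam c J k k₂ s K θ E' VV i).e)
    (fun i => (ge4_fam c J k k₂ s K θ E' VV i).a) (fun i => (ge4_fam c J k k₂ s K θ E' VV i).k)
    (fun i => (ge4_fam c J k k₂ s K θ E' VV i).F) hL1 hrt hne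
    (fun W hW => ⟨le_trans (bad_card hW).1 (by omega), (bad_card hW).2⟩)
    (fun i => (hok i).card) (fun i => (hok i).y) (fun i => (hok i).e) (fun i => (hok i).a)
    hbsum (lt_of_le_of_lt (le_trans (sum_le_sum (fun i _ => (hok i).m)) hsum) hlt)
  exact ⟨hh, ge4_concl q2 (fun r hr => by rw [← hPin r hr]; exact m1 r hr) m2 hu1 m3
    (fun i => ⟨(hok i).y, (hok i).e, (hok i).a⟩)⟩

end F3.GE
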