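import Pool.Agent.F3.GE.Defs
import Pool.Agent.F2.Z.ToCov

/-!
# Project F3, row GE7: from the abstract nibble to the cover, allowed triples
-/

set_option autoImplicit false
set_option linter.unusedSectionVars false

namespace F3.GE

open Finset NW F1 F2
open Pool.Agent.F2 (HH GG Spread)

theorem ge7_mem_rconf {V : Type} [Fintype V] [DecidableEq V] {c J : ℕ} {RT : Finset (Tri V)}
    {hh : Tri V → (Fin (c + 2) → V)} {R R' U : Finset (Tri V)}
    (hU : U ∈ rconf c J RT hh R) (h : U ⊆ R') : U ∈ rconf c J RT hh R' := by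
  unfold rconf at hU ⊢
  rw [Finset.mem_filter] at hU ⊢
  exact ⟨hU.1, hU.2.1, h⟩

theorem toCovG (h : F2.CoverStatement) : ToCovG := by
  intro J C hC
  obtain ⟨η, hη, H⟩ := h J C hC
  refine ⟨η, hη, ?_⟩
  intro c s ω V _ _ E₂ X RT RR VV hh M x hV hs hNL hdis hRR hVV hgood hout h1 h2
  have hn : (0 : ℝ) < (Fintype.card V : ℝ) := by
    have : 0 < Fintype.card V := by omega
    exact_mod_cast this
  have hs0 : (0 : ℝ) < (s : ℝ) := by exact_mod_cast hs
  have hν : (0 : ℝ) < (s : ℝ) ^ 2 / Fintype.card V := div_pos (pow_pos hs0 2) hn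
  -- the edges of the triangles of `M`
  have hMR : M ⊆ RR := hout.M_sub
  have hedR : ∀ T ∈ triR E₂, NW.edg T.1 ∩ E₂ = NW.edg T.1 := by
    intro T hT
    unfold triR at hT
    exact Finset.inter_eq_left.2 (Finset.mem_filter.1 hT).2
  have hbi : M.biUnion (syG c J RT hh E₂ RR VV).ed = M.biUnion (fun T => NW.edg T.1) := by
    refine Finset.biUnion_congr rfl ?_
    intro T hT
    exact hedR T (hRR (hMR hT))
  have hEf : E₂ \ M.biUnion (syG c J RT hh E₂ RR VV).ed = Lo E₂ M := by
    rw [hbi]; rfl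
  have : Nonempty (Tri V) := by
    obtain ⟨t, -, ht⟩ := Finset.exists_subset_card_eq (s := (univ : Finset V)) (n := 3)
      (by rw [Finset.card_univ]; exact hV)
    exact ⟨⟨t, ht⟩⟩
  obtain ⟨ch, hch1, hch2, hch3⟩ := H (Sym2 V) (Tri V) (Sym2 V) (syG c J RT hh E₂ RR VV)
    (fun T => NW.edg T.1 \ E₂) M (Lo E₂ M) x ((s : ℝ) ^ 2 / Fintype.card V) hgood hν
    (by
      intro T hT
      have hT' : T ∈ triV E₂ X := hVV hT
      unfold triV at hT'
      have h1 := (Finset.mem_filter.1 hT').2.1
      have h3 := ToCov.card_edg T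
      have h4 := Finset.card_sdiff_add_card_inter (NW.edg T.1) E₂
      show (NW.edg T.1 \ E₂).card ≤ 2
      omega)
    hout.M_conf hout.M_sub hout.x_nonneg hout.x_le hout.x_ne
    (by
      intro e he
      exact hout.x_lo e (by rw [hEf]; exact he))
    (by
      intro f
      refine Sym2.ind (fun a b => ?_) f
      by_cases hab : a = b
      · -- no loops
        have h0 : ((syG c J RT hh E₂ RR VV).Vt.filter (fun T => s(a, b) ∈ NW.edg T.1 \ E₂ ∧
            (syG c J RT hh E₂ RR VV).ed T ⊆ Lo E₂ M)) = ∅ := by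
          refine Finset.filter_eq_empty_iff.2 ?_
          rintro T - ⟨hT, -⟩
          rw [Finset.mem_sdiff, NW.mk_mem_edg] at hT
          exact hT.1.2.2 hab
        show (((syG c J RT hh E₂ RR VV).Vt.filter (fun T => s(a, b) ∈ NW.edg T.1 \ E₂ ∧
            (syG c J RT hh E₂ RR VV).ed T ⊆ Lo E₂ M)).card : ℝ) * _ ≤ η
        rw [h0]
        simpa using hη.le
      · have hcount0 := ToCov.count E₂ X (Lo E₂ M) a b hab
        have hcount : (VV.filter (fun T => s(a, b) ∈ NW.edg T.1 \ E₂ ∧
            NW.edg T.1 ∩ E₂ ⊆ Lo E₂ M)).card ≤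
            ((Lo E₂ M).filter (fun e => a ∈ e)).card +
              ((Lo E₂ M).filter (fun e => b ∈ e)).card :=
          (Finset.card_le_card (Finset.filter_subset_filter _ hVV)).trans hcount0
        have hdeg : ∀ v : V, (((Lo E₂ M).filter (fun e => v ∈ e)).card : ℝ) ≤
            (Fintype.card V : ℝ) ^ (1 - ω / 2) := by
          intro v
          have hd := hout.deg v
          refine le_trans ?_ hd
          have : (Lo E₂ M).filter (fun e => v ∈ e) =
              E₂.filter (fun e => v ∈ e) \ M.biUnion (syG c J RT hh E₂ RR VV).ed := by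
            rw [← hEf]
            ext e
            simp only [Finset.mem_filter, Finset.mem_sdiff]
            tauto
          rw [this]
        have hc' : (((VV.filter (fun T => s(a, b) ∈ NW.edg T.1 \ E₂ ∧
            NW.edg T.1 ∩ E₂ ⊆ Lo E₂ M)).card : ℕ) : ℝ) ≤
            2 * (Fintype.card V : ℝ) ^ (1 - ω / 2) := by
          have h3 : (((VV.filter (fun T => s(a, b) ∈ NW.edg T.1 \ E₂ ∧
            NW.edg T.1 ∩ E₂ ⊆ Lo E₂ M)).card : ℕ) : ℝ) ≤
            (((Lo E₂ M).filter (fun e => a ∈ e)).card : ℝ) +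
            (((Lo E₂ M).filter (fun e => b ∈ e)).card : ℝ) := by exact_mod_cast hcount
          have h4 := hdeg a
          have h5 := hdeg b
          linarith
        show (((VV.filter (fun T => s(a, b) ∈ NW.edg T.1 \ E₂ ∧
            NW.edg T.1 ∩ E₂ ⊆ Lo E₂ M)).card : ℕ) : ℝ) * ((s : ℝ) ^ 2 / Fintype.card V) ≤ η
        have hpow : (Fintype.card V : ℝ) ^ (1 - ω / 2) =
            (Fintype.card V : ℝ) * (Fintype.card V : ℝ) ^ (-(ω / 2)) := by
          have : (1 - ω / 2 : ℝ) = 1 + -(ω / 2) := by ring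
          rw [this, Real.rpow_add hn, Real.rpow_one]
        calc _ ≤ (2 * (Fintype.card V : ℝ) ^ (1 - ω / 2)) * ((s : ℝ) ^ 2 / Fintype.card V) :=
              mul_le_mul_of_nonneg_right hc' hν.le
          _ = 2 * (s : ℝ) ^ 2 * (Fintype.card V : ℝ) ^ (-(ω / 2)) := by
              rw [hpow]
              field_simp
          _ ≤ η := h1)
    (by
      intro e he
      have := hout.hF e (by rw [hEf]; exact he)
      rw [hEf] at this
      exact le_trans this h2)
  refine ⟨ch, ⟨hMR.trans hRR, ?_, ?_, hch2, ?_⟩, hMR, fun e he => (hch1 e he).1⟩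
  · intro T hT T' hT' hne
    have h3 := hout.M_disj T hT T' hT' hne
    have h4 : (syG c J RT hh E₂ RR VV).ed T = NW.edg T.1 := hedR T (hRR (hMR hT))
    have h5 : (syG c J RT hh E₂ RR VV).ed T' = NW.edg T'.1 := hedR T' (hRR (hMR hT'))
    rwa [h4, h5] at h3
  · intro e he
    exact ⟨hVV (hch1 e he).1, (hch1 e he).2⟩
  · intro U hU hsub
    refine hch3 U (ge7_mem_rconf hU (hsub.trans ?_)) hsub
    refine Finset.union_subset_union hMR ?_
    intro T hT
    obtain ⟨e, he, rfl⟩ := Finset.mem_image.1 hT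
    exact (hch1 e he).1

end F3.GE
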