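import Pool.Agent.F3.GE.Defs
import Pool.Agent.F2.L.YP

/-!
# Project F3, block GE, row GE2: the probabilities of the placements
-/

set_option autoImplicit false
set_option linter.unusedSectionVars false

namespace F3.GE

open Finset NW F1 F2

section YPG

variable {V : Type} [Fintype V] [DecidableEq V] {c : ℕ}

theorem ypg_ne {P : Tri V → Finset (Fin (c + 2) → V)} {RT : Finset (Tri V)}
    {h : Fin (c + 2) → V} (hy : yG c P RT h ≠ 0) : ∃ r ∈ RT, h ∈ P r := by
  by_contra hc
  push Not at hc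
  apply hy
  unfold yG
  rw [Finset.filter_false_of_mem hc, Finset.sum_empty]

theorem ypg_eq {E : Finset (Sym2 V)} {P : Tri V → Finset (Fin (c + 2) → V)}
    {RT : Finset (Tri V)} (hP : ∀ r ∈ RT, P r ⊆ Pl c E r) {h : Fin (c + 2) → V} {r : Tri V}
    (hr : rt c h = r.1) :
    yG c P RT h = if r ∈ RT ∧ h ∈ P r then 1 / ((P r).card : ℝ) else 0 := by
  have huniq : ∀ r' ∈ RT, h ∈ P r' → r' = r := by
    intro r' hr' h'
    apply Subtype.ext
    rw [← (yp_mem.1 (hP r' hr' h')).2.1, hr]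
  unfold yG
  split_ifs with hc
  · rw [Finset.sum_eq_single r]
    · intro b hb hbr
      exact absurd (huniq b (Finset.mem_filter.1 hb).1 (Finset.mem_filter.1 hb).2) hbr
    · intro hn
      exact absurd (Finset.mem_filter.2 hc) hn
  · apply Finset.sum_eq_zero
    intro b hb
    obtain ⟨hb1, hb2⟩ := Finset.mem_filter.1 hb
    have := huniq b hb1 hb2
    subst this
    exact absurd ⟨hb1, hb2⟩ hc

theorem ypg_nonneg (P : Tri V → Finset (Fin (c + 2) → V)) (RT : Finset (Tri V))
    (h : Fin (c + 2) → V) : 0 ≤ yG c P RT h :=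
  Finset.sum_nonneg fun _ _ => div_nonneg zero_le_one (Nat.cast_nonneg _)

theorem ypg_one {E : Finset (Sym2 V)} {P : Tri V → Finset (Fin (c + 2) → V)}
    {RT : Finset (Tri V)} (hP : ∀ r ∈ RT, P r ⊆ Pl c E r) (r : Tri V) :
    ∑ h ∈ univ.filter (fun h : Fin (c + 2) → V => rt c h = r.1), yG c P RT h ≤ 1 := by
  have h1 : ∑ h ∈ univ.filter (fun h : Fin (c + 2) → V => rt c h = r.1), yG c P RT h =
      ∑ h ∈ univ.filter (fun h : Fin (c + 2) → V => rt c h = r.1),
        (if r ∈ RT ∧ h ∈ P r then 1 / ((P r).card : ℝ) else 0) :=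
    Finset.sum_congr rfl fun h hh => ypg_eq hP (Finset.mem_filter.1 hh).2
  rw [h1]
  have hc0 : (0 : ℝ) ≤ 1 / ((P r).card : ℝ) := div_nonneg zero_le_one (Nat.cast_nonneg _)
  calc ∑ h ∈ univ.filter (fun h : Fin (c + 2) → V => rt c h = r.1),
        (if r ∈ RT ∧ h ∈ P r then 1 / ((P r).card : ℝ) else 0)
      ≤ ∑ h : Fin (c + 2) → V, (if h ∈ P r then 1 / ((P r).card : ℝ) else 0) := by
        refine (Finset.sum_le_sum (g := fun h : Fin (c + 2) → V =>
          (if h ∈ P r then 1 / ((P r).card : ℝ) else 0)) ?_).trans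
          (Finset.sum_le_sum_of_subset_of_nonneg (Finset.filter_subset _ _) ?_)
        · intro h _
          show (if r ∈ RT ∧ h ∈ P r then 1 / ((P r).card : ℝ) else 0) ≤
            (if h ∈ P r then 1 / ((P r).card : ℝ) else 0)
          by_cases h2 : h ∈ P r
          · by_cases h3 : r ∈ RT
            · rw [if_pos ⟨h3, h2⟩, if_pos h2]
            · rw [if_neg (fun h4 => h3 h4.1), if_pos h2]
              exact hc0
          · rw [if_neg (fun h4 => h2 h4.2), if_neg h2]
        · intro h _ _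
          split_ifs
          · exact hc0
          · exact le_rfl
    _ = ∑ _h ∈ P r, 1 / ((P r).card : ℝ) := by
        rw [← Finset.sum_filter]
        congr 1
        ext h
        simp
    _ ≤ 1 := by
        rw [Finset.sum_const, nsmul_eq_mul]
        rcases Nat.eq_zero_or_pos (P r).card with h0 | h0
        · rw [h0]; simp
        · rw [mul_one_div_cancel]
          exact_mod_cast h0.ne'

end YPG

/-- row GE2 -/
theorem ypG : YPG := by
  intro c C n₀ B _ hB hn₀ V _ _ E' A X RT VV P s s₁ θ hs₁ hb _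
  have hn1 : 1 ≤ Fintype.card V := hn₀.trans hb.hn
  have hnpos : (0 : ℝ) < (Fintype.card V : ℝ) := by
    have : (1 : ℝ) ≤ (Fintype.card V : ℝ) := by exact_mod_cast hn1
    linarith
  have hpow : (0 : ℝ) < (Fintype.card V : ℝ) ^ (c - 1) := pow_pos hnpos _
  have hPpos : ∀ r ∈ RT, (0 : ℝ) < ((P r).card : ℝ) := by
    intro r hr
    have h1 := hb.P_card r hr
    rcases Nat.eq_zero_or_pos (P r).card with h0 | h0
    · rw [h0, Nat.cast_zero, mul_zero] at h1
      linarith
    · exact_mod_cast h0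
  have hP := hb.P_sub
  refine ⟨fun r hr => Finset.card_pos.1 (by exact_mod_cast hPpos r hr), ?_⟩
  refine ⟨hn1, hs₁, hB, ⟨hb.vert, hb.pair⟩, ypg_nonneg P RT, ?_, ?_, ?_, ?_, ?_,
    ypg_one hP⟩
  · intro h
    by_cases h0 : yG c P RT h = 0
    · rw [h0]
      exact div_nonneg (by linarith) hpow.le
    · obtain ⟨r, hr, hh⟩ := ypg_ne h0
      rw [ypg_eq hP (yp_mem.1 (hP r hr hh)).2.1, if_pos ⟨hr, hh⟩,
        div_le_div_iff₀ (hPpos r hr) hpow, one_mul]
      exact hb.P_card r hr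
  · intro h h0
    obtain ⟨r, hr, hh⟩ := ypg_ne h0
    exact (yp_mem.1 (hP r hr hh)).1
  · intro h h0
    obtain ⟨r, hr, hh⟩ := ypg_ne h0
    exact ⟨r, hr, (yp_mem.1 (hP r hr hh)).2.1⟩
  · intro h h0
    obtain ⟨r, hr, hh⟩ := ypg_ne h0
    exact (yp_mem.1 (hP r hr hh)).2.2
  · intro h h0
    obtain ⟨r, hr, hh⟩ := ypg_ne h0
    rw [(yp_mem.1 (hP r hr hh)).2.1]
    refine Finset.disjoint_of_subset_left (hb.root r hr) ?_
    rw [Finset.disjoint_union_left]
    exact ⟨hb.dA.symm, hb.dX.symm⟩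

end F3.GE
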