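import Pool.Agent.F3.GE.Main
import Pool.Agent.F3.GE.Boost
import Pool.Agent.F3.GE.BSel
import Pool.Agent.F3.GE.YP
import Pool.Agent.F3.GE.Num
import Pool.Agent.F3.GE.Sel
import Pool.Agent.F3.GE.ConsM
import Pool.Agent.F3.GE.ConsY
import Pool.Agent.F3.GE.ConsT
import Pool.Agent.F3.GE.Hyp
import Pool.Agent.F3.GE.ToCov
import Pool.Agent.F3.GE.Fin
import Pool.Agent.F2.Final

/-!
# Project F3, block GE: the engine
-/

set_option autoImplicit false

namespace F3.GE

theorem selS : SelGStatement :=
  selG (mselectG (bselectG F2.select)) (F2.spA F2.sums F2.basicS) (F2.spB F2.sums F2.basicS)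
    (F2.spE F2.sums F2.doubleS) (F2.spY F2.sums F2.basicS F2.newS) (F2.spT F2.sums F2.newS)
    (F2.spD F2.oa) (F2.bad_sum F2.sums F2.newS F2.oa F2.template) ypG numG

theorem boostS : BoostGStatement :=
  boostG selS F2.cleanS (consMG F2.gg_lift F2.liftS F2.cleanS)
    (consYG F2.liftS F2.cleanS (F2.triSum F2.sums F2.basicS)) (consTG F2.liftS F2.cleanS)

/-- the engine -/
theorem engineS : EngineStatement :=
  engine boostS F2.an_ok (finG F2.template F1.girth)
    (fun c J V _ _ RT hh E X RR VV h1 h2 => syG_good c J V RT hh E X RR VV h1 h2)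
    hypG (toCovG F2.cover) F2.numZ

end F3.GE
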