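import Pool.Agent.F2.SpecZ
import Pool.Agent.F3.Defs

/-!
# Project F3 (MP_6a0350_co), block GE: the engine with a family of allowed triangles

Generalisation of the blocks L, Z of F2: `al` the allowed triples, `VV` the virtual triples (one
edge outside the reserve `X`, two edges in `X`), `P r` the placements of the booster of the root
`r`, `s` the number of rows of the reserve, `s₁` the sparsity of the roots (`n ^ (3 θ / 4) ≤ s₁`).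
-/

set_option autoImplicit false
set_option linter.unusedSectionVars false

namespace F3.GE

open Finset NW F1 F2
open Pool.Agent.F2 (HH GG Spread)

/-! ## Input and output of the engine -/

section Host

variable {V : Type} [Fintype V] [DecidableEq V]

/-- pairwise edge-disjoint triples -/
def Pk (𝒯 : Finset (Tri V)) : Prop :=
  ∀ T ∈ 𝒯, ∀ T' ∈ 𝒯, T ≠ T' → Disjoint (NW.edg T.1) (NW.edg T'.1)

/-- the edges of a set of triples -/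
def eT (𝒯 : Finset (Tri V)) : Finset (Sym2 V) := 𝒯.biUnion (fun T => NW.edg T.1)

/-- the number of triples of `S` through `e` -/
def dT (S : Finset (Tri V)) (e : Sym2 V) : ℕ := (S.filter (fun T => e ∈ NW.edg T.1)).card

/-- the input of the engine -/
structure EHost (c C s s₁ : ℕ) (B K κ θ : ℝ) (al : Tri V → Prop) (E A X : Finset (Sym2 V))
    (RT VV : Finset (Tri V)) (P : Tri V → Finset (Fin (c + 2) → V)) : Prop where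
  div : NW.Divis E
  X_sub : X ⊆ E
  A_sub : A ⊆ E \ X
  s_le : (s : ℝ) ≤ (Fintype.card V : ℝ) ^ θ
  s_ge : (Fintype.card V : ℝ) ^ θ ≤ s + 1
  s₁_le : s₁ ≤ s
  s₁_ge : (Fintype.card V : ℝ) ^ (3 / 4 * θ) ≤ s₁
  deg : ∀ v, 5 * Fintype.card V ≤ 8 * NW.deg (E \ (X ∪ A)) v
  root : ∀ r ∈ RT, NW.edg r.1 ⊆ A ∪ X
  vert : ∀ v, (RT.filter (fun r => v ∈ r.1)).card * s₁ ≤ C * Fintype.card V
  pair : ∀ e, dT RT e ≤ C
  /-- the placements of the boosters: new edges outside `X` and `A`, white faces allowed -/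
  P_sub : ∀ r ∈ RT, P r ⊆ Pl c (E \ (X ∪ A)) r
  P_all : ∀ r ∈ RT, ∀ h ∈ P r, ∀ T ∈ OFF c h, al T
  P_card : ∀ r ∈ RT, (Fintype.card V : ℝ) ^ (c - 1) ≤ B * (P r).card
  /-- the virtual triples -/
  VV_all : ∀ T ∈ VV, al T
  VV_tri : VV ⊆ triV (E \ (X ∪ A)) X
  VV_hi : ∀ e ∈ E \ (X ∪ A), dT VV e * s ^ 2 ≤ 4 * Fintype.card V
  VV_lo : ∀ e ∈ E \ (X ∪ A), Fintype.card V ≤ 4 * s ^ 2 * dT VV e
  /-- fractional decompositions after deletion of any boosters, avoiding any sparse set -/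
  frac : ∀ hh : Tri V → (Fin (c + 2) → V), (∀ r ∈ RT, hh r ∈ P r) →
    (∀ r ∈ RT, ∀ r' ∈ RT, r ≠ r' → Disjoint (bE c (hh r)) (bE c (hh r'))) →
    Sm κ (bEs c RT hh) → ∀ Bd : Finset (Tri V), SmT κ Bd →
    Frac K al ((E \ (X ∪ A)) \ bEs c RT hh) Bd
  /-- absorption -/
  abs : ∀ L, L ⊆ X → NW.Divis (A ∪ L) → DecA al (E \ (A ∪ L)) →
    ∃ 𝒯 : Finset (Tri V), 𝒯 ⊆ RT ∧ Pk 𝒯 ∧ eT 𝒯 = A ∪ L

end Host

/-- the engine -/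
def EngineStatement : Prop :=
  ∀ (J c C : ℕ) (B K κ : ℝ), 3 ≤ J → 6 ≤ c → Even c → J < c → 1 ≤ B → 0 < K → 0 < κ →
    ∃ θ₀ : ℝ, 0 < θ₀ ∧ ∀ θ : ℝ, 0 < θ → θ ≤ θ₀ → ∃ n₀ : ℕ,
      ∀ (V : Type) [Fintype V] [DecidableEq V] (s s₁ : ℕ) (al : Tri V → Prop)
        (E A X : Finset (Sym2 V)) (RT VV : Finset (Tri V))
        (P : Tri V → Finset (Fin (c + 2) → V)),
        n₀ ≤ Fintype.card V → EHost c C s s₁ B K κ θ al E A X RT VV P →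
        ∃ 𝒯 : Finset (Finset V), NW.IsPack 𝒯 E ∧ 𝒯.biUnion NW.edg = E ∧
          ∀ U : Finset V, 4 ≤ U.card → U.card ≤ J + 2 →
            (𝒯.filter (fun t => t ⊆ U)).card + 2 < U.card

/-! ## Block L -/

section L

variable {V : Type} [Fintype V] [DecidableEq V] (c J : ℕ)

/-- the probability of the placement `h` -/
noncomputable def yG (P : Tri V → Finset (Fin (c + 2) → V)) (RT : Finset (Tri V))
    (h : Fin (c + 2) → V) : ℝ := ∑ r ∈ RT.filter (fun r => h ∈ P r), 1 / ((P r).card : ℝ)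

/-- the hypotheses of the selection of the boosters -/
structure GHyp (n₀ C s s₁ : ℕ) (B θ : ℝ) (E' A X : Finset (Sym2 V)) (RT VV : Finset (Tri V))
    (P : Tri V → Finset (Fin (c + 2) → V)) : Prop where
  hn : n₀ ≤ Fintype.card V
  s_le : (s : ℝ) ≤ (Fintype.card V : ℝ) ^ θ
  s_ge : (Fintype.card V : ℝ) ^ θ ≤ s + 1
  s₁_le : s₁ ≤ s
  s₁_ge : (Fintype.card V : ℝ) ^ (3 / 4 * θ) ≤ s₁
  nl : NW.NL E'
  dA : Disjoint E' A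
  dX : Disjoint E' X
  root : ∀ r ∈ RT, NW.edg r.1 ⊆ A ∪ X
  vert : ∀ v, (RT.filter (fun r => v ∈ r.1)).card * s₁ ≤ C * Fintype.card V
  pair : ∀ e, (RT.filter (fun r => e ∈ NW.edg r.1)).card ≤ C
  P_sub : ∀ r ∈ RT, P r ⊆ Pl c E' r
  P_card : ∀ r ∈ RT, (Fintype.card V : ℝ) ^ (c - 1) ≤ B * (P r).card
  vt : ∀ e ∈ E', (VV.filter (fun T => e ∈ NW.edg T.1)).card * s ^ 2 ≤ 4 * Fintype.card V

/-- the moment bounds for the chosen placements; as `F2.Sel`, only `gV` is for `VV` -/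
structure SelG (k k₂ s : ℕ) (K θ : ℝ) (E' : Finset (Sym2 V)) (RT VV : Finset (Tri V))
    (P : Tri V → Finset (Fin (c + 2) → V)) (hh : Tri V → (Fin (c + 2) → V)) : Prop where
  mem : ∀ r ∈ RT, hh r ∈ P r
  bad : ∀ W ∈ bad V c J, ∃ h ∈ W, h ∉ RT.image hh
  u_le : (2 * K + s ^ 2) / Fintype.card V ≤ 1
  gA : ∀ T T', T ≠ T' → GG ((Fintype.card V : ℝ) ^ (-(19 / 20) : ℝ))
    (yA c (fun _ => (2 * K + s ^ 2) / Fintype.card V) (rz c RT hh)) (LA c J T T') k ≤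
      (Fintype.card V : ℝ) ^ (-(9 / 10) * k : ℝ)
  gA' : ∀ T T', T ≠ T' → GG ((Fintype.card V : ℝ) ^ (-(19 / 20) : ℝ))
    (yA c (fun _ => (2 * K + s ^ 2) / Fintype.card V) (rz c RT hh)) (LA' c J T T') k ≤
      (Fintype.card V : ℝ) ^ (-(9 / 10) * k : ℝ)
  gB : ∀ T e, e ∉ NW.edg T.1 → GG ((Fintype.card V : ℝ) ^ (-(19 / 20) : ℝ))
    (yA c (fun _ => (2 * K + s ^ 2) / Fintype.card V) (rz c RT hh)) (LB c J T e) k ≤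
      (Fintype.card V : ℝ) ^ (-(9 / 10) * k : ℝ)
  gE : ∀ T T', GG ((Fintype.card V : ℝ) ^ (-(19 / 20) : ℝ))
    (yA c (fun _ => (2 * K + s ^ 2) / Fintype.card V) (rz c RT hh)) (LE c J T T') k ≤
      (Fintype.card V : ℝ) ^ (-(9 / 10) * k : ℝ)
  gF : ∀ e, GG 1 (yA c (fun _ => (2 * K + s ^ 2) / Fintype.card V) (rz c RT hh))
    (LF c J e) k₂ ≤ ((Fintype.card V : ℝ) ^ (3 * J * θ)) ^ k₂
  gY : ∀ T : Tri V, ¬ Disjoint (NW.edg T.1) E' → GG (2 * K / Fintype.card V)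
    (yA c (fun _ => 2 * K / Fintype.card V) (rz c RT hh)) (LY c J T) k₂ ≤ 1
  gR : ∀ e ∈ E', GG (1 / Fintype.card V) (yA c (fun _ => 1 / Fintype.card V) (rz c RT hh))
    (LT c J e univ) k₂ ≤ ((Fintype.card V : ℝ) ^ (-(θ / 2))) ^ k₂
  gV : ∀ e ∈ E', GG (s ^ 2 / Fintype.card V)
    (yA c (fun _ => s ^ 2 / Fintype.card V) (rz c RT hh))
    (LT c J e VV) k₂ ≤ ((Fintype.card V : ℝ) ^ (-(θ / 2))) ^ k₂
  gD : ∀ v, GG 1 (yA c (fun _ => 0) (rz c RT hh)) (LD c v) k₂ ≤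
    ((Fintype.card V : ℝ) ^ (1 - θ / 2) / (c + 2)) ^ k₂

/-- the boosters are good; as `F2.Boosted`, only `thV` is for `VV` -/
structure BoostedG (k : ℕ) (K K₂ θ : ℝ) (s : ℕ) (E' X : Finset (Sym2 V)) (RT VV : Finset (Tri V))
    (P : Tri V → Finset (Fin (c + 2) → V)) (hh : Tri V → (Fin (c + 2) → V)) : Prop where
  mem : ∀ r ∈ RT, hh r ∈ P r
  disj : ∀ r ∈ RT, ∀ r' ∈ RT, r ≠ r' → Disjoint (bE c (hh r)) (bE c (hh r'))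
  clean : ∀ D ∈ (triSys V J).conf, Cons c RT hh D → ¬ D ⊆ allB c RT hh
  deg : ∀ v, (NW.deg (bEs c RT hh) v : ℝ) ≤ (Fintype.card V : ℝ) ^ (1 - θ / 2)
  thR : ∀ e, (((triR (E' \ bEs c RT hh)).filter (fun T => e ∈ NW.edg T.1 ∧
    {T} ∈ (syT c J RT hh (E' \ bEs c RT hh) X).conf)).card : ℝ) ≤
      (Fintype.card V : ℝ) ^ (1 - θ / 2)
  thV : ∀ e ∈ E' \ bEs c RT hh, ((VV.filter (fun T => T ∈ triV (E' \ bEs c RT hh) X ∧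
    e ∈ NW.edg T.1 ∧ {T} ∈ (syT c J RT hh (E' \ bEs c RT hh) X).conf)).card : ℝ) * s ^ 2 ≤
      (Fintype.card V : ℝ) ^ (1 - θ / 2)
  hY : ∀ T ∈ triR (E' \ bEs c RT hh) ∪ triV (E' \ bEs c RT hh) X,
    ∑ U ∈ (syT c J RT hh (E' \ bEs c RT hh) X).conf.filter (fun U => T ∈ U ∧ U ≠ {T} ∧
      U.erase T ⊆ triR (E' \ bEs c RT hh)), (2 * K / Fintype.card V) ^ (U.card - 1) ≤ K₂
  hF : ∀ e ∈ E' \ bEs c RT hh, ∑ U ∈ (syT c J RT hh (E' \ bEs c RT hh) X).fF e,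
    ∏ T ∈ U, (syT c J RT hh (E' \ bEs c RT hh) X).y0 (fun _ => K / Fintype.card V)
      (s ^ 2 / Fintype.card V) T ≤ (Fintype.card V : ℝ) ^ (3 * J * θ)
  mA : ∀ T T', T ≠ T' → GG ((Fintype.card V : ℝ) ^ (-(19 / 20) : ℝ))
    ((syT c J RT hh (E' \ bEs c RT hh) X).y0 (fun _ => K / Fintype.card V)
      (s ^ 2 / Fintype.card V)) ((syT c J RT hh (E' \ bEs c RT hh) X).fA T T') k ≤
    (Fintype.card V : ℝ) ^ (-(9 / 10) * k : ℝ)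
  mA' : ∀ T T', T ≠ T' → GG ((Fintype.card V : ℝ) ^ (-(19 / 20) : ℝ))
    ((syT c J RT hh (E' \ bEs c RT hh) X).y0 (fun _ => K / Fintype.card V)
      (s ^ 2 / Fintype.card V)) ((syT c J RT hh (E' \ bEs c RT hh) X).fA' T T') k ≤
    (Fintype.card V : ℝ) ^ (-(9 / 10) * k : ℝ)
  mB : ∀ (T : Tri V), ∀ e ∈ E' \ bEs c RT hh,
    e ∉ NW.edg T.1 → GG ((Fintype.card V : ℝ) ^ (-(19 / 20) : ℝ))
    ((syT c J RT hh (E' \ bEs c RT hh) X).y0 (fun _ => K / Fintype.card V)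
      (s ^ 2 / Fintype.card V)) ((syT c J RT hh (E' \ bEs c RT hh) X).fB T e) k ≤
    (Fintype.card V : ℝ) ^ (-(9 / 10) * k : ℝ)
  mE : ∀ T T', T ≠ T' →
    GG ((Fintype.card V : ℝ) ^ (-(19 / 20) : ℝ))
    ((syT c J RT hh (E' \ bEs c RT hh) X).y0 (fun _ => K / Fintype.card V)
      (s ^ 2 / Fintype.card V)) ((syT c J RT hh (E' \ bEs c RT hh) X).fE T T') k ≤
    (Fintype.card V : ℝ) ^ (-(9 / 10) * k : ℝ)

end L

/-- row GE1 (copy of `F2.bselect`), from `F2.SelectStatement` -/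
def BSelectG : Prop :=
  ∀ (L c : ℕ) (V : Type) [Fintype V] [DecidableEq V] (RT : Finset (Tri V))
    (P : Tri V → Finset (Fin (c + 2) → V)) (𝔅 : Finset (Finset (Fin (c + 2) → V)))
    (I : Type) [Fintype I] (b : I → ℝ) (U : I → Finset (Fin (c + 2) → V)), 1 ≤ L →
    (∀ r, ∀ h ∈ P r, rt c h = r.1) → (∀ r ∈ RT, (P r).Nonempty) →
    (∀ W ∈ 𝔅, W.card ≤ L ∧ W.Nonempty) → (∀ i, (U i).card ≤ L) → (∀ i, 0 ≤ b i) →
    (∀ r ∈ RT, ∑ W ∈ 𝔅.filter (fun W => ∃ h ∈ W, rt c h = r.1), ∏ h ∈ W, yG c P RT h ≤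
      1 / (8 * L)) →
    ∑ i, b i * ∏ h ∈ U i, yG c P RT h < 1 / 2 ^ L →
    ∃ hh : Tri V → (Fin (c + 2) → V), (∀ r ∈ RT, hh r ∈ P r) ∧
      (∀ W ∈ 𝔅, ∃ h ∈ W, h ∉ RT.image hh) ∧ ∑ i, b i * ∏ h ∈ U i, rz c RT hh h < 1

/-- row GE1 (copy of `F2.mselect`), from `BSelectG` -/
def MSelectG : Prop :=
  ∀ (L c : ℕ) (V : Type) [Fintype V] [DecidableEq V] (RT : Finset (Tri V))
    (P : Tri V → Finset (Fin (c + 2) → V)) (𝔅 : Finset (Finset (Fin (c + 2) → V)))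
    (ϱ : Type) [Fintype ϱ] (yτ : ϱ → Tri V → ℝ)
    (e a : ϱ → ℝ) (k : ϱ → ℕ) (FF : ϱ → Finset (Finset (Atom V c))), 1 ≤ L →
    (∀ r, ∀ h ∈ P r, rt c h = r.1) → (∀ r ∈ RT, (P r).Nonempty) →
    (∀ W ∈ 𝔅, W.card ≤ L ∧ W.Nonempty) →
    (∀ i, ∀ U ∈ FF i, k i * U.card ≤ L) → (∀ i T, 0 ≤ yτ i T) → (∀ i, 0 ≤ e i) →
    (∀ i, 0 ≤ a i) →
    (∀ r ∈ RT, ∑ W ∈ 𝔅.filter (fun W => ∃ h ∈ W, rt c h = r.1), ∏ h ∈ W, yG c P RT h ≤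
      1 / (8 * L)) →
    ∑ i, a i * GG (e i) (yA c (yτ i) (yG c P RT)) (FF i) (k i) < 1 / 2 ^ L →
    ∃ hh : Tri V → (Fin (c + 2) → V), (∀ r ∈ RT, hh r ∈ P r) ∧
      (∀ W ∈ 𝔅, ∃ h ∈ W, h ∉ RT.image hh) ∧
      ∑ i, a i * GG (e i) (yA c (yτ i) (rz c RT hh)) (FF i) (k i) < 1

/-- row GE2 (copy of `F2.yp`) -/
def YPG : Prop :=
  ∀ (c C n₀ : ℕ) (B : ℝ), 6 ≤ c → 1 ≤ B → 1 ≤ n₀ →
    ∀ (V : Type) [Fintype V] [DecidableEq V] (E' A X : Finset (Sym2 V)) (RT VV : Finset (Tri V))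
      (P : Tri V → Finset (Fin (c + 2) → V)) (s s₁ : ℕ) (θ : ℝ), 1 ≤ s₁ →
      GHyp c n₀ C s s₁ B θ E' A X RT VV P → (∀ r, r ∉ RT → P r = ∅) →
      (∀ r ∈ RT, (P r).Nonempty) ∧ YBound c C s₁ B E' RT (yG c P RT)

/-- row GE3 (copy of `F2.num`) -/
def NumG : Prop :=
  ∀ (J k k₂ : ℕ) (C₂ θ : ℝ), 1 ≤ J → 1000 ≤ k → 1 ≤ C₂ → 0 < θ → 4 * J * θ ≤ 1 / 50 →
    24 / θ ≤ k₂ → ∃ n₀ : ℕ, ∀ n : ℕ, n₀ ≤ n → ∀ s s₁ : ℕ, (s : ℝ) ≤ (n : ℝ) ^ θ →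
      (n : ℝ) ^ θ ≤ s + 1 → s₁ ≤ s → (n : ℝ) ^ (3 / 4 * θ) ≤ s₁ →
      1 ≤ s ∧ 1 ≤ s₁ ∧ 1 ≤ n ∧ C₂ * (s : ℝ) ^ 2 / n ≤ 1 ∧ C₂ * (1 / s₁ + 1 / n : ℝ) ≤ 1 ∧
      (n : ℝ) ^ 6 * (n : ℝ) ^ ((9 / 10) * k : ℝ) *
        (C₂ * ((s : ℝ) ^ 2) ^ (2 * J) / n + C₂ * (n : ℝ) ^ (-(19 / 20) : ℝ)) ^ k ≤ 1 / C₂ ∧
      (n : ℝ) ^ 2 * (((n : ℝ) ^ (3 * J * θ))⁻¹) ^ k₂ * (C₂ * ((s : ℝ) ^ 2) ^ J + C₂) ^ k₂ ≤
        1 / C₂ ∧
      (n : ℝ) ^ 3 * (C₂ * (1 / s₁ + 1 / n : ℝ) + C₂ * (1 / n : ℝ)) ^ k₂ ≤ 1 / C₂ ∧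
      (n : ℝ) ^ 2 * (((n : ℝ) ^ (-(θ / 2)))⁻¹) ^ k₂ *
        (C₂ * (1 / s₁ + 1 / n + (s : ℝ) ^ 2 / n : ℝ) + C₂ * ((s : ℝ) ^ 2 / n : ℝ)) ^ k₂ ≤
        1 / C₂ ∧
      (n : ℝ) * (((n : ℝ) ^ (1 - θ / 2) / C₂)⁻¹) ^ k₂ * (C₂ * (n / s₁ : ℝ) + C₂) ^ k₂ ≤ 1 / C₂

/-- row GE4 (copy of `F2.sel`), from `MSelectG`, `YPG`, `NumG` and the spread bounds of F2 -/
def SelGStatement : Prop :=
  ∀ (J c C : ℕ) (B K : ℝ), 3 ≤ J → 6 ≤ c → Even c → J < c → 1 ≤ B → 0 < K → ∀ k : ℕ, 1000 ≤ k →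
    ∃ θ₀ : ℝ, 0 < θ₀ ∧ ∀ θ : ℝ, 0 < θ → θ ≤ θ₀ → ∃ n₀ k₂ : ℕ, 1 ≤ k₂ ∧
      ∀ (V : Type) [Fintype V] [DecidableEq V] (E' A X : Finset (Sym2 V))
        (RT VV : Finset (Tri V)) (P : Tri V → Finset (Fin (c + 2) → V)) (s s₁ : ℕ),
        GHyp c n₀ C s s₁ B θ E' A X RT VV P →
        ∃ hh : Tri V → (Fin (c + 2) → V), SelG c J k k₂ s K θ E' RT VV P hh

/-- row GE5a (copy of `F2.consM`), from `F2.GGLiftStatement`, `F2.LiftStatement`,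
`F2.CleanStatement` -/
def ConsMG : Prop :=
  ∀ (c J k k₂ C s s₁ n₀ : ℕ) (B K θ : ℝ), 6 ≤ c → Even c → J < c → 0 < K → 1 ≤ k₂ →
    ∀ (V : Type) [Fintype V] [DecidableEq V] (E' A X : Finset (Sym2 V)) (RT VV : Finset (Tri V))
      (P : Tri V → Finset (Fin (c + 2) → V)) (hh : Tri V → (Fin (c + 2) → V)), 1 ≤ n₀ →
      GHyp c n₀ C s s₁ B θ E' A X RT VV P → SelG c J k k₂ s K θ E' RT VV P hh →
      (∀ T T', T ≠ T' → GG ((Fintype.card V : ℝ) ^ (-(19 / 20) : ℝ))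
        ((syT c J RT hh (E' \ bEs c RT hh) X).y0 (fun _ => K / Fintype.card V)
          (s ^ 2 / Fintype.card V)) ((syT c J RT hh (E' \ bEs c RT hh) X).fA T T') k ≤
        (Fintype.card V : ℝ) ^ (-(9 / 10) * k : ℝ)) ∧
      (∀ T T', T ≠ T' → GG ((Fintype.card V : ℝ) ^ (-(19 / 20) : ℝ))
        ((syT c J RT hh (E' \ bEs c RT hh) X).y0 (fun _ => K / Fintype.card V)
          (s ^ 2 / Fintype.card V)) ((syT c J RT hh (E' \ bEs c RT hh) X).fA' T T') k ≤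
        (Fintype.card V : ℝ) ^ (-(9 / 10) * k : ℝ)) ∧
      (∀ (T : Tri V), ∀ e ∈ E' \ bEs c RT hh,
        e ∉ NW.edg T.1 → GG ((Fintype.card V : ℝ) ^ (-(19 / 20) : ℝ))
        ((syT c J RT hh (E' \ bEs c RT hh) X).y0 (fun _ => K / Fintype.card V)
          (s ^ 2 / Fintype.card V)) ((syT c J RT hh (E' \ bEs c RT hh) X).fB T e) k ≤
        (Fintype.card V : ℝ) ^ (-(9 / 10) * k : ℝ)) ∧
      (∀ T T', T ≠ T' → GG ((Fintype.card V : ℝ) ^ (-(19 / 20) : ℝ))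
        ((syT c J RT hh (E' \ bEs c RT hh) X).y0 (fun _ => K / Fintype.card V)
          (s ^ 2 / Fintype.card V)) ((syT c J RT hh (E' \ bEs c RT hh) X).fE T T') k ≤
        (Fintype.card V : ℝ) ^ (-(9 / 10) * k : ℝ))

/-- row GE5b (copy of `F2.consY`), from `F2.LiftStatement`, `F2.CleanStatement`,
`F2.TriSumStatement` -/
def ConsYG : Prop :=
  ∀ (J : ℕ) (K : ℝ), 0 < K → ∃ K₂ : ℝ, 1 ≤ K₂ ∧
  ∀ (c k k₂ C s s₁ n₀ : ℕ) (B θ : ℝ), 6 ≤ c → Even c → J < c → 1 ≤ k₂ →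
    ∀ (V : Type) [Fintype V] [DecidableEq V] (E' A X : Finset (Sym2 V)) (RT VV : Finset (Tri V))
      (P : Tri V → Finset (Fin (c + 2) → V)) (hh : Tri V → (Fin (c + 2) → V)), 1 ≤ n₀ →
      GHyp c n₀ C s s₁ B θ E' A X RT VV P → SelG c J k k₂ s K θ E' RT VV P hh →
      (∀ T ∈ triR (E' \ bEs c RT hh) ∪ triV (E' \ bEs c RT hh) X,
        ∑ U ∈ (syT c J RT hh (E' \ bEs c RT hh) X).conf.filter (fun U => T ∈ U ∧ U ≠ {T} ∧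
          U.erase T ⊆ triR (E' \ bEs c RT hh)), (2 * K / Fintype.card V) ^ (U.card - 1) ≤ K₂) ∧
      (∀ e ∈ E' \ bEs c RT hh, ∑ U ∈ (syT c J RT hh (E' \ bEs c RT hh) X).fF e,
        ∏ T ∈ U, (syT c J RT hh (E' \ bEs c RT hh) X).y0 (fun _ => K / Fintype.card V)
          (s ^ 2 / Fintype.card V) T ≤ (Fintype.card V : ℝ) ^ (3 * J * θ))

/-- row GE5c (copy of `F2.consT`), from `F2.LiftStatement`, `F2.CleanStatement` -/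
def ConsTG : Prop :=
  ∀ (c J k k₂ C s s₁ n₀ : ℕ) (B K θ : ℝ), 6 ≤ c → Even c → J < c → 0 < K → 1 ≤ k₂ →
    ∀ (V : Type) [Fintype V] [DecidableEq V] (E' A X : Finset (Sym2 V)) (RT VV : Finset (Tri V))
      (P : Tri V → Finset (Fin (c + 2) → V)) (hh : Tri V → (Fin (c + 2) → V)), 1 ≤ n₀ →
      GHyp c n₀ C s s₁ B θ E' A X RT VV P → SelG c J k k₂ s K θ E' RT VV P hh →
      (∀ v, (NW.deg (bEs c RT hh) v : ℝ) ≤ (Fintype.card V : ℝ) ^ (1 - θ / 2)) ∧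
      (∀ e, (((triR (E' \ bEs c RT hh)).filter (fun T => e ∈ NW.edg T.1 ∧
        {T} ∈ (syT c J RT hh (E' \ bEs c RT hh) X).conf)).card : ℝ) ≤
          (Fintype.card V : ℝ) ^ (1 - θ / 2)) ∧
      (∀ e ∈ E' \ bEs c RT hh, ((VV.filter (fun T => T ∈ triV (E' \ bEs c RT hh) X ∧
        e ∈ NW.edg T.1 ∧ {T} ∈ (syT c J RT hh (E' \ bEs c RT hh) X).conf)).card : ℝ) * s ^ 2 ≤
          (Fintype.card V : ℝ) ^ (1 - θ / 2))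

/-- row GE5 (copy of `F2.boost`), from `SelGStatement`, `F2.CleanStatement`, `ConsMG`, `ConsYG`,
`ConsTG` -/
def BoostGStatement : Prop :=
  ∀ (J c C : ℕ) (B K : ℝ), 3 ≤ J → 6 ≤ c → Even c → J < c → 1 ≤ B → 0 < K → ∃ K₂ : ℝ, 1 ≤ K₂ ∧
    ∀ k : ℕ, 1000 ≤ k → ∃ θ₀ : ℝ, 0 < θ₀ ∧ ∀ θ : ℝ, 0 < θ → θ ≤ θ₀ → ∃ n₀ : ℕ,
      ∀ (V : Type) [Fintype V] [DecidableEq V] (E' A X : Finset (Sym2 V))
        (RT VV : Finset (Tri V)) (P : Tri V → Finset (Fin (c + 2) → V)) (s s₁ : ℕ),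
        GHyp c n₀ C s s₁ B θ E' A X RT VV P →
        ∃ hh : Tri V → (Fin (c + 2) → V), BoostedG c J k K K₂ θ s E' X RT VV P hh

/-! ## Block Z -/

section Z

variable {V : Type} [Fintype V] [DecidableEq V] (c J : ℕ)

/-- the system of allowed triples: `RR` real, `VV` virtual -/
noncomputable def syG (RT : Finset (Tri V)) (hh : Tri V → (Fin (c + 2) → V))
    (E : Finset (Sym2 V)) (RR VV : Finset (Tri V)) : Sy (Sym2 V) (Tri V) where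
  ed := fun T => NW.edg T.1 ∩ E
  R := RR
  Vt := VV
  conf := rconf c J RT hh (RR ∪ VV)

/-- the allowed virtual triples of `E` -/
def vvA (VV : Finset (Tri V)) (E X : Finset (Sym2 V)) : Finset (Tri V) := VV ∩ triV E X

end Z

/-- row GE6 (copy of `F2.hyp`) -/
def HypG : Prop :=
  ∀ (c J k s : ℕ) (K K₂ K' θ ω : ℝ), 0 < K → K ≤ K' → K₂ ≤ K' → 1 ≤ s →
    ∀ (V : Type) [Fintype V] [DecidableEq V] (E' X : Finset (Sym2 V)) (RT RR VV : Finset (Tri V))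
      (P : Tri V → Finset (Fin (c + 2) → V))
      (hh : Tri V → (Fin (c + 2) → V)) (w : Tri V → ℝ), 1 ≤ Fintype.card V →
      BoostedG c J k K K₂ θ s E' X RT VV P hh → NW.NL E' → Disjoint E' X →
      (∀ v, Fintype.card V ≤ 2 * NW.deg (E' \ bEs c RT hh) v) → VV ⊆ triV E' X →
      RR ⊆ triR (E' \ bEs c RT hh) →
      (∀ e ∈ E', dT VV e * s ^ 2 ≤ 4 * Fintype.card V) →
      (∀ e ∈ E', Fintype.card V ≤ 4 * s ^ 2 * dT VV e) →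
      (∀ T, 0 ≤ w T) → (∀ T, w T ≤ K / Fintype.card V) →
      (∀ T, w T ≠ 0 → T ∈ RR ∧ {T} ∉ (syT c J RT hh (E' \ bEs c RT hh) X).conf) →
      (∀ e ∈ E' \ bEs c RT hh,
        ∑ T ∈ univ.filter (fun T : Tri V => e ∈ NW.edg T.1), w T = 1) →
      (s : ℝ) ^ 2 / Fintype.card V ≤ (Fintype.card V : ℝ) ^ (-1 + ω / 8) →
      (Fintype.card V : ℝ) ^ (3 * J * θ) ≤ (Fintype.card V : ℝ) ^ (ω / 8) →
      (Fintype.card V : ℝ) ^ (-(θ / 2)) ≤ 1 / 8 →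
      ∃ x0 : Tri V → ℝ,
        (syG c J RT hh (E' \ bEs c RT hh) RR (vvA VV (E' \ bEs c RT hh) X)).Hyp J k K' (ω / 8) (Fintype.card V : ℕ)
          ((s : ℝ) ^ 2 / Fintype.card V) (E' \ bEs c RT hh) w x0
          (fun v : V => (E' \ bEs c RT hh).filter (fun e => v ∈ e))

/-- row GE7 (copy of `F2.toCov`), from `F2.CoverStatement` -/
def ToCovG : Prop :=
  ∀ (J : ℕ) (C : ℝ), 0 < C → ∃ η : ℝ, 0 < η ∧
    ∀ (c s : ℕ) (ω : ℝ) (V : Type) [Fintype V] [DecidableEq V] (E₂ X : Finset (Sym2 V))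
      (RT RR VV : Finset (Tri V)) (hh : Tri V → (Fin (c + 2) → V)) (M : Finset (Tri V))
      (x : Tri V → ℝ),
      3 ≤ Fintype.card V → 1 ≤ s → NW.NL E₂ → Disjoint E₂ X → RR ⊆ triR E₂ → VV ⊆ triV E₂ X →
      (syG c J RT hh E₂ RR VV).Good J →
      (syG c J RT hh E₂ RR VV).Out C ω (Fintype.card V : ℕ) ((s : ℝ) ^ 2 / Fintype.card V) E₂
        (fun v : V => E₂.filter (fun e => v ∈ e)) M x →
      2 * (s : ℝ) ^ 2 * (Fintype.card V : ℝ) ^ (-(ω / 2)) ≤ η →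
      (Fintype.card V : ℝ) ^ (-(ω / 2)) ≤ η →
      ∃ ch : Sym2 V → Tri V, Cov c J E₂ X RT hh M ch ∧ M ⊆ RR ∧ ∀ e ∈ Lo E₂ M, ch e ∈ VV

/-- row GE8 (copy of `F2.fin_of`) -/
def FinG : Prop :=
  ∀ (c J : ℕ), 6 ≤ c → Even c → ∀ (V : Type) [Fintype V] [DecidableEq V]
    (al : Tri V → Prop) (E A X : Finset (Sym2 V)) (RT : Finset (Tri V))
    (hh : Tri V → (Fin (c + 2) → V)) (M : Finset (Tri V)) (ch : Sym2 V → Tri V), NW.Divis E → X ⊆ E → A ⊆ E \ X →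
    (∀ r ∈ RT, NW.edg r.1 ⊆ A ∪ X) →
    (∀ L, L ⊆ X → NW.Divis (A ∪ L) → DecA al (E \ (A ∪ L)) →
      ∃ 𝒯 : Finset (Tri V), 𝒯 ⊆ RT ∧ Pk 𝒯 ∧ eT 𝒯 = A ∪ L) →
    Boo c J E A X RT hh → (∀ r ∈ RT, ∀ T ∈ OFF c (hh r), al T) →
    Cov c J (Er c E A X RT hh) X RT hh M ch → (∀ T ∈ M, al T) →
    (∀ e ∈ Lo (Er c E A X RT hh) M, al (ch e)) →
    ∃ 𝒯 : Finset (Finset V), NW.IsPack 𝒯 E ∧ 𝒯.biUnion NW.edg = E ∧
      ∀ U : Finset V, 4 ≤ U.card → U.card ≤ J + 2 →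
        (𝒯.filter (fun t => t ⊆ U)).card + 2 < U.card

end F3.GE
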