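import Pool.Agent.F3.GE.Defs

/-!
# Project F3, block GE: the engine (assembly)
-/

set_option autoImplicit false
set_option linter.unusedSectionVars false

namespace F3.GE

open Finset NW F1 F2
open Pool.Agent.F2 (HH GG Spread)

/-- the system `syG` is good -/
def SyGoodG : Prop :=
  ∀ (c J : ℕ) (V : Type) [Fintype V] [DecidableEq V] (RT : Finset (Tri V))
    (hh : Tri V → (Fin (c + 2) → V)) (E X : Finset (Sym2 V)) (RR VV : Finset (Tri V)),
    RR ⊆ triR E → VV ⊆ triV E X → (syG c J RT hh E RR VV).Good J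

/-- the engine -/
theorem engine (hb : BoostGStatement) (han : ANStatement) (hfin : FinG) (hgood : SyGoodG)
    (hhyp : HypG) (hcov : ToCovG) (hnum : NumZStatement) : EngineStatement := by
  classical
  intro J c C₀ B K κ hJ3 hc6 hcE hJc hB1 hK hκ
  obtain ⟨K₂, hK₂, hB₁⟩ := hb J c C₀ B K hJ3 hc6 hcE hJc hB1 hK
  obtain ⟨K', hK'1, hKK', hK₂K'⟩ : ∃ K' : ℝ, 1 ≤ K' ∧ K ≤ K' ∧ K₂ ≤ K' :=
    ⟨max 1 (max K K₂), le_max_left _ _, (le_max_left _ _).trans (le_max_right _ _),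
      (le_max_right _ _).trans (le_max_right _ _)⟩
  obtain ⟨ω, k, C, hω, hω1, hC, hk, n2, hA⟩ := han J K' hK'1
  obtain ⟨θ₀, hθ₀, hB₂⟩ := hB₁ k hk
  obtain ⟨η, hη, hCv⟩ := hcov J C hC
  have hJ0 : (0 : ℝ) < J := by exact_mod_cast (by omega : 0 < J)
  refine ⟨min (min θ₀ (1 / 10)) (ω / (24 * J)), ?_, ?_⟩
  · exact lt_min (lt_min hθ₀ (by norm_num)) (by positivity)
  intro θ hθ hθm
  have hθ1 : θ ≤ θ₀ := hθm.trans ((min_le_left _ _).trans (min_le_left _ _))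
  have hθ2 : θ ≤ 1 / 10 := hθm.trans ((min_le_left _ _).trans (min_le_right _ _))
  have hθ3 : 24 * J * θ ≤ ω := by
    have h1 : θ ≤ ω / (24 * J) := hθm.trans (min_le_right _ _)
    calc 24 * (J : ℝ) * θ ≤ 24 * J * (ω / (24 * J)) := by gcongr
      _ = ω := by field_simp
  obtain ⟨n3, hBs⟩ := hB₂ θ hθ hθ1
  obtain ⟨n5, hN⟩ := hnum J 1 (1 / 8) κ η ω θ hJ3 (by norm_num) hκ hη hω hθ
    (by linarith) hθ3
  refine ⟨n2 + n3 + n5 + 3, fun V _ _ s s₁ al E A X RT VV P hn hH => ?_⟩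
  obtain ⟨hn1, -, hs1, -, hν, hJθ, hθ8, hη1, hη2, hκn, hεn, -⟩ :=
    hN (Fintype.card V) s (by omega) hH.s_le hH.s_ge
  obtain ⟨E', hE'⟩ : ∃ E' : Finset (Sym2 V), E' = E \ (X ∪ A) := ⟨_, rfl⟩
  have hE'E : E' ⊆ E := hE' ▸ sdiff_subset
  have hNL' : NW.NL E' := fun e he => hH.div.1 e (hE'E he)
  have hEA : Disjoint E' A := by
    rw [hE']
    exact (sdiff_disjoint).mono_right subset_union_right
  have hEX : Disjoint E' X := by
    rw [hE']
    exact (sdiff_disjoint).mono_right subset_union_left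
  obtain ⟨hh, hBd⟩ := hBs V E' A X RT VV P s s₁
    { hn := by omega
      s_le := hH.s_le
      s_ge := hH.s_ge
      s₁_le := hH.s₁_le
      s₁_ge := hH.s₁_ge
      nl := hNL'
      dA := hEA
      dX := hEX
      root := hH.root
      vert := hH.vert
      pair := hH.pair
      P_sub := hE' ▸ hH.P_sub
      P_card := hH.P_card
      vt := hE' ▸ hH.VV_hi }
  have hBoo : Boo c J E A X RT hh :=
    ⟨fun r hr => hH.P_sub r hr (hBd.mem r hr), hBd.disj, hBd.clean⟩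
  obtain ⟨E₂, hE₂⟩ : ∃ E₂ : Finset (Sym2 V), E₂ = E' \ bEs c RT hh := ⟨_, rfl⟩
  have hEr : Er c E A X RT hh = E₂ := by
    rw [hE₂, hE']
    rfl
  have hE₂E' : E₂ ⊆ E' := hE₂ ▸ sdiff_subset
  have hNL₂ : NW.NL E₂ := fun e he => hNL' e (hE₂E' he)
  -- degrees
  have hdeg2 : ∀ v, Fintype.card V ≤ 2 * NW.deg E₂ v := by
    intro v
    have h1 := hH.deg v
    rw [← hE'] at h1
    have h2 : (NW.deg (bEs c RT hh) v : ℝ) ≤ 1 / 8 * Fintype.card V := (hBd.deg v).trans hεn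
    have h3 : NW.deg E' v ≤ NW.deg E₂ v + NW.deg (bEs c RT hh) v := by
      rw [hE₂]
      unfold NW.deg
      rw [← card_union_of_disjoint]
      · refine card_le_card fun u hu => ?_
        rw [NW.mem_nbr] at hu
        rw [mem_union, NW.mem_nbr, NW.mem_nbr, mem_sdiff]
        by_cases h : s(v, u) ∈ bEs c RT hh
        · exact Or.inr h
        · exact Or.inl ⟨hu, h⟩
      · rw [disjoint_left]
        intro u h4 h5
        rw [NW.mem_nbr, mem_sdiff] at h4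
        rw [NW.mem_nbr] at h5
        exact h4.2 h5
    have h4 : (NW.deg E' v : ℝ) ≤ NW.deg E₂ v + NW.deg (bEs c RT hh) v := by exact_mod_cast h3
    have h5 : (5 : ℝ) * Fintype.card V ≤ 8 * NW.deg E' v := by exact_mod_cast h1
    have h6 : (Fintype.card V : ℝ) ≤ 2 * NW.deg E₂ v := by linarith
    exact_mod_cast h6
  -- the fractional decomposition
  set Bd : Finset (Tri V) := (triR E₂).filter
    (fun T => {T} ∈ (syT c J RT hh E₂ X).conf) with hBdef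
  have hFr := hH.frac hh hBd.mem hBd.disj (fun v => (hBd.deg v).trans hκn) Bd fun e => by
    have h1 := hBd.thR e
    rw [← hE₂] at h1
    refine le_trans ?_ (h1.trans hκn)
    refine Nat.cast_le.2 (card_le_card fun T hT => ?_)
    simp only [hBdef, mem_filter] at hT ⊢
    exact ⟨hT.1.1, hT.2, hT.1.2⟩
  rw [← hE', ← hE₂] at hFr
  obtain ⟨w, hw0, hwK, hwne, hw1⟩ := hFr
  set RR : Finset (Tri V) := (triR E₂).filter al with hRR
  have hRRs : RR ⊆ triR E₂ := filter_subset _ _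
  have hVs : vvA VV E₂ X ⊆ triV E₂ X := inter_subset_right
  have hhyp' := hhyp c J k s K K₂ K' θ ω hK hKK' hK₂K' hs1 V E' X RT RR VV P hh w hn1 hBd hNL' hEX
  rw [← hE₂] at hhyp'
  obtain ⟨x0, hHyp⟩ := hhyp' hdeg2 (hE' ▸ hH.VV_tri) hRRs (hE' ▸ hH.VV_hi) (hE' ▸ hH.VV_lo)
    hw0 hwK
    (fun T hT => ⟨mem_filter.2 ⟨mem_filter.2 ⟨mem_univ _, (hwne T hT).1⟩, (hwne T hT).2.2⟩,
      fun hcon => (hwne T hT).2.1 (mem_filter.2
        ⟨mem_filter.2 ⟨mem_univ _, (hwne T hT).1⟩, hcon⟩)⟩)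
    hw1 hν hJθ hθ8
  obtain ⟨M, x, hOut⟩ := hA (Sym2 V) (Tri V) V (syG c J RT hh E₂ RR (vvA VV E₂ X))
    (Fintype.card V) ((s : ℝ) ^ 2 / Fintype.card V) E₂ w x0 _ (by omega) hHyp
  obtain ⟨ch, hCov, hMR, hchV⟩ := hCv c s ω V E₂ X RT RR (vvA VV E₂ X) hh M x (by omega) hs1 hNL₂
    (hEX.mono_left hE₂E') hRRs hVs (hgood c J V RT hh E₂ X RR (vvA VV E₂ X) hRRs hVs) hOut hη1
    hη2
  refine hfin c J hc6 hcE V al E A X RT hh M ch hH.div hH.X_sub hH.A_sub hH.root hH.abs hBoo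
    (fun r hr T hT => hH.P_all r hr (hh r) (hBd.mem r hr) T hT)
    (hEr ▸ hCov) (fun T hT => (mem_filter.1 (hMR hT)).2) (fun e he => ?_)
  rw [hEr] at he
  exact hH.VV_all _ (mem_inter.1 (hchV e he)).1

end F3.GE
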